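import Pool.Agent.Helper13.LG.H5
import Pool.Agent.Helper13.LG.BiDeg

/-!
# Block GC-E2: polynomials in several variables as polynomials in two of them

`exists_polR`: `d = ∑_p C (C (a_p ∏_i w_i ^ p_{i+2}) * X ^ p₁) * X ^ p₀` (outer variable `t₀`); the
coefficient of `X ^ m` is `C (a_(m,0,…,0))` because the other exponents of a `p` with `p₀ = m` are zero.
`valR_update`: `valR` is additive and homogeneous in each coordinate.  Compare LG/H5.lean.
-/

universe u

namespace Pool.Agent.GC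

open VC Polynomial Pool.Agent.LT

/-- The exponents of the monomials of degree at most `m` in `r` variables. -/
abbrev IdxR (r m : ℕ) : Type := {p : Fin r → Fin (m + 1) // ∑ i, (p i : ℕ) ≤ m}

/-- The value at `t` of the polynomial with the coefficients `a`. -/
noncomputable def valR {k : Type u} [Field k] {r m : ℕ} (t : Fin r → k) (a : IdxR r m → ℤ) : k :=
  ∑ p : IdxR r m, (a p : k) * ∏ i, t i ^ (p.1 i : ℕ)

/-- the monomial `1` -/
def r00 (r m : ℕ) : IdxR (r + 2) m := ⟨fun _ => 0, by simp⟩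

/-- the monomial `t₁` -/
def r01 (r : ℕ) {m : ℕ} (hm : 1 ≤ m) : IdxR (r + 2) m :=
  ⟨fun i => if i = 1 then ⟨1, by omega⟩ else 0, by
    rw [Finset.sum_eq_single 1]
    · simpa using hm
    · intro i _ hi
      simp [hi]
    · simp⟩

/-- the monomial `t₀ ^ m` -/
def rm0 (r m : ℕ) : IdxR (r + 2) m :=
  ⟨fun i => if i = 0 then Fin.last m else 0, by
    rw [Finset.sum_eq_single 0]
    · simp
    · intro i _ hi
      simp [hi]
    · simp⟩

private theorem rm0_h75 {r m : ℕ} (p : IdxR (r + 2) m) (h : (p.1 0 : ℕ) = m) : p = rm0 r m := by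
  have h1 := p.2
  rw [Fin.sum_univ_succ, h] at h1
  have h2 : ∑ i : Fin (r + 1), (p.1 i.succ : ℕ) = 0 := by omega
  have h3 : ∀ i : Fin (r + 1), (p.1 i.succ : ℕ) = 0 := by
    intro i
    have := Finset.sum_eq_zero_iff.1 h2 i (Finset.mem_univ _)
    exact this
  apply Subtype.ext
  funext i
  apply Fin.ext
  refine Fin.cases ?_ (fun i => ?_) i
  · change (p.1 0 : ℕ) = ((if (0 : Fin (r + 2)) = 0 then Fin.last m else 0 : Fin (m + 1)) : ℕ)
    rw [if_pos rfl, h]
    rfl
  · rw [h3 i]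
    change 0 = ((if i.succ = (0 : Fin (r + 2)) then Fin.last m else 0 : Fin (m + 1)) : ℕ)
    rw [if_neg (Fin.succ_ne_zero i)]
    rfl

private theorem prod_h75 {k : Type u} [Field k] {r m : ℕ} (t : Fin (r + 2) → k)
    (p : IdxR (r + 2) m) : ∏ i, t i ^ (p.1 i : ℕ) =
      t 0 ^ (p.1 0 : ℕ) * (t 1 ^ (p.1 1 : ℕ) * ∏ i : Fin r, t i.succ.succ ^ (p.1 i.succ.succ : ℕ)) := by
  rw [Fin.prod_univ_succ, Fin.prod_univ_succ]
  rfl

private theorem update_h75 {k : Type u} [Field k] {r m : ℕ} (t : Fin r → k)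
    (a : IdxR r m → ℤ) (q : IdxR r m) (c : ℤ) : valR t (Function.update a q c) =
      valR t (Function.update a q 0) + c * ∏ i, t i ^ (q.1 i : ℕ) := by
  rw [← sub_eq_iff_eq_add']
  unfold valR
  rw [← Finset.sum_sub_distrib, Finset.sum_eq_single q]
  · rw [Function.update_self, Function.update_self]
    push_cast
    ring
  · intro p _ hp
    rw [Function.update_of_ne hp, Function.update_of_ne hp, sub_self]
  · intro h
    exact absurd (Finset.mem_univ _) h

theorem exists_polR {F k : Type u} [Field F] [CharZero F] [Field k] [Algebra F k] {r m : ℕ}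
    (t : Fin (r + 2) → k) (w : Fin r → F)
    (hw : ∀ i, algebraMap F k (w i) = t i.succ.succ) (a : IdxR (r + 2) m → ℤ)
    (ha : a (rm0 r m) ≠ 0) :
    ∃ d : F[X][X], BiDeg d m ∧ d.natDegree = m ∧ (∃ c : F, c ≠ 0 ∧ d.leadingCoeff = C c) ∧
      ev F (t 1) (t 0) d = valR t a := by
  obtain ⟨c, hc⟩ : ∃ c : IdxR (r + 2) m → F, c = fun p => (a p : F) *
      ∏ i : Fin r, w i ^ (p.1 i.succ.succ : ℕ) := ⟨_, rfl⟩
  obtain ⟨d, hd⟩ : ∃ d : F[X][X], d = ∑ p : IdxR (r + 2) m,
      C (C (c p) * X ^ (p.1 1 : ℕ)) * X ^ (p.1 0 : ℕ) := ⟨_, rfl⟩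
  have hcoeff : ∀ i, d.coeff i = ∑ p : IdxR (r + 2) m,
      if i = (p.1 0 : ℕ) then C (c p) * X ^ (p.1 1 : ℕ) else 0 := by
    intro i
    rw [hd, finsetSum_coeff]
    refine Finset.sum_congr rfl fun p _ => ?_
    rw [coeff_C_mul, coeff_X_pow]
    split_ifs
    · rw [mul_one]
    · rw [mul_zero]
  have hbi : BiDeg d m := by
    refine ⟨?_, fun i => ?_⟩
    · rw [natDegree_le_iff_coeff_eq_zero]
      intro i hi
      rw [hcoeff]
      refine Finset.sum_eq_zero fun p _ => ?_
      have := (p.1 0).2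
      rw [if_neg (by omega)]
    · rw [hcoeff]
      refine natDegree_sum_le_of_forall_le _ _ fun p _ => ?_
      have hp := (p.1 1).2
      split_ifs
      · exact (natDegree_C_mul_X_pow_le _ _).trans (by omega)
      · rw [natDegree_zero]
        exact Nat.zero_le _
  have htop : d.coeff m = C (a (rm0 r m) : F) := by
    rw [hcoeff, Finset.sum_eq_single (rm0 r m)]
    · have h1 : m = ((rm0 r m).1 0 : ℕ) := rfl
      rw [if_pos h1]
      have h2 : ((rm0 r m).1 1 : ℕ) = 0 := rfl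
      rw [h2, pow_zero, mul_one]
      congr 1
      rw [hc]
      change (a (rm0 r m) : F) * ∏ i : Fin r, w i ^ ((rm0 r m).1 i.succ.succ : ℕ) = _
      rw [Finset.prod_eq_one, mul_one]
      intro i _
      have h3 : ((rm0 r m).1 i.succ.succ : ℕ) = 0 := rfl
      rw [h3, pow_zero]
    · intro p _ hp
      rw [if_neg]
      intro h
      exact hp (rm0_h75 p h.symm)
    · intro h
      exact absurd (Finset.mem_univ _) h
  have h0 : (a (rm0 r m) : F) ≠ 0 := by exact_mod_cast ha
  have hdeg : d.natDegree = m := by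
    refine natDegree_eq_of_le_of_coeff_ne_zero hbi.1 ?_
    rw [htop]
    exact C_ne_zero.2 h0
  refine ⟨d, hbi, hdeg, ⟨_, h0, ?_⟩, ?_⟩
  · rw [← htop, leadingCoeff, hdeg]
  · unfold valR ev
    rw [hd, map_sum]
    refine Finset.sum_congr rfl fun p _ => ?_
    rw [map_mul, map_pow, coe_eval₂RingHom, eval₂_C, eval₂_X]
    have h1 : (aeval (t 1) : F[X] →ₐ[F] k).toRingHom (C (c p) * X ^ (p.1 1 : ℕ)) =
        algebraMap F k (c p) * t 1 ^ (p.1 1 : ℕ) := by
      change aeval (t 1) (C (c p) * X ^ (p.1 1 : ℕ)) = _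
      rw [map_mul, map_pow, aeval_C, aeval_X]
    rw [h1, prod_h75, hc]
    change algebraMap F k ((a p : F) * ∏ i : Fin r, w i ^ (p.1 i.succ.succ : ℕ)) * _ * _ = _
    rw [map_mul, map_prod, map_intCast]
    have h2 : ∏ i : Fin r, algebraMap F k (w i ^ (p.1 i.succ.succ : ℕ)) =
        ∏ i : Fin r, t i.succ.succ ^ (p.1 i.succ.succ : ℕ) :=
      Finset.prod_congr rfl fun i _ => by rw [map_pow, hw]
    rw [h2]
    ring

theorem valR_update {k : Type u} [Field k] {r m : ℕ} (hm : 1 ≤ m) (t : Fin (r + 2) → k)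
    (a : IdxR (r + 2) m → ℤ) (α β : ℤ) :
    valR t (Function.update (Function.update a (r01 r hm) α) (r00 r m) β) =
      valR t (Function.update (Function.update a (r01 r hm) 0) (r00 r m) 0) + α * t 1 + β := by
  have hne : r01 r hm ≠ r00 r m := by
    intro h
    have h1 := congrArg (fun p : IdxR (r + 2) m => (p.1 1 : ℕ)) h
    exact absurd h1 one_ne_zero
  rw [update_h75 t _ (r00 r m) β, Function.update_comm hne, update_h75 t _ (r01 r hm) α,
    Function.update_comm hne]
  have h1 : ∏ i, t i ^ ((r01 r hm).1 i : ℕ) = t 1 := by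
    rw [Finset.prod_eq_single 1]
    · have h3 : ((r01 r hm).1 1 : ℕ) = 1 := rfl
      rw [h3, pow_one]
    · intro i _ hi
      have h3 : ((r01 r hm).1 i : ℕ) = 0 := by
        change ((if i = 1 then ⟨1, by omega⟩ else 0 : Fin (m + 1)) : ℕ) = 0
        rw [if_neg hi]
        rfl
      rw [h3, pow_zero]
    · intro h
      exact absurd (Finset.mem_univ _) h
  have h2 : ∏ i, t i ^ ((r00 r m).1 i : ℕ) = 1 := by
    refine Finset.prod_eq_one fun i _ => ?_
    have h3 : ((r00 r m).1 i : ℕ) = 0 := rfl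
    rw [h3, pow_zero]
  rw [h1, h2, mul_one]

end Pool.Agent.GC
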