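import Pool.Agent.Helper13.GC.C0

/-!
# Block GC-C4: the existence of good coordinates

`x` from `hK₀`: `K₀` is finite over `A = k(x)`.  `z₀` a primitive element of `K₀ / A` (characteristic zero), so
`k(x, z₀) = K₀`.  Let `m` be the minimal polynomial of `z₀` over `A`, `a m + b m' = 1` with `a, b ∈ A[Z]`
(separability), and `p₁`, `p₂` the minimal polynomials of `g` and `g⁻¹` over `A`.  All coefficients of `m, a, b, p₁, p₂` are
of the form `q(x) / D(x)` with `q, D ∈ k[X]`, with a common denominator `D ≠ 0`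
(`IntermediateField.mem_adjoin_simple_iff`; product of the denominators of the finitely many coefficients).
`f` = the radical (`UniqueFactorizationMonoid.radical` or `EuclideanDomain.radical`; or the product of the distinct
normalized prime factors) of `D X`: squarefree, so separable in characteristic zero
(`PerfectField.separable_iff_squarefree`), of degree at least one, and `D Q = f ^ N` for some `Q` and `N`.
`S` = the set of the coefficients of `Q` and of all numerators `q`.

Let `Ω`, `P` be given, `S ⊆ P`, `x ∈ P`, `f(x) ∉ P.nonunits`.  Then `f(x)⁻¹ ∈ P` (and `f(x) ≠ 0`), so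
`D(x)⁻¹ = Q(x) (f(x)⁻¹)^N ∈ P` and all coefficients of `m, a, b, p₁, p₂` are in `P`.  `P` is integrally closed, so
`z₀, g, g⁻¹ ∈ P`.  Let `σ : Ω →+* Ω` be the identity on `k` and `x` (so on `A`), `w = σ z₀`, `w - z₀ ∈ P.nonunits`.  `m(w) = 0`.
Suppose `w ≠ z₀`.  `0 = m(w) - m(z₀) = (w - z₀) (m'(z₀) + (w - z₀) r)` with `r ∈ P`
(Taylor, `Polynomial.binomExpansion` over the ring `P`), so `m'(z₀) = - (w - z₀) r` is a nonunit; but
`b(z₀) m'(z₀) = 1` with `b(z₀) ∈ P`.  Contradiction.
-/

universe u

namespace Pool.Agent.GC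

open VC Polynomial Pool.Agent.LT Pool.Agent.SC Pool.Agent.Helper91.Sect Pool.Agent

/-- Clearing denominators. -/
theorem exists_common_denominator {k K₀ : Type u} [Field k] [Field K₀] [Algebra k K₀] {x : K₀}
    (hx : Transcendental k x) (T : Finset K₀) (hT : ∀ t ∈ T, t ∈ IntermediateField.adjoin k {x}) :
    ∃ D : k[X], D ≠ 0 ∧ ∀ t ∈ T, ∃ q : k[X], t * aeval x D = aeval x q := by
  classical
  have hne : ∀ s : k[X], s ≠ 0 → aeval x s ≠ 0 := fun s hs h0 =>
    hs ((transcendental_iff.1 hx) s h0)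
  induction T using Finset.induction_on with
  | empty => exact ⟨1, one_ne_zero, fun t ht => absurd ht (Finset.notMem_empty t)⟩
  | insert a T ha ih =>
    obtain ⟨D, hD, hq⟩ := ih fun t ht => hT t (Finset.mem_insert_of_mem ht)
    obtain ⟨r, s, hrs⟩ := (IntermediateField.mem_adjoin_simple_iff k a).1
      (hT a (Finset.mem_insert_self a T))
    have h1 : ∃ (E e : k[X]), E ≠ 0 ∧ a * aeval x E = aeval x e := by
      by_cases hs : s = 0
      · refine ⟨1, 0, one_ne_zero, ?_⟩
        rw [hrs, hs, map_zero, div_zero, zero_mul]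
      · refine ⟨s, r, hs, ?_⟩
        rw [hrs, div_mul_cancel₀ _ (hne s hs)]
    obtain ⟨E, e, hE, he⟩ := h1
    refine ⟨E * D, mul_ne_zero hE hD, fun t ht => ?_⟩
    rcases Finset.mem_insert.1 ht with rfl | ht
    · exact ⟨e * D, by rw [map_mul, map_mul, ← mul_assoc, he]⟩
    · obtain ⟨q, hq⟩ := hq t ht
      exact ⟨q * E, by rw [map_mul, map_mul, mul_comm (aeval x E), ← mul_assoc, hq]⟩

section lift

variable {Ω : Type u} [Field Ω] (P : ValuationSubring Ω)

/-- roots of monic polynomials with coefficients in a valuation ring -/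
theorem mem_of_root {q : P[X]} (hq : q.Monic) {w : Ω} (hw : (q.map (algebraMap P Ω)).eval w = 0) :
    w ∈ P := by
  have h1 : IsIntegral P w := ⟨q, hq, by rw [eval₂_eq_eval_map]; exact hw⟩
  obtain ⟨y, hy⟩ := IsIntegrallyClosed.isIntegral_iff.1 h1
  rw [← hy]
  exact y.2

theorem exists_lift (p : Polynomial Ω) (hp : ∀ n, p.coeff n ∈ P) :
    ∃ q : P[X], q.map (algebraMap P Ω) = p := by
  have h1 : p ∈ lifts (algebraMap P Ω) := (lifts_iff_coeff_lifts p).2 fun n => ⟨⟨_, hp n⟩, rfl⟩
  exact h1

theorem exists_lift_monic (p : Polynomial Ω) (hm : p.Monic) (hp : ∀ n, p.coeff n ∈ P) :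
    ∃ q : P[X], q.map (algebraMap P Ω) = p ∧ q.Monic := by
  have h1 : p ∈ lifts (algebraMap P Ω) := (lifts_iff_coeff_lifts p).2 fun n => ⟨⟨_, hp n⟩, rfl⟩
  obtain ⟨q, h2, -, h3⟩ := lifts_and_natDegree_eq_and_monic h1 hm
  exact ⟨q, h2, h3⟩

/-- a separable root does not move -/
theorem root_fixed {m b : P[X]} (z : P) (hz : m.eval z = 0)
    (hb : b.eval z * m.derivative.eval z = 1) (w : Ω)
    (hw : (m.map (algebraMap P Ω)).eval w = 0) (h : w - z ∈ P.nonunits) : w = z := by
  have hmem : w - z ∈ P := P.nonunits_subset h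
  set e : P := ⟨w - z, hmem⟩ with he
  have hwe : w = algebraMap P Ω (z + e) := by
    rw [map_add]
    change w = (z : Ω) + (w - z)
    ring
  have hwe0 : m.eval (z + e) = 0 := by
    rw [hwe, eval_map, eval₂_at_apply] at hw
    exact (map_eq_zero_iff _ (IsFractionRing.injective P Ω)).1 hw
  obtain ⟨r, hr⟩ := binomExpansion m z e
  rw [hwe0, hz, zero_add] at hr
  by_contra hne
  have he0 : e ≠ 0 := by
    intro h0
    apply hne
    have := congrArg Subtype.val h0
    exact sub_eq_zero.1 this
  have h2 : m.derivative.eval z = -(r * e) := by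
    have h3 : e * (m.derivative.eval z + r * e) = 0 := by
      rw [hr]; ring
    rcases mul_eq_zero.1 h3 with h4 | h4
    · exact absurd h4 he0
    · exact eq_neg_of_add_eq_zero_left h4
  have h5 : e * (-(b.eval z * r)) = 1 := by
    rw [h2] at hb
    rw [← hb]
    ring
  have h6 : IsUnit e := IsUnit.of_mul_eq_one _ h5
  have h7 : P.valuation (w - z) = 1 := (P.valuation_eq_one_iff e).1 h6
  rw [P.mem_nonunits_iff, h7] at h
  exact lt_irrefl _ h

end lift

theorem exists_goodPoly {k K₀ : Type u} [Field k] [CharZero k] [Field K₀] [Algebra k K₀]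
    (hK₀ : IsFunctionField k K₀) {g : K₀} (hg : g ≠ 0) :
    ∃ (x z₀ : K₀) (f : k[X]) (S : Finset k), Transcendental k x ∧
      IntermediateField.adjoin k {x, z₀} = ⊤ ∧ 1 ≤ f.natDegree ∧ f.Separable ∧
      GoodPoly g x z₀ f S := by
  classical
  obtain ⟨x, hx, hfin⟩ := hK₀
  have hA0 : CharZero (IntermediateField.adjoin k {x}) :=
    charZero_of_injective_algebraMap (algebraMap k (IntermediateField.adjoin k {x})).injective
  obtain ⟨z₀, hz₀⟩ := Field.exists_primitive_element (IntermediateField.adjoin k {x}) K₀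
  have hgen : IntermediateField.adjoin k {x, z₀} = ⊤ := by
    have h1 := IntermediateField.adjoin_adjoin_left k ({x} : Set K₀) ({z₀} : Set K₀)
    rw [hz₀, IntermediateField.restrictScalars_top] at h1
    rw [Set.insert_eq]
    exact h1.symm
  -- the polynomials
  set m : (IntermediateField.adjoin k {x})[X] := minpoly _ z₀ with hm
  have hmz : IsIntegral (IntermediateField.adjoin k {x}) z₀ := IsIntegral.of_finite _ z₀
  have hsep : m.Separable := Algebra.IsSeparable.isSeparable _ z₀
  obtain ⟨a, b, hab⟩ := hsep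
  set p₁ : (IntermediateField.adjoin k {x})[X] := minpoly _ g with hp₁
  set p₂ : (IntermediateField.adjoin k {x})[X] := minpoly _ g⁻¹ with hp₂
  have hg1 : IsIntegral (IntermediateField.adjoin k {x}) g := IsIntegral.of_finite _ g
  have hg2 : IsIntegral (IntermediateField.adjoin k {x}) g⁻¹ := IsIntegral.of_finite _ g⁻¹
  set cf : (IntermediateField.adjoin k {x})[X] → Finset K₀ := fun p =>
    p.support.image fun n => ((p.coeff n : IntermediateField.adjoin k {x}) : K₀) with hcf
  set T : Finset K₀ := cf m ∪ cf b ∪ cf p₁ ∪ cf p₂ with hT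
  have hTA : ∀ t ∈ T, t ∈ IntermediateField.adjoin k {x} := by
    intro t ht
    rw [hT] at ht
    simp only [Finset.mem_union, hcf, Finset.mem_image] at ht
    rcases ht with ((⟨n, -, rfl⟩ | ⟨n, -, rfl⟩) | ⟨n, -, rfl⟩) | ⟨n, -, rfl⟩ <;>
      exact SetLike.coe_mem _
  obtain ⟨D, hD, hq⟩ := exists_common_denominator hx T hTA
  choose! q hq using hq
  have hDX : D * X ≠ 0 := mul_ne_zero hD X_ne_zero
  set f : k[X] := UniqueFactorizationMonoid.radical (D * X) with hf
  obtain ⟨N, hN⟩ := UniqueFactorizationMonoid.exists_dvd_radical_self_pow hDX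
  obtain ⟨Q, hQ⟩ := (dvd_mul_right D X).trans hN
  have hXf : X ∣ f := (UniqueFactorizationMonoid.dvd_radical_iff_of_irreducible
    irreducible_X hDX).2 (dvd_mul_left X D)
  have hf0 : f ≠ 0 := UniqueFactorizationMonoid.radical_ne_zero
  have hfdeg : 1 ≤ f.natDegree := by
    have := natDegree_le_of_dvd hXf hf0
    rwa [natDegree_X] at this
  have hfsep : f.Separable := by
    rw [PerfectField.separable_iff_squarefree]
    exact UniqueFactorizationMonoid.squarefree_radical
  set S : Finset k := Q.support.image Q.coeff ∪ T.biUnion (fun t => (q t).support.image (q t).coeff)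
    with hS
  refine ⟨x, z₀, f, S, hx, hgen, hfdeg, hfsep, ?_⟩
  intro Ω _ _ P hSP hxP hfP
  set φ : K₀ →+* Ω := algebraMap K₀ Ω with hφ
  -- polynomials with coefficients in S have values in P
  have hval : ∀ r : k[X], (∀ n ∈ r.support, r.coeff n ∈ S) → φ (aeval x r) ∈ P := by
    intro r hr
    rw [aeval_eq_sum_range, map_sum]
    refine P.toSubring.sum_mem fun n hn => ?_
    rw [Algebra.smul_def, map_mul, map_pow]
    refine P.toSubring.mul_mem ?_ (P.toSubring.pow_mem hxP n)
    by_cases h0 : r.coeff n = 0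
    · rw [h0, map_zero, map_zero]
      exact P.toSubring.zero_mem
    · exact hSP _ (hr n (mem_support_iff.2 h0))
  have hfinv : (φ (aeval x f))⁻¹ ∈ P := by
    rw [P.mem_nonunits_iff, not_lt] at hfP
    rw [← P.valuation_le_one_iff, map_inv₀]
    exact inv_le_one_of_one_le₀ hfP
  have hfne : φ (aeval x f) ≠ 0 := by
    intro h0
    apply hfP
    rw [h0, P.mem_nonunits_iff, map_zero]
    exact zero_lt_one
  have hDinv : (φ (aeval x D))⁻¹ ∈ P := by
    have h1 : φ (aeval x D) * φ (aeval x Q) = φ (aeval x f) ^ N := by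
      rw [← map_mul, ← map_mul, ← map_pow, ← map_pow, hQ]
    have h2 : φ (aeval x Q) ∈ P := hval Q fun n hn => by
      rw [hS]
      exact Finset.mem_union_left _ (Finset.mem_image_of_mem _ hn)
    have h3 : φ (aeval x D) * (φ (aeval x Q) * (φ (aeval x f))⁻¹ ^ N) = 1 := by
      rw [← mul_assoc, h1, ← mul_pow, mul_inv_cancel₀ hfne, one_pow]
    rw [inv_eq_of_mul_eq_one_right h3]
    exact P.toSubring.mul_mem h2 (P.toSubring.pow_mem hfinv N)
  have hDne : φ (aeval x D) ≠ 0 := by
    intro h0
    have h1 : aeval x D = 0 := (map_eq_zero φ).1 h0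
    exact hD ((transcendental_iff.1 hx) D h1)
  have hTP : ∀ t ∈ T, φ t ∈ P := by
    intro t ht
    have h1 : φ t * φ (aeval x D) = φ (aeval x (q t)) := by rw [← map_mul, hq t ht]
    have h2 : φ (aeval x (q t)) ∈ P := hval _ fun n hn => by
      rw [hS]
      exact Finset.mem_union_right _ (Finset.mem_biUnion.2 ⟨t, ht, Finset.mem_image_of_mem _ hn⟩)
    have h3 : φ t = φ (aeval x (q t)) * (φ (aeval x D))⁻¹ := by
      rw [← h1, mul_assoc, mul_inv_cancel₀ hDne, mul_one]
    rw [h3]
    exact P.toSubring.mul_mem h2 hDinv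
  set i : (IntermediateField.adjoin k {x}) →+* Ω :=
    φ.comp (algebraMap (IntermediateField.adjoin k {x}) K₀) with hi
  have hcoef : ∀ p : (IntermediateField.adjoin k {x})[X], cf p ⊆ T → ∀ n, (p.map i).coeff n ∈ P := by
    intro p hp n
    rw [coeff_map]
    by_cases h0 : p.coeff n = 0
    · rw [h0, map_zero]
      exact P.toSubring.zero_mem
    · exact hTP _ (hp (Finset.mem_image.2 ⟨n, mem_support_iff.2 h0, rfl⟩))
  have hcm : cf m ⊆ T := fun t ht => by
    rw [hT]; simp only [Finset.mem_union]; exact Or.inl (Or.inl (Or.inl ht))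
  have hcb : cf b ⊆ T := fun t ht => by
    rw [hT]; simp only [Finset.mem_union]; exact Or.inl (Or.inl (Or.inr ht))
  have hc1 : cf p₁ ⊆ T := fun t ht => by
    rw [hT]; simp only [Finset.mem_union]; exact Or.inl (Or.inr ht)
  have hc2 : cf p₂ ⊆ T := fun t ht => by
    rw [hT]; simp only [Finset.mem_union]; exact Or.inr ht
  have heval : ∀ (p : (IntermediateField.adjoin k {x})[X]) (c : K₀),
      (p.map i).eval (φ c) = φ (aeval c p) := by
    intro p c
    rw [hi, ← map_map, eval_map, eval₂_at_apply, eval_map, aeval_def]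
  have hroot : ∀ (c : K₀), IsIntegral (IntermediateField.adjoin k {x}) c →
      cf (minpoly (IntermediateField.adjoin k {x}) c) ⊆ T → φ c ∈ P := by
    intro c hc hcT
    obtain ⟨r, hr1, hr2⟩ := exists_lift_monic P ((minpoly (IntermediateField.adjoin k {x}) c).map i)
      ((minpoly.monic hc).map i) (hcoef _ hcT)
    apply mem_of_root P hr2
    rw [hr1, heval, minpoly.aeval, map_zero]
  have hzP : φ z₀ ∈ P := hroot z₀ hmz hcm
  have hgP : φ g ∈ P := hroot g hg1 hc1
  have hgiP : φ g⁻¹ ∈ P := hroot g⁻¹ hg2 hc2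
  refine ⟨hgP, ?_, hzP, ?_⟩
  · intro hnon
    rw [P.mem_nonunits_iff] at hnon
    rw [map_inv₀, ← P.valuation_le_one_iff, map_inv₀] at hgiP
    have h1 : P.valuation (φ g) ≠ 0 := by
      rw [Ne, map_eq_zero, map_eq_zero]
      exact hg
    have h2 : 1 ≤ P.valuation (φ g) := by
      have := (inv_le_one₀ (zero_lt_iff.2 h1)).1 hgiP
      exact this
    exact absurd hnon (not_lt.2 h2)
  · intro σ hσk hσx hσz
    have hσr : ∀ r : k[X], σ (φ (aeval x r)) = φ (aeval x r) := by
      intro r
      rw [aeval_eq_sum_range, map_sum, map_sum]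
      refine Finset.sum_congr rfl fun n _ => ?_
      rw [Algebra.smul_def, map_mul, map_pow, map_mul, map_pow, hσk, hσx]
    have hσA : ∀ c : (IntermediateField.adjoin k {x}), σ (i c) = i c := by
      intro c
      obtain ⟨r, s, hrs⟩ := (IntermediateField.mem_adjoin_simple_iff k (c : K₀)).1 c.2
      change σ (φ (c : K₀)) = φ (c : K₀)
      rw [hrs, map_div₀, map_div₀, hσr, hσr]
    obtain ⟨mP, hmP1, hmP2⟩ := exists_lift_monic P (m.map i) ((minpoly.monic hmz).map i)
      (hcoef m hcm)
    obtain ⟨bP, hbP⟩ := exists_lift P (b.map i) (hcoef b hcb)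
    have hinj := IsFractionRing.injective P Ω
    have hup : ∀ (r : P[X]), algebraMap P Ω (r.eval ⟨φ z₀, hzP⟩) =
        (r.map (algebraMap P Ω)).eval (φ z₀) := by
      intro r
      rw [eval_map]
      exact (eval₂_at_apply (algebraMap P Ω) (⟨φ z₀, hzP⟩ : P)).symm
    have hmz0 : mP.eval ⟨φ z₀, hzP⟩ = 0 := by
      apply hinj
      rw [hup, hmP1, heval, minpoly.aeval, map_zero, map_zero]
    have hbm : bP.eval ⟨φ z₀, hzP⟩ * mP.derivative.eval ⟨φ z₀, hzP⟩ = 1 := by
      apply hinj
      rw [map_mul, hup, hup, ← derivative_map, hmP1, hbP, derivative_map, heval, heval, ← map_mul,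
        map_one]
      have h1 := congrArg (aeval z₀) hab
      rw [map_add, map_mul, map_mul, map_one, minpoly.aeval, mul_zero, zero_add] at h1
      rw [h1, map_one]
    refine root_fixed P (m := mP) (b := bP) ⟨φ z₀, hzP⟩ hmz0 hbm (σ (φ z₀)) ?_ hσz
    rw [hmP1]
    have h1 : (m.map i).map σ = m.map i := by
      ext n
      rw [coeff_map, coeff_map, hσA]
    have h2 : (m.map i).eval (φ z₀) = 0 := by rw [heval, minpoly.aeval, map_zero]
    rw [← h1, eval_map, eval₂_at_apply, h2, map_zero]

end Pool.Agent.GC
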