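import Pool.Agent.Helper13.GC.D1
import Pool.Agent.Helper13.LG.Step

/-!
# From good coordinates to good twists
-/

universe u

set_option linter.unusedSectionVars false

namespace Pool.Agent.GC

open VC Polynomial Pool.Agent.LT Pool.Agent.SC Pool.Agent.Helper91.Sect Pool.Agent

/-- The twists by the powers of `v` of the cyclic covers `yⁿ = g` satisfy the section conjecture:
for all `n ≥ 1` and every `j` not divisible by `n`, every section of the curve `v ^ j yⁿ = g` over `k` (if it is not
rational over `kbar`) is geometric. -/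
def GoodTwist {k K₀ : Type u} [Field k] [Field K₀] [Algebra k K₀] (g : K₀) (v : k) : Prop :=
  ∀ n j : ℕ, 0 < n → ¬ n ∣ j → ∀ (K : Type u) [Field K] [Algebra k K] [Algebra K₀ K] [IsScalarTower k K₀ K]
    (y : K), IntermediateField.adjoin K₀ {y} = ⊤ →
    algebraMap k K (v ^ j) * y ^ n = algebraMap K₀ K g →
    (∀ z : MM k K, IntermediateField.adjoin (kbar k K) {z} ≠ ⊤) →
    ∀ s : GaloisSection k K, IsGeometric s

/-- The data of good coordinates on the curve `K₀` for the function `g`. -/
structure Coord {k K₀ : Type u} [Field k] [Field K₀] [Algebra k K₀] (g x z₀ : K₀) (f : k[X])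
    (S : Finset k) : Prop where
  g_ne : g ≠ 0
  ff : IsFunctionField k K₀
  x_tr : Transcendental k x
  gen₀ : IntermediateField.adjoin k {x, z₀} = ⊤
  deg : 1 ≤ f.natDegree
  sep : f.Separable
  good : GoodPoly g x z₀ f S

/-- From good coordinates to good twists. -/
theorem goodTwist_of_coord {F k K₀ : Type u} [Field F] [CharZero F] [Field k] [Algebra F k]
    [DecidableEq k] [Field K₀] [Algebra k K₀]
    (hF : ∃ S : Finset F, Subfield.closure (S : Set F) = ⊤)
    (hk : ∃ S : Finset k, Subfield.closure (S : Set k) = ⊤)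
    {t u : k} (htu : AlgebraicIndependent F ![t, u]) (hfin : FiniteDimensional (k0 F t u) k)
    {g x z₀ : K₀} {f : k[X]} {S : Finset k}
    (hc : Coord g x z₀ f S)
    {D : F[X][X]} {a b : F} {Δ : F[X][X]} {N : ℕ} (hΔ : GoodDisc Δ)
    (hdvd : shear a b D ∣ Δ ^ N)
    (hreg : ∀ z : k, IsAlgebraic (IntermediateField.adjoin F {t - algebraMap F k a * u}) z →
      z ∈ IntermediateField.adjoin F {t - algebraMap F k a * u})
    (hD : ∀ (K : Type u) [Field K] [Algebra k K] (W : ValuationSubring (kbar k K)),
      (∀ c : F, algebraMap k (kbar k K) (algebraMap F k c) ∈ W) →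
      algebraMap k (kbar k K) t ∈ W → algebraMap k (kbar k K) u ∈ W →
      algebraMap k (kbar k K) (ev F t u D) ∉ W.nonunits →
      (∀ a ∈ goodElts f 1 ∪ S, algebraMap k (kbar k K) a ∈ W) ∧
        ∀ τ : kbar k K ≃+* kbar k K,
          (∀ r ∈ k0 F t u, τ (algebraMap k (kbar k K) r) = algebraMap k (kbar k K) r) →
          (∀ z, τ z ∈ W ↔ z ∈ W) → (∀ z ∈ W, τ z - z ∈ W.nonunits) →
          ∀ a : k, τ (algebraMap k (kbar k K) a) = algebraMap k (kbar k K) a) :
    GoodTwist g (t - algebraMap F k a * u - algebraMap F k b) := by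
  intro n j hn hj K _ _ _ _ y hgen heq hrat s
  obtain ⟨q, hq⟩ := hdvd
  set t' := t - algebraMap F k a * u - algebraMap F k b with ht'
  have htu' : AlgebraicIndependent F ![t', u] := algInd_affine htu a b
  have ht0' : t' ≠ 0 := by
    intro h0
    rw [h0] at htu'
    exact transc_F_t htu' isAlgebraic_zero
  have hk0 : k0 F t' u = k0 F t u := k0_affine a b
  have hfin' : FiniteDimensional (k0 F t' u) k := by rw [hk0]; exact hfin
  let iFK : Algebra F K := ((algebraMap k K).comp (algebraMap F k)).toAlgebra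
  have sFK : IsScalarTower F k K := IsScalarTower.of_algebraMap_eq fun _ => rfl
  have hgal := isGalois0 (K := K) hfin'
  have hS : CycE n (t' ^ j) g x z₀ f S y :=
    ⟨hn, pow_ne_zero _ ht0', hc.g_ne, hc.ff, hc.x_tr, hc.gen₀, hgen, heq, hc.deg, hc.sep,
      hc.good⟩
  refine isGeometric_core hF hk htu' hfin' hj hS hrat hΔ ?_ ?_ s
  · intro W hFW htW huW hunit
    have htW' : algebraMap k (kbar k K) t ∈ W := by
      have h1 : t = t' + algebraMap F k a * u + algebraMap F k b := by rw [ht']; ring
      rw [h1, map_add, map_add, map_mul]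
      exact W.add_mem _ _ (W.add_mem _ _ htW (W.mul_mem _ _ (hFW a) huW)) (hFW b)
    have hunit' : algebraMap k (kbar k K) (ev F t u D) ∉ W.nonunits := by
      rw [← ev_shear t u a b D]
      have h2 : algebraMap k (kbar k K) (ev F t' u (shear a b D * q)) ∉ W.nonunits := by
        rw [← hq, map_pow, map_pow]
        exact pow_notMem_nonunits hunit N
      rw [map_mul, map_mul] at h2
      exact (notMem_nonunits_of_mul (ev_mem hFW htW huW _) (ev_mem hFW htW huW _) h2).1
    obtain ⟨h4, h5⟩ := hD K W hFW htW' huW hunit'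
    refine ⟨h4, fun τ hτ => h5 τ.toRingEquiv (fun r hr => ?_) hτ.1 hτ.2⟩
    have h6 : r ∈ k0 F t' u := by rw [hk0]; exact hr
    exact τ.commutes ⟨r, h6⟩
  · intro τ
    refine exists_agree (t0 F t' u) (kM F K t' u) ?_ τ
    rintro z ⟨r, rfl⟩ hz
    have h1 : IsAlgebraic (IntermediateField.adjoin F {t'}) r := by
      have h2 : IsAlgebraic (IntermediateField.adjoin F {t'}) (algebraMap k (kbar k K) r) := by
        refine isAlgebraic_of_range_le (A := IntermediateField.adjoin F {t0 F t' u}) (fun v => ?_) hz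
        exact ⟨⟨_, coe_mem_adjoin0 (F := F) (t := t') (u := u) (v := t') (v' := t0 F t' u) rfl v.2⟩,
          rfl⟩
      exact (isAlgebraic_algebraMap_iff (algebraMap k (kbar k K)).injective).1 h2
    have h3 : r ∈ IntermediateField.adjoin F {t'} := by
      have h4 := hreg r
      rw [← adjoin_affine (v := t - algebraMap F k a * u) b] at h4
      exact h4 h1
    obtain ⟨c', hc', hc''⟩ := mem_adjoin0 (F := F) (t := t') (u := u) (v := t')
      (v' := t0 F t' u) rfl h3
    refine ⟨c', hc'', ?_⟩
    rw [← hc']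
    rfl

end Pool.Agent.GC
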