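import Pool.Agent.Helper13.GC.C7

/-!
# Block GC-C8: inertia is trivial on the residue field of `MM` if `c` is a unit

Adapt the proof of `SuperE.inert_trivial` (LT/F4).  Let `hu : CSetup ..` be as in the header of C7, `R = V/𝔪_V`
with its structure of an `E`-algebra; `a τ = actU s τ` preserves `V` (`CSetup.stable`, Y0) and induces
`ρ : R ≃ₐ[E] R`, which is trivial on `resField hV hR (LL ..)` by `CycE.inert_trivial_LL` (C7).  By
`CSetup.exists_induces_over` (Y1) with `N = LL`: `g' : U ≃ₐ[kbar] U` trivial on `LL` with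
`a τ v - g' v ∈ V.nonunits` for `v ∈ V`.  `y` is a unit of `V` (`CycE.eqU`, C5; `CycE.val_g`, C7; `c` is a unit).
`g' y = ζ y`, `ζⁿ = 1` (`CycE.exists_zeta`, C5), and `y - ζ y = a τ y - g' y ∈ V.nonunits`, so
`ζ = 1` (`root_unit67` in LT/F4: `ζ - 1` is a unit of `W` if it is not zero).  So `g'` is trivial on `MM`
(`CycE.MM_eq`, C5), and `a τ z - z = a τ z - g' z ∈ V.nonunits` for `z ∈ V ∩ MM`.
-/

universe u

set_option linter.unusedSectionVars false

namespace Pool.Agent.GC

open VC Polynomial Pool.Agent.LT Pool.Agent.SC Pool.Agent.Helper91.Sect Pool.Agent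

variable {k₁ k K₀ K : Type u} [Field k₁] [CharZero k₁] [Field k] [Field K₀] [Field K]
  [Algebra k₁ k] [Algebra k K₀] [Algebra k K] [Algebra K₀ K] [IsScalarTower k K₀ K]
  [Algebra k₁ K] [IsScalarTower k₁ k K]
  {n : ℕ} {c : k} {g x z₀ : K₀} {f : k[X]} {S : Finset k} {y : K}

section aux6

private lemma c8_val_eq_one6 {V : ValuationSubring (UU k K)} {W : ValuationSubring (kbar k K)} {x : K}
    (hV : Gauss (algebraicClosure k₁ (kbar k K)) W (toU (k := k) (K := K) x) V) {a : kbar k K} (ha : W.valuation a = 1) :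
    V.valuation (algebraMap (kbar k K) (UU k K) a) = 1 := by
  have h1 := A1.val_congr hV (c := a) (d := 1) (by rw [ha, map_one])
  rw [h1, map_one, map_one]

private lemma c8_val_unit6 {W : ValuationSubring (kbar k K)} {a : kbar k K} (h1 : a ∈ W)
    (h2 : a ∉ W.nonunits) : W.valuation a = 1 := by
  rw [ValuationSubring.mem_nonunits_iff] at h2
  exact le_antisymm ((W.valuation_le_one_iff _).2 h1) (not_lt.1 h2)

private lemma c8_pow_eq_one6 {F : Type u} [Field F] (V : ValuationSubring F) {a : F} {m : ℕ}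
    (hm : m ≠ 0) (h : V.valuation a ^ m = 1) : V.valuation a = 1 :=
  (pow_eq_one_iff_of_nonneg zero_le hm).1 h

private lemma c8_root_E6 {ζ : kbar k K} {m : ℕ} (hm : m ≠ 0) (h : ζ ^ m = 1) :
    ∃ e : (algebraicClosure k₁ (kbar k K)), algebraMap (algebraicClosure k₁ (kbar k K)) (kbar k K) e = ζ := by
  have h1 : IsIntegral k₁ ζ := IsIntegral.of_pow (Nat.pos_of_ne_zero hm) (by
    rw [h]
    exact isIntegral_one)
  exact ⟨⟨ζ, mem_algebraicClosure_iff.2 h1.isAlgebraic⟩, rfl⟩

private lemma c8_root_unit6 {W : ValuationSubring (kbar k K)} {t' : kbar k K}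
    (hb : Base (algebraicClosure k₁ (kbar k K)) W t') {ζ : kbar k K} {m : ℕ} (hm : m ≠ 0) (h : ζ ^ m = 1) (h1 : ζ ≠ 1) :
    W.valuation (ζ - 1) = 1 := by
  obtain ⟨e, rfl⟩ := c8_root_E6 (k₁ := k₁) hm h
  have h2 : e - 1 ≠ 0 := by
    intro h0
    apply h1
    rw [sub_eq_zero.1 h0, map_one]
  have h3 := A1.val_const hb h2
  rwa [map_sub, map_one] at h3

private lemma c8_nonunits6 {U : Type u} [Field U] {V : ValuationSubring U} {g : U ≃+* U}
    (hst : ∀ z, g z ∈ V ↔ z ∈ V) (z : U) : g z ∈ V.nonunits ↔ z ∈ V.nonunits := by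
  rw [ValuationSubring.mem_nonunits_iff_or, ValuationSubring.mem_nonunits_iff_or, ← map_inv₀, hst,
    map_eq_zero_iff g g.injective]

private lemma c8_ind_hom6 {E U R : Type u} [Field E] [Field U] [Algebra E U] [Field R]
    [Algebra E R] {V : ValuationSubring U} {π : V →+* R} (hR : Res E V π) (g : U ≃+* U)
    (hst : ∀ z, g z ∈ V ↔ z ∈ V) :
    ∃ ρ : R →+* R, ∀ z w : V, (w : U) = g (z : U) → ρ (π z) = π w := by
  let f : V →+* V :=
    { toFun := fun z => ⟨g (z : U), (hst z).2 z.2⟩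
      map_one' := Subtype.ext (map_one g)
      map_mul' := fun a b => Subtype.ext (map_mul g (a : U) b)
      map_zero' := Subtype.ext (map_zero g)
      map_add' := fun a b => Subtype.ext (map_add g (a : U) b) }
  have hker : RingHom.ker π ≤ RingHom.ker (π.comp f) := by
    intro z hz
    rw [RingHom.mem_ker] at hz ⊢
    rw [RingHom.comp_apply, hR.ker]
    exact (c8_nonunits6 hst z).2 ((hR.ker z).1 hz)
  refine ⟨π.liftOfSurjective hR.surj ⟨π.comp f, hker⟩, fun z w hw => ?_⟩
  rw [RingHom.liftOfSurjective_comp_apply]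
  show π (f z) = π w
  congr 1
  exact Subtype.ext hw.symm

private lemma c8_ind6 {E U R : Type u} [Field E] [Field U] [Algebra E U] [Field R]
    [Algebra E R] {V : ValuationSubring U} {π : V →+* R} (hR : Res E V π) (g : U ≃+* U)
    (hst : ∀ z, g z ∈ V ↔ z ∈ V) (hE : ∀ e : E, algebraMap E U e ∈ V)
    (hEg : ∀ e : E, g (algebraMap E U e) - algebraMap E U e ∈ V.nonunits) :
    ∃ ρ : R ≃ₐ[E] R, Induces π g ρ := by
  have hst' : ∀ z, g.symm z ∈ V ↔ z ∈ V := by
    intro z
    rw [← hst, g.apply_symm_apply]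
  obtain ⟨ρ1, h1⟩ := c8_ind_hom6 hR g hst
  obtain ⟨ρ2, h2⟩ := c8_ind_hom6 hR g.symm hst'
  have e1 : ρ2.comp ρ1 = RingHom.id R := by
    ext r
    obtain ⟨z, rfl⟩ := hR.surj r
    rw [RingHom.comp_apply, h1 z ⟨g z, (hst z).2 z.2⟩ rfl, h2 _ z (g.symm_apply_apply (z : U)).symm]
    rfl
  have e2 : ρ1.comp ρ2 = RingHom.id R := by
    ext r
    obtain ⟨z, rfl⟩ := hR.surj r
    rw [RingHom.comp_apply, h2 z ⟨g.symm z, (hst' z).2 z.2⟩ rfl,
      h1 _ z (g.apply_symm_apply (z : U)).symm]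
    rfl
  let ρ : R ≃+* R := RingEquiv.ofRingHom ρ1 ρ2 e2 e1
  refine ⟨AlgEquiv.ofRingEquiv (f := ρ) ?_, ?_⟩
  · intro e
    have hgE : g (algebraMap E U e) ∈ V := (hst _).2 (hE e)
    have h3 : ρ (π ⟨_, hE e⟩) = π ⟨_, hgE⟩ := h1 _ _ rfl
    have h4 : π ⟨_, hgE⟩ - π ⟨_, hE e⟩ = 0 := by
      rw [← map_sub]
      exact (hR.ker _).2 (hEg e)
    rw [← hR.const e ⟨_, hE e⟩ rfl, h3]
    exact sub_eq_zero.1 h4
  · intro z w hw
    exact h1 z w hw

/-- an automorphism fixing `LL` and `y` fixes `MM` -/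
private lemma CycE.fix6 (h : CycE n c g x z₀ f S y) (hk0 : CharZero k)
    (σ : UU k K ≃ₐ[kbar k K] UU k K)
    (hσL : ∀ l ∈ LL k K₀ K, σ l = l) (hσy : σ (toU (k := k) (K := K) y) = toU (k := k) (K := K) y) : ∀ z ∈ MM k K, σ z = z := by
  let F : IntermediateField (kbar k K) (UU k K) :=
    { carrier := {z | σ z = z}
      mul_mem' := fun {a b} ha hb => by
        show σ (a * b) = a * b
        rw [map_mul, ha, hb]
      add_mem' := fun {a b} ha hb => by
        show σ (a + b) = a + b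
        rw [map_add, ha, hb]
      algebraMap_mem' := fun a => σ.commutes a
      inv_mem' := fun a ha => by
        show σ a⁻¹ = a⁻¹
        rw [map_inv₀, ha] }
  have h1 : MM k K ≤ F := by
    rw [h.MM_eq, IntermediateField.adjoin_le_iff]
    rintro z (hz | hz)
    · exact hσL z hz
    · rw [Set.mem_singleton_iff.1 hz]
      exact hσy
  exact fun z hz => h1 hz

end aux6

/-- If `c` is a unit then inertia acts trivially on the residue field of `MM`. -/
theorem CycE.inert_trivial (h : CycE n c g x z₀ f S y) (s : GaloisSection k K)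
    {W : ValuationSubring (kbar k K)} {t' : kbar k K}
    (hb : Base (algebraicClosure k₁ (kbar k K)) W t') (hf : GoodRed W f)
    (hS : ∀ c ∈ S, algebraMap k (kbar k K) c ∈ W)
    (hc : algebraMap k (kbar k K) c ∈ W) (hc1 : algebraMap k (kbar k K) c ∉ W.nonunits)
    {V : ValuationSubring (UU k K)}
    (hV : Gauss (algebraicClosure k₁ (kbar k K)) W (toU (k := k) (K := K) (algebraMap K₀ K x)) V) {τ : Gk k K}
    (hτ : InInert W τ) {z : UU k K} (hz : z ∈ V) (hzM : z ∈ MM k K) :
    actU s τ z - z ∈ V.nonunits := by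
  have hac : IsAlgClosed (algebraicClosure k₁ (kbar k K)) :=
    (inferInstance : IsAlgClosure k₁ (algebraicClosure k₁ (kbar k K))).isAlgClosed
  have hk0 : CharZero k := charZero_of_injective_algebraMap (algebraMap k₁ k).injective
  have hn0 : n ≠ 0 := h.n_pos.ne'
  let iUX : Algebra (UU k K) (XX (algebraMap K₀ K x) (rootsB K f)) := algUX h.UU_le
  have s1 : IsScalarTower (kbar k K) (UU k K) (XX (algebraMap K₀ K x) (rootsB K f)) :=
    IsScalarTower.of_algebraMap_eq fun _ => rfl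
  have s2 : IsScalarTower (algebraicClosure k₁ (kbar k K)) (UU k K)
      (XX (algebraMap K₀ K x) (rootsB K f)) := IsScalarTower.of_algebraMap_eq fun _ => rfl
  have hu : CSetup (algebraicClosure k₁ (kbar k K)) (XX (algebraMap K₀ K x) (rootsB K f)) W t'
    (rootsB K f) (toU (k := k) (K := K) (algebraMap K₀ K x)) (LL k K₀ K) (MM k K) := h.csetup hb hf hk0
  have hE : ∀ e : algebraicClosure k₁ (kbar k K),
      algebraMap (algebraicClosure k₁ (kbar k K)) (UU k K) e ∈ V := by
    intro e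
    have h1 : algebraMap (algebraicClosure k₁ (kbar k K)) (UU k K) e =
      algebraMap (kbar k K) (UU k K) (algebraMap _ (kbar k K) e) := rfl
    rw [h1, hV.mem_iff]
    exact hb.const e
  -- the residue field
  let iota : algebraicClosure k₁ (kbar k K) →+* V :=
    (algebraMap (algebraicClosure k₁ (kbar k K)) (UU k K)).codRestrict V.toSubring hE
  let iA : Algebra (algebraicClosure k₁ (kbar k K)) (IsLocalRing.ResidueField V) :=
    ((IsLocalRing.residue V).comp iota).toAlgebra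
  have hR : Res (algebraicClosure k₁ (kbar k K)) V (IsLocalRing.residue V) := by
    refine ⟨IsLocalRing.residue_surjective, fun w => ?_, fun e w hw => ?_⟩
    · rw [IsLocalRing.residue_eq_zero_iff, ValuationSubring.coe_mem_nonunits_iff]
    · have h1 : w = iota e := Subtype.ext hw
      rw [h1]
      rfl
  have hst : ∀ w, actU s τ w ∈ V ↔ w ∈ V := fun w =>
    hu.stable hV (actU s τ) (phi k K τ) (actU_const s τ) (fun a => hτ.1 a) (actU_toU s τ _) w
  obtain ⟨ρ, hρ⟩ := c8_ind6 hR (actU s τ) hst hE (by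
    intro e
    have h1 : algebraMap (algebraicClosure k₁ (kbar k K)) (UU k K) e =
      algebraMap (kbar k K) (UU k K) (algebraMap _ (kbar k K) e) := rfl
    rw [h1, actU_const, ← map_sub, ValuationSubring.mem_nonunits_iff, A1.val_lt_one_iff hV,
      ← ValuationSubring.mem_nonunits_iff]
    exact hτ.2 _ (hb.const e))
  have hρL : ∀ r ∈ resField hV hR (LL k K₀ K), ρ r = r := by
    rintro r ⟨w, hwL, rfl⟩
    have h1 := hρ w ⟨actU s τ w, (hst _).2 w.2⟩ rfl
    rw [h1, ← sub_eq_zero, ← map_sub]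
    exact (hR.ker _).2 (h.inert_trivial_LL s hb hf hS hV hτ w.2 hwL)
  obtain ⟨σ, hσL, hσ⟩ := hu.exists_induces_over hV hR (LL k K₀ K) le_rfl ρ hρL
  -- `y` is a unit
  have hcv : V.valuation (algebraMap (kbar k K) (UU k K) (algebraMap k (kbar k K) c)) = 1 :=
    c8_val_eq_one6 hV (c8_val_unit6 hc hc1)
  have hyn : V.valuation (toU (k := k) (K := K) y) ^ n = 1 := by
    have h1 := h.val_g hb hf hS hV
    rw [← h.eqU, map_mul, map_pow, hcv, one_mul] at h1
    exact h1
  have hyv : V.valuation (toU (k := k) (K := K) y) = 1 := c8_pow_eq_one6 V hn0 hyn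
  have hyV : toU (k := k) (K := K) y ∈ V := (V.valuation_le_one_iff _).1 hyv.le
  obtain ⟨ζ, hζn, hσy⟩ := h.exists_zeta σ hσL
  have hσx : σ (toU (k := k) (K := K) (algebraMap K₀ K x)) = toU (k := k) (K := K) (algebraMap K₀ K x) := hσL _ (toU_mem_LL x)
  have hσst : ∀ w, w ∈ V → σ w ∈ V := fun w hw =>
    (hu.stable hV (σ : UU k K ≃+* UU k K) (RingEquiv.refl _) (fun a => σ.commutes a)
      (fun _ => Iff.rfl) hσx w).2 hw
  have hcmp : ∀ w (hw : w ∈ V), actU s τ w - σ w ∈ V.nonunits := by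
    intro w hw
    have h1 := hρ ⟨w, hw⟩ ⟨actU s τ w, (hst w).2 hw⟩ rfl
    have h2 := hσ ⟨w, hw⟩ ⟨σ w, hσst w hw⟩ rfl
    have h3 : IsLocalRing.residue V (⟨actU s τ w, (hst w).2 hw⟩ - ⟨σ w, hσst w hw⟩) = 0 := by
      rw [map_sub, ← h1, ← h2, sub_self]
    exact (hR.ker _).1 h3
  have hζ1 : ζ = 1 := by
    by_contra hne
    have h1 := hcmp _ hyV
    rw [actU_toU, hσy, ValuationSubring.mem_nonunits_iff] at h1
    have h2 : toU (k := k) (K := K) y - algebraMap (kbar k K) (UU k K) ζ * toU (k := k) (K := K) y =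
        -(algebraMap (kbar k K) (UU k K) (ζ - 1) * toU (k := k) (K := K) y) := by
      rw [map_sub, map_one]
      ring
    rw [h2, Valuation.map_neg, map_mul, hyv, mul_one,
      c8_val_eq_one6 hV (c8_root_unit6 hb hn0 hζn hne)] at h1
    exact lt_irrefl _ h1
  have hσy1 : σ (toU (k := k) (K := K) y) = toU (k := k) (K := K) y := by
    rw [hσy, hζ1, map_one, one_mul]
  have h1 := hcmp z hz
  rwa [h.fix6 hk0 σ hσL hσy1 z hzM] at h1

end Pool.Agent.GC
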