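import Pool.Agent.Helper13.GC.C6
import Pool.Agent.SC.Final

/-!
# The uniqueness of the fixed place
-/

universe u

set_option linter.unusedSectionVars false

namespace Pool.Agent.GC

open VC Polynomial Pool.Agent.LT Pool.Agent.SC Pool.Agent.Helper91.Sect Pool.Agent

variable {k K₀ K : Type u} [Field k] [CharZero k] [Field K₀] [Field K] [Algebra k K₀]
  [Algebra k K] [Algebra K₀ K] [IsScalarTower k K₀ K]
  {n : ℕ} {c : k} {g x z₀ : K₀} {f : k[X]} {S : Finset k} {y : K}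

theorem CycE.fixed_unique (h : CycE n c g x z₀ f S y)
    (hk : ∃ S : Finset k, Subfield.closure (S : Set k) = ⊤)
    (hrat : ∀ z : MM k K, IntermediateField.adjoin (kbar k K) {z} ≠ ⊤)
    (σ : UU k K ≃ₐ[kbar k K] UU k K) (hσ : ∀ l ∈ LL k K₀ K, σ l = l) (hℓ : (orderOf σ).Prime)
    (hne : ∃ m ∈ MM k K, σ m ≠ m)
    {P P' : ValuationSubring (UU k K)}
    (hP : ∀ c : kbar k K, algebraMap (kbar k K) (UU k K) c ∈ P) (hP1 : P ≠ ⊤)
    (hPσ : ∀ z, σ z ∈ P ↔ z ∈ P)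
    (hP' : ∀ c : kbar k K, algebraMap (kbar k K) (UU k K) c ∈ P') (hP1' : P' ≠ ⊤)
    (hPσ' : ∀ z, σ z ∈ P' ↔ z ∈ P') : P = P' := by
  have hcl : IsAlgClosure k (kbar k K) := inferInstance
  have hσs : ∀ l ∈ LL k K₀ K, σ.symm l = l := fun l hl => by
    rw [AlgEquiv.symm_apply_eq, hσ l hl]
  refine uniqueFixed (F := k) hk (MM k K) (isCover_UU h.isFunctionField) hrat σ hℓ
    (fun z => ⟨h.stabM σ hσ z, fun hz => ?_⟩) hne P P' hP hP1 hPσ hP' hP1' hPσ'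
  have h1 := h.stabM σ.symm hσs _ hz
  rwa [AlgEquiv.symm_apply_apply] at h1

end Pool.Agent.GC
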