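import Pool.Agent.Helper13.GC.C8
import Pool.Agent.Helper13.GC.C9
import Pool.Agent.Helper13.GC.C10
import Pool.Agent.Helper13.LG.G3b

/-!
# Good places and the bad place, for cyclic covers
-/

universe u

set_option linter.unusedSectionVars false

namespace Pool.Agent.GC

open VC Polynomial Pool.Agent.LT Pool.Agent.SC Pool.Agent.Helper91.Sect Pool.Agent

variable {k₁ k K₀ K : Type u} [Field k₁] [CharZero k₁] [Field k] [Field K₀] [Field K]
  [Algebra k₁ k] [Algebra k K₀] [Algebra k K] [Algebra K₀ K] [IsScalarTower k K₀ K]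
  [Algebra k₁ K] [IsScalarTower k₁ k K]
  {n : ℕ} {c : k} {g x z₀ : K₀} {f : k[X]} {S : Finset k} {y : K}

/-- At a good place inertia fixes the places above the branch points. -/
theorem CycE.fixes_of_good (h : CycE n c g x z₀ f S y) (s : GaloisSection k K)
    (hF : ∃ S : Finset k₁, Subfield.closure (S : Set k₁) = ⊤)
    (t : k) (hfin : FiniteDimensional (IntermediateField.adjoin k₁ {t}) k)
    {W : ValuationSubring (kbar k K)} (hW : W ≠ ⊤)
    (hk₁ : ∀ c : k₁, algebraMap k₁ (kbar k K) c ∈ W) (hf : GoodRed W f)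
    (hS : ∀ c ∈ S, algebraMap k (kbar k K) c ∈ W)
    (hc : algebraMap k (kbar k K) c ∈ W) (hc1 : algebraMap k (kbar k K) c ∉ W.nonunits)
    {P : ValuationSubring (UU k K)} (hP : ∀ c : kbar k K, algebraMap (kbar k K) (UU k K) c ∈ P)
    (hP1 : P ≠ ⊤)
    (hPB : toU (k := k) (K := K) (algebraMap K₀ K x) ∉ P ∨
      ∃ b ∈ rootsB K f, toU (k := k) (K := K) (algebraMap K₀ K x) - algebraMap (kbar k K) (UU k K) b ∈ P.nonunits)
    {τ : Gk k K} (hτ : InInert W τ) (z : UU k K) : actU s τ z ∈ P ↔ z ∈ P := by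
  have hac : IsAlgClosed (algebraicClosure k₁ (kbar k K)) :=
    (inferInstance : IsAlgClosure k₁ (algebraicClosure k₁ (kbar k K))).isAlgClosed
  have hk0 : CharZero k := charZero_of_injective_algebraMap (algebraMap k₁ k).injective
  obtain ⟨t', hb⟩ := exists_base' (K := K) t hfin hW hk₁
  let iUX : Algebra (UU k K) (XX (algebraMap K₀ K x) (rootsB K f)) := algUX h.UU_le
  have s1 : IsScalarTower (kbar k K) (UU k K) (XX (algebraMap K₀ K x) (rootsB K f)) :=
    IsScalarTower.of_algebraMap_eq fun _ => rfl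
  have s2 : IsScalarTower (algebraicClosure k₁ (kbar k K)) (UU k K)
      (XX (algebraMap K₀ K x) (rootsB K f)) := IsScalarTower.of_algebraMap_eq fun _ => rfl
  have hu : CSetup (algebraicClosure k₁ (kbar k K)) (XX (algebraMap K₀ K x) (rootsB K f)) W t'
    (rootsB K f) (toU (k := k) (K := K) (algebraMap K₀ K x)) (LL k K₀ K) (MM k K) := h.csetup hb hf hk0
  obtain ⟨V, hV⟩ := exists_gauss (N := UU k K) hb hu.tr
  have ha := locAct' s hF t hfin hW hk₁ (algebraMap K₀ K x)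
  have hres := trivialC ha hu hV (τ := τ) hτ (fun z hz hzM =>
    h.inert_trivial s hb hf hS hc hc1 hV hτ hz hzM)
  obtain ⟨σ', hσ', -⟩ := h.exists_extX hk0 s τ
  exact hu.fixes_place hV (actU s τ) σ' (fun z => Subtype.ext (hσ' z)) (phi k K τ)
    (actU_const s τ) (fun c => hτ.1 c) (fun c hc => hτ.2 c hc)
    (actU_toU s τ _) hres (fun b hb => phi_rootsB τ hb) hP hP1 hPB z

/-- At a bad place there is a place stable under the decomposition group. -/
theorem CycE.place_of_bad (h : CycE n c g x z₀ f S y) (s : GaloisSection k K)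
    (hk : ∃ S : Finset k, Subfield.closure (S : Set k) = ⊤)
    (hrat : ∀ z : MM k K, IntermediateField.adjoin (kbar k K) {z} ≠ ⊤)
    (hF : ∃ S : Finset k₁, Subfield.closure (S : Set k₁) = ⊤)
    (t : k) (hfin : FiniteDimensional (IntermediateField.adjoin k₁ {t}) k)
    {W : ValuationSubring (kbar k K)} (hW : W ≠ ⊤)
    (hk₁ : ∀ c : k₁, algebraMap k₁ (kbar k K) c ∈ W) (hf : GoodRed W f)
    (hS : ∀ c ∈ S, algebraMap k (kbar k K) c ∈ W)
    {ϖ c₁ : k} {j : ℕ} (hϖ : algebraMap k (kbar k K) ϖ ∈ W.nonunits) (hϖ0 : ϖ ≠ 0)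
    (hdisc : ∀ z : k, z ≠ 0 → ∃ i : ℤ, W.valuation (algebraMap k (kbar k K) z) =
      W.valuation (algebraMap k (kbar k K) ϖ) ^ i)
    (hcj : c = ϖ ^ j * c₁) (hj : ¬ n ∣ j) (hc₁ : algebraMap k (kbar k K) c₁ ∈ W)
    (hc₁u : algebraMap k (kbar k K) c₁ ∉ W.nonunits) :
    ∃ P : ValuationSubring (UU k K), (∀ c : kbar k K, algebraMap (kbar k K) (UU k K) c ∈ P) ∧
      P ≠ ⊤ ∧ (∀ γ : Gk k K, InDecomp W γ → ∀ z, actU s γ z ∈ P ↔ z ∈ P) ∧
      (toU (k := k) (K := K) (algebraMap K₀ K x) ∉ P ∨ ∃ b ∈ rootsB K f,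
        toU (k := k) (K := K) (algebraMap K₀ K x) - algebraMap (kbar k K) (UU k K) b ∈ P.nonunits) := by
  have hac : IsAlgClosed (algebraicClosure k₁ (kbar k K)) :=
    (inferInstance : IsAlgClosure k₁ (algebraicClosure k₁ (kbar k K))).isAlgClosed
  have hk0 : CharZero k := charZero_of_injective_algebraMap (algebraMap k₁ k).injective
  obtain ⟨t', hb⟩ := exists_base' (K := K) t hfin hW hk₁
  let iUX : Algebra (UU k K) (XX (algebraMap K₀ K x) (rootsB K f)) := algUX h.UU_le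
  have s1 : IsScalarTower (kbar k K) (UU k K) (XX (algebraMap K₀ K x) (rootsB K f)) :=
    IsScalarTower.of_algebraMap_eq fun _ => rfl
  have s2 : IsScalarTower (algebraicClosure k₁ (kbar k K)) (UU k K)
      (XX (algebraMap K₀ K x) (rootsB K f)) := IsScalarTower.of_algebraMap_eq fun _ => rfl
  have hu : CSetup (algebraicClosure k₁ (kbar k K)) (XX (algebraMap K₀ K x) (rootsB K f)) W t'
    (rootsB K f) (toU (k := k) (K := K) (algebraMap K₀ K x)) (LL k K₀ K) (MM k K) := h.csetup hb hf hk0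
  obtain ⟨V, hV⟩ := exists_gauss (N := UU k K) hb hu.tr
  have ha := locAct' s hF t hfin hW hk₁ (algebraMap K₀ K x)
  obtain ⟨τ, hτ, z, hzV, hzM, hz⟩ :=
    h.inert_nontrivial s hb hf hS hϖ hϖ0 hdisc hcj hj hc₁ hc₁u hV
  exact exists_placeC ha hu hV (fun τ hτ z hz hzL => h.inert_trivial_LL s hb hf hS hV hτ hz hzL)
    ⟨τ, hτ, z, hzV, hzM, hz⟩
    (fun g hgL hg hne P P' hP hP1 hPg hP' hP1' hPg' =>
      h.fixed_unique hk hrat g hgL hg hne hP hP1 hPg hP' hP1' hPg')

end Pool.Agent.GC
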