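import Pool.Agent.Helper13.GC.X2
import Pool.Agent.Helper13.LT.U5
import Pool.Agent.Helper13.LT.A13

/-!
# Integral elements and places (copy of LT/U5)

`IntO O x z` means that `z` is integral over the subring `O[x]` of `U`.
`eval_mem`: reduce the monic relation `∑ P_i(x) z^i = 0` at `P`: `∑ P_i(b) c^i = 0`, `P_i(b) ∈ O`.
`eval_nonunits`: all conjugates `g z` over `K(x)` are in `𝔪_V` (U2 `stable`), so the minimal
polynomial of `z` over `K(x)` has nonleading coefficients in `𝔪_V`, and in `K[x]` as `z` is integral over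
`K[x]`; so they are in `𝔪_O[x]` (`val_poly_lt`).  Evaluate at `P`: `c^d + ∑ a_i(b) c^i = 0` with
`a_i(b) ∈ 𝔪_O` and `c ∈ O`.
`exists_separating`: a level `N` (U1) containing an element of `P` not in `P'` (or conversely);
`P ∩ N ≠ P' ∩ N` are places of `N`; A13 for `N` (Gauss extension from `exists_gauss`); then A7
`exists_monic` gives `IntO`.
-/

universe u

namespace Pool.Agent.GC

open VC Polynomial Pool.Agent.LT Pool.Agent

variable {E K U : Type u} [Field E] [IsAlgClosed E] [CharZero E] [Field K] [IsAlgClosed K]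
  [Algebra E K] [Field U] [Algebra K U] [Algebra E U] [IsScalarTower E K U]
  {O : ValuationSubring K} {t : K} {x : U} {B : Finset K}
  {V : ValuationSubring U}


open IntermediateField algebraAdjoinAdjoin in
/-- An integral element in the maximal ideal of `V` has values in the maximal ideal of `O`. -/
theorem XSetup.eval_nonunits (hu : XSetup E O t B x) (hV : Gauss E O x V) {z : U}
    (hz : IntO O x z) (hzV : z ∈ V.nonunits) {P : ValuationSubring U}
    (hP : ∀ c : K, algebraMap K U c ∈ P) {b : K} (hb : b ∈ O)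
    (hxP : x - algebraMap K U b ∈ P.nonunits) {c : K} (hc : z - algebraMap K U c ∈ P.nonunits) :
    c ∈ O.nonunits := by
  have hcO := hz.eval_mem hP hb hxP hc
  have := hu.gal
  -- `K[x]`
  have : IsIntegrallyClosed (Algebra.adjoin K {x}) :=
    IsIntegrallyClosed.of_equiv (algEquivOfTranscendental K x hu.tr).toRingEquiv
  have hzA : IsIntegral (Algebra.adjoin K {x}) z := by
    obtain ⟨Q, hQ, -, h0⟩ := hz
    refine ⟨Q.map (algEquivOfTranscendental K x hu.tr).toRingEquiv.toRingHom, hQ.map _, ?_⟩
    rw [eval₂_map]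
    have h1 : (algebraMap (Algebra.adjoin K {x}) U).comp
        (algEquivOfTranscendental K x hu.tr).toRingEquiv.toRingHom =
        (aeval x : K[X] →ₐ[K] U).toRingHom := by
      refine Polynomial.ringHom_ext ?_ ?_
      · intro a
        simp
      · simp
    rw [h1]
    exact h0
  have hmin := minpoly.isIntegrallyClosed_eq_field_fractions' (IntermediateField.adjoin K {x}) hzA
  set Q := minpoly (Algebra.adjoin K {x}) z with hQ
  have hQm : Q.Monic := minpoly.monic hzA
  -- the roots
  have hsp := (Normal.splits (F := IntermediateField.adjoin K {x}) (K := U) inferInstance z)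
  set s := ((minpoly (IntermediateField.adjoin K {x}) z).map
    (algebraMap (IntermediateField.adjoin K {x}) U)).roots with hs
  have halg : IsAlgebraic (IntermediateField.adjoin K {x}) z := Algebra.IsAlgebraic.isAlgebraic z
  have hmon : (minpoly (IntermediateField.adjoin K {x}) z).Monic :=
    minpoly.monic halg.isIntegral
  have hroots : ∀ a ∈ s, a ∈ V.nonunits := by
    intro a ha
    have h1 : aeval a (minpoly (IntermediateField.adjoin K {x}) z) = 0 := by
      rw [hs, mem_roots', IsRoot.def, eval_map_algebraMap] at ha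
      exact ha.2
    obtain ⟨g, hg⟩ := minpoly.exists_algEquiv_of_root halg h1
    have hgx : g x = x := by
      have := g.commutes ⟨x, IntermediateField.mem_adjoin_simple_self K x⟩
      exact this
    have hst : ∀ w : U, g w ∈ V ↔ w ∈ V := fun w =>
      hu.stable hV (g.restrictScalars K).toRingEquiv (RingEquiv.refl K)
        (fun c => (g.restrictScalars K).commutes c) (fun c => Iff.rfl) hgx w
    rw [V.mem_nonunits_iff_or]
    rcases V.mem_nonunits_iff_or.1 hzV with h | h
    · left
      rw [← hg] at h
      exact (map_eq_zero_iff g g.injective).1 h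
    · right
      rw [← hg, ← map_inv₀, hst] at h
      exact h
  have hprod : (Q.map (algebraMap (Algebra.adjoin K {x}) U)) = (s.map fun a => X - C a).prod := by
    rw [← hsp.eq_prod_roots_of_monic (hmon.map _), hmin, Polynomial.map_map,
      ← IsScalarTower.algebraMap_eq]
  have hcard : s.card = Q.natDegree := by
    have h1 := congrArg natDegree hprod
    rw [hQm.natDegree_map, natDegree_multiset_prod_X_sub_C_eq_card] at h1
    exact h1.symm
  -- polynomials for the coefficients
  have hcoef : ∀ i, ∃ p : K[X], aeval x p = ((Q.coeff i : Algebra.adjoin K {x}) : U) ∧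
      (i < Q.natDegree → ∀ j, O.valuation (p.coeff j) < 1) := by
    intro i
    have h1 : ((Q.coeff i : Algebra.adjoin K {x}) : U) ∈ (aeval x : K[X] →ₐ[K] U).range := by
      rw [← Algebra.adjoin_singleton_eq_range_aeval]
      exact (Q.coeff i).2
    obtain ⟨p, hp⟩ := h1
    refine ⟨p, hp, fun hi => ?_⟩
    have h2 := lower_coeff54 V s hroots i (by omega)
    rw [← hprod, coeff_map, V.mem_nonunits_iff] at h2
    have h3 : V.valuation (aeval x p) < V.valuation (algebraMap K U 1) := by
      rw [map_one, map_one]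
      have h4 : (aeval x p : U) = algebraMap (Algebra.adjoin K {x}) U (Q.coeff i) := hp
      rw [h4]
      exact h2
    have h5 := (hV.val_poly_lt hu.base p 1 one_ne_zero).1 h3
    intro j
    have := h5 j
    rwa [map_one] at this
  choose p hp1 hp2 using hcoef
  -- the relation over `K[X]`
  have hrel : eval₂ (aeval x : K[X] →ₐ[K] U).toRingHom z
      (X ^ Q.natDegree + ∑ i ∈ Finset.range Q.natDegree, C (p i) * X ^ i) = 0 := by
    have h1 : eval₂ (algebraMap (Algebra.adjoin K {x}) U) z Q = 0 := minpoly.aeval _ z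
    rw [hQm.as_sum] at h1
    rw [eval₂_add, eval₂_pow, eval₂_X, eval₂_finsetSum] at h1 ⊢
    rw [← h1]
    congr 1
    refine Finset.sum_congr rfl fun i _ => ?_
    simp only [eval₂_mul, eval₂_C, eval₂_pow, eval₂_X]
    congr 1
    exact hp1 i
  have hred := reduce54 hP hxP hc _ hrel
  rw [eval₂_add, eval₂_pow, eval₂_X, eval₂_finsetSum] at hred
  have hsum : O.valuation (∑ i ∈ Finset.range Q.natDegree,
      eval₂ (evalRingHom b) c (C (p i) * X ^ i)) < 1 := by
    refine O.valuation.map_sum_lt one_ne_zero fun i hi => ?_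
    rw [Finset.mem_range] at hi
    rw [eval₂_mul, eval₂_C, eval₂_pow, eval₂_X, map_mul, map_pow]
    exact mul_lt_one_of_lt_of_le (poly_eval_nonunits54 O (p i) (hp2 i hi) hb)
      (pow_le_one' ((O.valuation_le_one_iff c).2 hcO) i)
  have hpow : O.valuation (c ^ Q.natDegree) < 1 := by
    rw [eq_neg_of_add_eq_zero_left hred, Valuation.map_neg]
    exact hsum
  rw [O.mem_nonunits_iff]
  by_contra hcon
  have h1 : O.valuation c = 1 := le_antisymm ((O.valuation_le_one_iff c).2 hcO) (not_lt.1 hcon)
  rw [map_pow, h1, one_pow] at hpow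
  exact lt_irrefl _ hpow

/-- The places above `B` are separated by the reductions of integral elements. -/
theorem XSetup.exists_separating (hu : XSetup E O t B x) {b : K} (hb : b ∈ B)
    {P P' : ValuationSubring U} (hP : ∀ c : K, algebraMap K U c ∈ P)
    (hP' : ∀ c : K, algebraMap K U c ∈ P')
    (hxP : x - algebraMap K U b ∈ P.nonunits) (hxP' : x - algebraMap K U b ∈ P'.nonunits)
    (hne : P ≠ P') :
    ∃ z : U, IntO O x z ∧ ∃ c c' : K, c ∈ O ∧ c' ∈ O ∧ z - algebraMap K U c ∈ P.nonunits ∧
      z - algebraMap K U c' ∈ P'.nonunits ∧ c - c' ∉ O.nonunits := by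
  obtain ⟨y, hy⟩ : ∃ y : U, ¬ (y ∈ P ↔ y ∈ P') := by
    by_contra hcon
    push Not at hcon
    exact hne (SetLike.ext hcon)
  obtain ⟨N, hZ, hstab, hx, hset⟩ := hu.exists_level {y}
  have hyN : y ∈ N := hZ y (Finset.mem_singleton_self y)
  have hxne : x - algebraMap K U b ≠ 0 := by
    intro h0
    refine hu.tr ?_
    rw [sub_eq_zero] at h0
    rw [h0]
    exact isAlgebraic_algebraMap b
  have hmem : ∀ (P : ValuationSubring U) (w : N),
      w ∈ (P.comap (algebraMap N U)).nonunits ↔ (w : U) ∈ P.nonunits := by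
    intro P w
    rw [ValuationSubring.mem_nonunits_iff_or, ValuationSubring.mem_nonunits_iff_or,
      ValuationSubring.mem_comap, map_inv₀]
    constructor
    · rintro (h | h)
      · left
        rw [h]
        rfl
      · exact Or.inr h
    · rintro (h | h)
      · left
        exact Subtype.ext h
      · exact Or.inr h
  have hplace : ∀ P : ValuationSubring U, (∀ c : K, algebraMap K U c ∈ P) →
      x - algebraMap K U b ∈ P.nonunits → P.comap (algebraMap N U) ≠ ⊤ := by
    intro P hP hxP htop
    have h1 : ((⟨x, hx⟩ : N) - algebraMap K N b) ∈ (P.comap (algebraMap N U)).nonunits := by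
      rw [hmem]
      exact hxP
    rw [htop, ValuationSubring.mem_nonunits_iff_or] at h1
    rcases h1 with h1 | h1
    · exact hxne (congrArg (algebraMap N U) h1)
    · exact h1 (ValuationSubring.mem_top _)
  let Q : Place K N := ⟨P.comap (algebraMap N U), fun c => hP c, hplace P hP hxP⟩
  let Q' : Place K N := ⟨P'.comap (algebraMap N U), fun c => hP' c, hplace P' hP' hxP'⟩
  have hQQ : Q ≠ Q' := by
    intro h
    have h1 : P.comap (algebraMap N U) = P'.comap (algebraMap N U) := congrArg Place.ring h
    apply hy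
    have h2 : (⟨y, hyN⟩ : N) ∈ P.comap (algebraMap N U) ↔
        (⟨y, hyN⟩ : N) ∈ P'.comap (algebraMap N U) := by rw [h1]
    exact h2
  have hQx : (⟨x, hx⟩ : N) - algebraMap K N b ∈ Q.ring.nonunits := (hmem P _).2 hxP
  have hQx' : (⟨x, hx⟩ : N) - algebraMap K N b ∈ Q'.ring.nonunits := (hmem P' _).2 hxP'
  have hg : ∃ V : ValuationSubring N, Gauss E O (⟨x, hx⟩ : N) V := exists_gauss hset.base hset.tr
  obtain ⟨z, hz1, hz2, c, c', hc, hc', hzc, hzc', hcc⟩ :=
    Pool.Agent.LT.exists_separating hset hg hb hQx hQx' hQQ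
  obtain ⟨V, hV⟩ := hg
  obtain ⟨R, hR, hRO, hR0⟩ := exists_monic hset hV hz1 hz2
  refine ⟨z, ⟨R, hR, hRO, ?_⟩, c, c', hc, hc', (hmem P _).1 hzc, (hmem P' _).1 hzc', hcc⟩
  have h1 := congrArg (algebraMap N U) hR0
  rw [map_zero, hom_eval₂] at h1
  have h2 : (algebraMap N U).comp (aeval (⟨x, hx⟩ : N) : K[X] →ₐ[K] N).toRingHom =
      (aeval x : K[X] →ₐ[K] U).toRingHom := by
    refine Polynomial.ringHom_ext ?_ ?_
    · intro a
      simp
    · simp
  rw [h2] at h1
  exact h1

end Pool.Agent.GC
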