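import Pool.Agent.Helper13.GC.Y1
import Pool.Agent.Helper13.GC.X7

/-!
# Block GC-Y7: residually trivial automorphisms fix the places above the branch points

Let `V'` be a Gauss extension on `X` inducing `V` (`exists_gauss_ext`, Y0), `R'` its residue field
(an `E`-algebra, `Res E V' π'`, see the header of Y1).  `σ'` preserves `V'` (`XSetup.stable`,
X2) and induces a ring automorphism `ρ'` of `R'` which is trivial on the residues of `U` (`hres`), in
particular on `E`.  Let `U'` be the image of `U` in `X` (`(IsScalarTower.toAlgHom K U X).fieldRange`).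
`XSetup.exists_induces_over` (X4b) with `N = U'`: there is `g : X ≃ₐ[K] X` with
`g = id` on `U` which induces `ρ'`.  `σ'' = g⁻¹ σ'` is trivial on the residues of `V'`, extends `σ`, and is
`φ`-semilinear.  Let `P'` be a valuation ring of `X` above `P` (`SC.exists_comap_eq`); it contains `K`, is not
`⊤`, and `hPB` holds for it.  `XSetup.fixes_place` (X7) for `σ''` and `P'`: `σ'' z ∈ P' ↔ z ∈ P'`;
restrict to `U`.
-/

universe u

namespace Pool.Agent.GC

open VC Polynomial Pool.Agent.LT Pool.Agent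

variable {E K X U : Type u} [Field E] [IsAlgClosed E] [CharZero E] [Field K] [IsAlgClosed K]
  [Algebra E K] [Field X] [Algebra K X] [Algebra E X] [IsScalarTower E K X] [Field U]
  [Algebra K U] [Algebra E U] [IsScalarTower E K U] [Algebra U X] [IsScalarTower K U X]
  [IsScalarTower E U X]
  {O : ValuationSubring K} {t : K} {x : U} {B : Finset K} {L M : IntermediateField K U}
  {V : ValuationSubring U}

private lemma nonunitsY7 {F : Type u} [Field F] {V : ValuationSubring F} {g : F ≃+* F}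
    (hst : ∀ z, g z ∈ V ↔ z ∈ V) (z : F) : g z ∈ V.nonunits ↔ z ∈ V.nonunits := by
  rw [ValuationSubring.mem_nonunits_iff_or, ValuationSubring.mem_nonunits_iff_or, ← map_inv₀, hst,
    map_eq_zero_iff g g.injective]

private lemma ind_homY7 {E F R : Type u} [Field E] [Field F] [Algebra E F] [Field R]
    [Algebra E R] {V : ValuationSubring F} {π : V →+* R} (hR : Res E V π) (g : F ≃+* F)
    (hst : ∀ z, g z ∈ V ↔ z ∈ V) :
    ∃ ρ : R →+* R, ∀ z w : V, (w : F) = g (z : F) → ρ (π z) = π w := by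
  let f : V →+* V :=
    { toFun := fun z => ⟨g (z : F), (hst z).2 z.2⟩
      map_one' := Subtype.ext (map_one g)
      map_mul' := fun a b => Subtype.ext (map_mul g (a : F) b)
      map_zero' := Subtype.ext (map_zero g)
      map_add' := fun a b => Subtype.ext (map_add g (a : F) b) }
  have hker : RingHom.ker π ≤ RingHom.ker (π.comp f) := by
    intro z hz
    rw [RingHom.mem_ker] at hz ⊢
    rw [RingHom.comp_apply, hR.ker]
    exact (nonunitsY7 hst z).2 ((hR.ker z).1 hz)
  refine ⟨π.liftOfSurjective hR.surj ⟨π.comp f, hker⟩, fun z w hw => ?_⟩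
  rw [RingHom.liftOfSurjective_comp_apply]
  show π (f z) = π w
  congr 1
  exact Subtype.ext hw.symm

/-- an automorphism which is trivial on the residues of `E` induces an automorphism over `E` -/
private lemma indY7 {E F R : Type u} [Field E] [Field F] [Algebra E F] [Field R]
    [Algebra E R] {V : ValuationSubring F} {π : V →+* R} (hR : Res E V π) (g : F ≃+* F)
    (hst : ∀ z, g z ∈ V ↔ z ∈ V) (hE : ∀ e : E, algebraMap E F e ∈ V)
    (hEg : ∀ e : E, g (algebraMap E F e) - algebraMap E F e ∈ V.nonunits) :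
    ∃ ρ : R ≃ₐ[E] R, Induces π g ρ := by
  have hst' : ∀ z, g.symm z ∈ V ↔ z ∈ V := by
    intro z
    rw [← hst, g.apply_symm_apply]
  obtain ⟨ρ1, h1⟩ := ind_homY7 hR g hst
  obtain ⟨ρ2, h2⟩ := ind_homY7 hR g.symm hst'
  have e1 : ρ2.comp ρ1 = RingHom.id R := by
    ext r
    obtain ⟨z, rfl⟩ := hR.surj r
    rw [RingHom.comp_apply, h1 z ⟨g z, (hst z).2 z.2⟩ rfl, h2 _ z (g.symm_apply_apply (z : F)).symm]
    rfl
  have e2 : ρ1.comp ρ2 = RingHom.id R := by
    ext r
    obtain ⟨z, rfl⟩ := hR.surj r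
    rw [RingHom.comp_apply, h2 z ⟨g.symm z, (hst' z).2 z.2⟩ rfl,
      h1 _ z (g.apply_symm_apply (z : F)).symm]
    rfl
  let ρ : R ≃+* R := RingEquiv.ofRingHom ρ1 ρ2 e2 e1
  refine ⟨AlgEquiv.ofRingEquiv (f := ρ) ?_, ?_⟩
  · intro e
    have hgE : g (algebraMap E F e) ∈ V := (hst _).2 (hE e)
    have h3 : ρ (π ⟨_, hE e⟩) = π ⟨_, hgE⟩ := h1 _ _ rfl
    have h4 : π ⟨_, hgE⟩ - π ⟨_, hE e⟩ = 0 := by
      rw [← map_sub]
      exact (hR.ker _).2 (hEg e)
    rw [← hR.const e ⟨_, hE e⟩ rfl, h3]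
    exact sub_eq_zero.1 h4
  · intro z w hw
    exact h1 z w hw

theorem CSetup.fixes_place (h : CSetup E X O t B x L M) (hV : Gauss E O x V) (σ : U ≃+* U)
    (σ' : X ≃+* X) (hσσ : ∀ z : U, σ' (algebraMap U X z) = algebraMap U X (σ z))
    (φ : K ≃+* K) (hσ : ∀ c, σ (algebraMap K U c) = algebraMap K U (φ c))
    (hφ : ∀ c, φ c ∈ O ↔ c ∈ O) (hφ1 : ∀ c ∈ O, φ c - c ∈ O.nonunits) (hx : σ x = x)
    (hres : ∀ z ∈ V, σ z - z ∈ V.nonunits) (hB : ∀ b ∈ B, φ b ∈ B)
    {P : ValuationSubring U} (hP : ∀ c : K, algebraMap K U c ∈ P) (hP1 : P ≠ ⊤)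
    (hPB : x ∉ P ∨ ∃ b ∈ B, x - algebraMap K U b ∈ P.nonunits) (z : U) : σ z ∈ P ↔ z ∈ P := by
  obtain ⟨V', hV', hVV⟩ := exists_gauss_ext (X := X) hV
  have hKX : ∀ c : K, algebraMap K X c = algebraMap U X (algebraMap K U c) :=
    fun c => IsScalarTower.algebraMap_apply K U X c
  have hσ' : ∀ c : K, σ' (algebraMap K X c) = algebraMap K X (φ c) := by
    intro c
    rw [hKX, hKX, hσσ, hσ]
  have hx' : σ' (algebraMap U X x) = algebraMap U X x := by rw [hσσ, hx]
  have hst : ∀ w : X, σ' w ∈ V' ↔ w ∈ V' := fun w => h.set.stable hV' σ' φ hσ' hφ hx' w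
  have hmemV : ∀ z : U, algebraMap U X z ∈ V' ↔ z ∈ V := by
    intro z
    rw [← hVV, ValuationSubring.mem_comap]
  have hres' : ∀ z : U, z ∈ V → σ' (algebraMap U X z) - algebraMap U X z ∈ V'.nonunits := by
    intro z hz
    have h1 := hres z hz
    rw [← hVV, comap_nonunits, map_sub] at h1
    rwa [hσσ]
  have hE : ∀ e : E, algebraMap E X e ∈ V' := by
    intro e
    rw [IsScalarTower.algebraMap_apply E K X, hV'.mem_iff]
    exact h.set.base.const e
  have hEU : ∀ e : E, algebraMap E U e ∈ V := by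
    intro e
    rw [← hmemV, ← IsScalarTower.algebraMap_apply E U X]
    exact hE e
  -- the residue field
  let iota : E →+* V' := (algebraMap E X).codRestrict V'.toSubring hE
  let iA : Algebra E (IsLocalRing.ResidueField V') :=
    ((IsLocalRing.residue V').comp iota).toAlgebra
  have hR : Res E V' (IsLocalRing.residue V') := by
    refine ⟨IsLocalRing.residue_surjective, fun w => ?_, fun e w hw => ?_⟩
    · rw [IsLocalRing.residue_eq_zero_iff, ValuationSubring.coe_mem_nonunits_iff]
    · have h1 : w = iota e := Subtype.ext hw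
      rw [h1]
      rfl
  obtain ⟨ρ, hρ⟩ := indY7 hR σ' hst hE (by
    intro e
    rw [IsScalarTower.algebraMap_apply E U X]
    exact hres' _ (hEU e))
  -- an automorphism over `U` inducing the same automorphism of the residue field
  set N : IntermediateField K X := (IsScalarTower.toAlgHom K U X).fieldRange with hN
  have hmemN : ∀ z : U, algebraMap U X z ∈ N := fun z => ⟨z, rfl⟩
  obtain ⟨g, hgN, hg⟩ := h.set.exists_induces_over hV' hR N (hmemN x) ρ (by
    rintro r ⟨z, hz, rfl⟩
    obtain ⟨w, hw⟩ := hz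
    have hw' : algebraMap U X w = (z : X) := hw
    have hwV : w ∈ V := by
      rw [← hmemV, hw']
      exact z.2
    have hσz : σ' (z : X) ∈ V' := (hst _).2 z.2
    rw [hρ z ⟨σ' (z : X), hσz⟩ rfl]
    have h1 : IsLocalRing.residue V' (⟨σ' (z : X), hσz⟩ - z) = 0 := by
      rw [hR.ker]
      show σ' (z : X) - z ∈ V'.nonunits
      rw [← hw']
      exact hres' w hwV
    rw [map_sub] at h1
    exact sub_eq_zero.1 h1)
  have hgU : ∀ z : U, g.symm (algebraMap U X z) = algebraMap U X z := by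
    intro z
    rw [AlgEquiv.symm_apply_eq]
    exact (hgN _ (hmemN z)).symm
  have hgst : ∀ w : X, (g : X ≃+* X) w ∈ V' ↔ w ∈ V' := fun w =>
    h.set.stable hV' (g : X ≃+* X) (RingEquiv.refl K) (fun c => g.commutes c) (fun _ => Iff.rfl)
      (hgN _ (hmemN x)) w
  let σ'' : X ≃+* X := σ'.trans (g.symm : X ≃+* X)
  have hσ'' : ∀ w : X, σ'' w = g.symm (σ' w) := fun w => rfl
  obtain ⟨P', hP'⟩ := SC.exists_comap_eq (algebraMap U X) P
  have hPP : P'.comap (algebraMap U X) = P := by
    ext w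
    exact hP' w
  have key := h.set.fixes_place hV' σ'' φ
    (by
      intro c
      rw [hσ'', hσ', hKX, hgU])
    hφ hφ1
    (by rw [hσ'', hx', hgU])
    (by
      intro w hw
      have hσw : σ' w ∈ V' := (hst w).2 hw
      have hgw : g w ∈ V' := (hgst w).2 hw
      have h1 : IsLocalRing.residue V' (⟨σ' w, hσw⟩ - ⟨g w, hgw⟩) = 0 := by
        rw [map_sub, ← hρ ⟨w, hw⟩ ⟨σ' w, hσw⟩ rfl, ← hg ⟨w, hw⟩ ⟨g w, hgw⟩ rfl, sub_self]
      rw [hR.ker] at h1
      have h2 : σ' w - g w ∈ V'.nonunits := h1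
      have h3 : (g : X ≃+* X) (σ'' w - w) = σ' w - g w := by
        rw [map_sub]
        show g (g.symm (σ' w)) - g w = σ' w - g w
        rw [AlgEquiv.apply_symm_apply]
      rw [← h3] at h2
      exact (nonunitsY7 hgst _).1 h2)
    hB (P := P')
    (by
      intro c
      rw [hKX, hP']
      exact hP c)
    (by
      intro htop
      apply hP1
      rw [← hPP, htop]
      ext w
      rw [ValuationSubring.mem_comap]
      exact ⟨fun _ => ValuationSubring.mem_top _, fun _ => ValuationSubring.mem_top _⟩)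
    (by
      rcases hPB with h1 | ⟨b, hb, h1⟩
      · left
        rw [hP']
        exact h1
      · right
        refine ⟨b, hb, ?_⟩
        rw [hKX, ← map_sub, ← comap_nonunits, hPP]
        exact h1)
    (algebraMap U X z)
  rw [hσ'', hσσ, hgU, hP', hP'] at key
  exact key

end Pool.Agent.GC
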