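import Pool.Agent.Helper13.GC.S2
import Pool.Agent.Helper13.GC.Y7
import Pool.Agent.Helper13.LT.F0
import Pool.Agent.SC.Pub

/-!
# Twists of arbitrary cyclic covers: definitions

`K₀ / k` is the function field of a curve, `g ∈ K₀`, and `K = K₀(y)` with `c yⁿ = g`.
`x ∈ K₀` is transcendental over `k`, `K₀ = k(x, z₀)`.
-/

universe u

namespace Pool.Agent.GC

open VC Polynomial Pool.Agent.LT Pool.Agent.SC Pool.Agent.Helper91.Sect Pool.Agent

noncomputable section

section XX

variable {k K : Type u} [Field k] [Field K] [Algebra k K]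

/-- The maximal extension of `kbar(x)` (inside the algebraic closure of `K`) which is unramified at
the points `x = a`, `a ∉ B`: the elements fixed by all automorphisms over `kbar(x)` which stabilise a
valuation ring over such a point. -/
def XX (x : K) (B : Finset (kbar k K)) : IntermediateField (kbar k K) (AlgebraicClosure K) where
  carrier := {z | ∀ P : ValuationSubring (AlgebraicClosure K),
    (∀ c : kbar k K, (c : AlgebraicClosure K) ∈ P) → ∀ a : kbar k K, a ∉ B →
    algebraMap K (AlgebraicClosure K) x - a ∈ P.nonunits →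
    ∀ ρ : AlgebraicClosure K ≃ₐ[kbar k K] AlgebraicClosure K,
      ρ (algebraMap K (AlgebraicClosure K) x) = algebraMap K (AlgebraicClosure K) x →
      (∀ w, ρ w ∈ P ↔ w ∈ P) → ρ z = z}
  mul_mem' := fun {a b} ha hb P hP c hc hxc ρ hρ hρP => by
    rw [map_mul, ha P hP c hc hxc ρ hρ hρP, hb P hP c hc hxc ρ hρ hρP]
  add_mem' := fun {a b} ha hb P hP c hc hxc ρ hρ hρP => by
    rw [map_add, ha P hP c hc hxc ρ hρ hρP, hb P hP c hc hxc ρ hρ hρP]
  algebraMap_mem' := fun c P hP a ha hxa ρ hρ hρP => ρ.commutes c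
  inv_mem' := fun a ha P hP c hc hxc ρ hρ hρP => by
    rw [map_inv₀, ha P hP c hc hxc ρ hρ hρP]

theorem x_mem_XX (x : K) (B : Finset (kbar k K)) :
    algebraMap K (AlgebraicClosure K) x ∈ XX x B := fun _ _ _ _ _ _ hρ _ => hρ

/-- `x` as an element of `XX`. -/
def xX (x : K) (B : Finset (kbar k K)) : XX x B := ⟨algebraMap K (AlgebraicClosure K) x, x_mem_XX x B⟩

/-- `UU` as a subfield of `XX`. -/
abbrev algUX {x : K} {B : Finset (kbar k K)} (h : UU k K ≤ XX x B) : Algebra (UU k K) (XX x B) :=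
  (IntermediateField.inclusion h).toRingHom.toAlgebra

end XX

/-- The good places for `g` and `z₀`: let `P` be a valuation ring of an extension of `K₀` which
contains `x` and (the elements of) `S`, and in which `f(x)` is a unit.  Then `g` is a unit of `P` and
endomorphisms over `k(x)` which are congruent to the identity at `z₀` fix `z₀`. -/
def GoodPoly {k K₀ : Type u} [Field k] [Field K₀] [Algebra k K₀] (g x z₀ : K₀) (f : k[X])
    (S : Finset k) : Prop :=
  ∀ (Ω : Type u) [Field Ω] [Algebra K₀ Ω] (P : ValuationSubring Ω),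
    (∀ c ∈ S, algebraMap K₀ Ω (algebraMap k K₀ c) ∈ P) → algebraMap K₀ Ω x ∈ P →
    algebraMap K₀ Ω (aeval x f) ∉ P.nonunits →
    algebraMap K₀ Ω g ∈ P ∧ algebraMap K₀ Ω g ∉ P.nonunits ∧ algebraMap K₀ Ω z₀ ∈ P ∧
    ∀ σ : Ω →+* Ω, (∀ c : k, σ (algebraMap K₀ Ω (algebraMap k K₀ c)) =
      algebraMap K₀ Ω (algebraMap k K₀ c)) → σ (algebraMap K₀ Ω x) = algebraMap K₀ Ω x →
      σ (algebraMap K₀ Ω z₀) - algebraMap K₀ Ω z₀ ∈ P.nonunits →
      σ (algebraMap K₀ Ω z₀) = algebraMap K₀ Ω z₀

section LL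

variable (k K₀ K : Type u) [Field k] [Field K₀] [Field K] [Algebra k K₀] [Algebra k K]
  [Algebra K₀ K]

/-- The compositum of `kbar` and `K₀` inside `Kur`. -/
def LL : IntermediateField (kbar k K) (UU k K) :=
  IntermediateField.adjoin (kbar k K) (Set.range fun c : K₀ => toU (k := k) (K := K) (algebraMap K₀ K c))

end LL

/-- The curve `c yⁿ = g` over `k`: `K = K₀(y)`, `K₀ = k(x, z₀)` the function field of a curve. -/
structure CycE {k K₀ K : Type u} [Field k] [Field K₀] [Field K] [Algebra k K₀] [Algebra k K]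
    [Algebra K₀ K] (n : ℕ) (c : k) (g x z₀ : K₀) (f : k[X]) (S : Finset k) (y : K) : Prop where
  n_pos : 0 < n
  c_ne : c ≠ 0
  g_ne : g ≠ 0
  ff : IsFunctionField k K₀
  x_tr : Transcendental k x
  gen₀ : IntermediateField.adjoin k {x, z₀} = ⊤
  gen : IntermediateField.adjoin K₀ {y} = ⊤
  eq : algebraMap k K c * y ^ n = algebraMap K₀ K g
  deg : 1 ≤ f.natDegree
  sep : f.Separable
  good : GoodPoly g x z₀ f S

end

end Pool.Agent.GC
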