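import Pool.Agent.Helper13.GC.C0
import Pool.Agent.Helper13.LT.F2

/-!
# Block GC-C1: `XX / kbar(x)` is Galois

Let `Ω = AlgebraicClosure K`.

`isAlgebraic_XX`: `K` is algebraic over `k(x)` (`IsFunctionField.finiteDimensional hx`), so `Ω` is algebraic over
`kbar(x)`; compare `SuperE.F2_isAlgebraic_Ω` in LT/F2 (same proof).

`XX_stable`: let `P`, `a ∉ B`, `θ` be as in the definition of `XX`; `P' = P.comap ρ`,
`θ' = ρ⁻¹ θ ρ`: it is trivial on `kbar` (`ρ⁻¹ θ (φ c) = ρ⁻¹ (φ c) = c`) and on `x`, `P'` is stable under `θ'`, and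
`x - φ⁻¹ a ∈ P'.nonunits` as `ρ (x - φ⁻¹ a) = x - a`, `φ⁻¹ a ∉ B`.  So `θ' z = z`, `θ (ρ z) = ρ z`.

`isGalois_XX`: normality by `F2_normal_of_stable` (LT/F2) with `A = kbar(x)` (as a subfield of
`XX`), `U = XX`, `Ω`; automorphisms of `Ω` over `A` are `kbar`-linear and fix `x`: `XX_stable` with `φ = 1`.
Characteristic zero, so separable.
-/

universe u

namespace Pool.Agent.GC

open VC Polynomial Pool.Agent.LT Pool.Agent.SC Pool.Agent.Helper91.Sect Pool.Agent

variable {k K : Type u} [Field k] [Field K] [Algebra k K]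

theorem XX_stable {x : K} {B : Finset (kbar k K)} (ρ : AlgebraicClosure K ≃+* AlgebraicClosure K)
    (φ : kbar k K ≃+* kbar k K) (hρ : ∀ c : kbar k K, ρ c = φ c)
    (hx : ρ (algebraMap K (AlgebraicClosure K) x) = algebraMap K (AlgebraicClosure K) x)
    (hB : ∀ b, φ b ∈ B → b ∈ B) (hB' : ∀ b ∈ B, φ b ∈ B) {z : AlgebraicClosure K}
    (hz : z ∈ XX x B) : ρ z ∈ XX x B := by
  intro P hP a ha hxa θ hθx hθP
  set P' : ValuationSubring (AlgebraicClosure K) :=
    P.comap (ρ : AlgebraicClosure K →+* AlgebraicClosure K) with hP'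
  have hmem : ∀ y, y ∈ P' ↔ ρ y ∈ P := fun y => Iff.rfl
  have hnon : ∀ y, ρ y ∈ P.nonunits → y ∈ P'.nonunits := by
    intro y hy
    rw [ValuationSubring.mem_nonunits_iff_or] at hy ⊢
    rcases hy with hy | hy
    · left
      exact (map_eq_zero _).1 hy
    · right
      rw [hmem, map_inv₀]
      exact hy
  let θ' : AlgebraicClosure K ≃ₐ[kbar k K] AlgebraicClosure K :=
    AlgEquiv.ofRingEquiv (f := (ρ.trans (θ : AlgebraicClosure K ≃+* AlgebraicClosure K)).trans
      ρ.symm) (fun c => by
        change ρ.symm (θ (ρ (c : AlgebraicClosure K))) = (c : AlgebraicClosure K)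
        rw [hρ, show θ ((φ c : kbar k K) : AlgebraicClosure K) = (φ c : kbar k K) from
          θ.commutes (φ c), ← hρ, RingEquiv.symm_apply_apply])
  have hθ' : ∀ w, ρ (θ' w) = θ (ρ w) := fun w => ρ.apply_symm_apply _
  have ha' : φ.symm a ∉ B := by
    intro h
    have := hB' _ h
    rw [RingEquiv.apply_symm_apply] at this
    exact ha this
  have h1 := hz P' (fun c => by rw [hmem, hρ]; exact hP _) (φ.symm a) ha'
    (hnon _ (by rw [map_sub, hρ, hx, RingEquiv.apply_symm_apply]; exact hxa)) θ'
    (ρ.injective (by rw [hθ', hx, hθx])) (fun w => by rw [hmem, hmem, hθ']; exact hθP _)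
  rw [← hθ', h1]

theorem isAlgebraic_XX [CharZero k] (hK : IsFunctionField k K) {x : K} (hx : Transcendental k x)
    (B : Finset (kbar k K)) :
    Algebra.IsAlgebraic (IntermediateField.adjoin (kbar k K) {xX x B}) (AlgebraicClosure K) := by
  let K0 := IntermediateField.adjoin k {x}
  have hfd : FiniteDimensional K0 K := hK.finiteDimensional hx
  have hal : Algebra.IsAlgebraic K0 K := Algebra.IsAlgebraic.of_finite K0 K
  have hal2 : Algebra.IsAlgebraic K0 (AlgebraicClosure K) :=
    Algebra.IsAlgebraic.trans K0 K (AlgebraicClosure K)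
  let F : Subfield (AlgebraicClosure K) :=
    (IntermediateField.adjoin (kbar k K) {xX x B}).toSubfield.map (XX x B).val.toRingHom
  have hFx : algebraMap K (AlgebraicClosure K) x ∈ F :=
    ⟨xX x B, IntermediateField.subset_adjoin _ _ rfl, rfl⟩
  have hFc : ∀ c : k, algebraMap K (AlgebraicClosure K) (algebraMap k K c) ∈ F := by
    intro c
    refine ⟨algebraMap (kbar k K) (XX x B) (algebraMap k (kbar k K) c),
      IntermediateField.algebraMap_mem _ _, ?_⟩
    rw [← IsScalarTower.algebraMap_apply]
    rfl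
  have hmem : ∀ z ∈ K0, algebraMap K (AlgebraicClosure K) z ∈ F := by
    let S : IntermediateField k K :=
      { Subfield.comap (algebraMap K (AlgebraicClosure K)) F with
        algebraMap_mem' := fun c => hFc c }
    have h2 : IntermediateField.adjoin k {x} ≤ S := by
      rw [IntermediateField.adjoin_le_iff]
      rintro w (rfl | hw)
      exact hFx
    exact fun z hz => h2 hz
  refine ⟨fun z => ?_⟩
  obtain ⟨p, hp, hpz⟩ := hal2.isAlgebraic z
  have hex : ∀ c : K0, ∃ a : IntermediateField.adjoin (kbar k K) {xX x B},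
      algebraMap (IntermediateField.adjoin (kbar k K) {xX x B}) (AlgebraicClosure K) a =
        algebraMap K0 (AlgebraicClosure K) c := by
    intro c
    obtain ⟨w, hw, hwc⟩ := hmem c c.2
    exact ⟨⟨w, hw⟩, hwc⟩
  choose i hi using hex
  let ι : K0 →+* IntermediateField.adjoin (kbar k K) {xX x B} :=
    { toFun := i
      map_one' := (algebraMap _ (AlgebraicClosure K)).injective (by rw [hi, map_one, map_one])
      map_zero' := (algebraMap _ (AlgebraicClosure K)).injective (by rw [hi, map_zero, map_zero])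
      map_mul' := fun a b => (algebraMap _ (AlgebraicClosure K)).injective (by
        rw [hi, map_mul, map_mul, hi, hi])
      map_add' := fun a b => (algebraMap _ (AlgebraicClosure K)).injective (by
        rw [hi, map_add, map_add, hi, hi]) }
  refine ⟨p.map ι, (Polynomial.map_ne_zero_iff ι.injective).2 hp, ?_⟩
  rw [aeval_def, eval₂_map]
  have h3 : (algebraMap (IntermediateField.adjoin (kbar k K) {xX x B}) (AlgebraicClosure K)).comp ι
      = algebraMap K0 (AlgebraicClosure K) := RingHom.ext hi
  rw [h3]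
  exact hpz

theorem isGalois_XX [CharZero k] (hK : IsFunctionField k K) {x : K} (hx : Transcendental k x)
    (B : Finset (kbar k K)) :
    IsGalois (IntermediateField.adjoin (kbar k K) {xX x B}) (XX x B) := by
  have h1 := isAlgebraic_XX hK hx B
  have h2 : Normal (IntermediateField.adjoin (kbar k K) {xX x B}) (XX x B) :=
    F2_normal_of_stable (Ω := AlgebraicClosure K) fun τ u => by
      have hc : ∀ c : kbar k K, τ (c : AlgebraicClosure K) = (c : AlgebraicClosure K) := fun c =>
        τ.commutes (algebraMap (kbar k K) (IntermediateField.adjoin (kbar k K) {xX x B}) c)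
      have hx' : τ (algebraMap K (AlgebraicClosure K) x) = algebraMap K (AlgebraicClosure K) x :=
        τ.commutes (⟨xX x B, IntermediateField.subset_adjoin _ _ rfl⟩ :
          IntermediateField.adjoin (kbar k K) {xX x B})
      exact ⟨⟨_, XX_stable (τ : AlgebraicClosure K ≃+* AlgebraicClosure K)
        (RingEquiv.refl (kbar k K)) hc hx' (fun b hb => hb) (fun b hb => hb) u.2⟩, rfl⟩
  have hc0 : CharZero (kbar k K) := charZero_of_injective_algebraMap (algebraMap k _).injective
  have h3 : CharZero (IntermediateField.adjoin (kbar k K) {xX x B}) :=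
    charZero_of_injective_algebraMap (algebraMap (kbar k K) _).injective
  exact { }

end Pool.Agent.GC
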