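import Pool.Agent.Helper13.GC.C1
import Pool.Agent.Helper13.LT.Ord1

/-!
# Block GC-C2: `XX / kbar(x)` is unramified outside `B`

Let `A = kbar(x)` (inside `XX`) and `Ω = AlgebraicClosure K`.  `XX / A` is Galois (C1).  Let `N` be a finite
Galois extension of `A` inside `XX` containing `u` (e.g. the normal closure / splitting field of the minimal
polynomial of `u` over `A`), a function field over `kbar`, and `P_N = P ∩ N`.

Claim: an automorphism `σ` of `N` over `A` which preserves `P_N` is trivial.  Extend `P` to a valuation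
ring `P'` of `Ω` (`SC.exists_comap_eq`) and `σ` to `σ' : Ω ≃ₐ[A] Ω` (`Ω / A` is normal).  The
valuation rings `P'` and `P'.comap σ'` have the same trace on `N`, and `Ω / N` is Galois, so by
`SC.exists_conj_val` (SC/Cov) they are conjugate over `N`; changing `σ'` by an automorphism over `N` we may assume that
`σ'` stabilises `P'`.  `σ'` fixes `kbar` and `x`, and `x - a ∈ P'.nonunits`, `a ∉ B`, so by the
definition of `XX` it fixes all elements of `XX`, in particular of `N`.

By `ord_eq_one_local` (LT/Ord1; see the proof of `SuperE.F2_ord_eq_one` in LT/F2) `ord_{P_N} (x - a) = 1`, so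
`P_N.valuation u` is a power of `P_N.valuation (x - a)` (`F2_val_eq_zpow`, LT/F2), and the same holds for
`P` (`val_map_eq`, SC/CoverKur0, see `SuperE.F2_unr_gen`).
-/

universe u

namespace Pool.Agent.GC

open VC Polynomial Pool.Agent.LT Pool.Agent.SC Pool.Agent.Helper91.Sect Pool.Agent

section abstract_lemma

variable {κ X Ω : Type u} [Field κ] [IsAlgClosed κ] [CharZero κ] [Field X] [Field Ω]
  [IsAlgClosed Ω] [Algebra κ X] [Algebra X Ω]

omit [IsAlgClosed κ] [CharZero κ] in
/-- the rational function field is a function field -/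
private theorem c2_ff {x : X} (hx : Transcendental κ x) (a : κ) :
    ∃ t : IntermediateField.adjoin κ {x}, (t : X) = x - algebraMap κ X a ∧
      IntermediateField.adjoin κ {t} = ⊤ ∧ Transcendental κ t := by
  have hxA : x ∈ IntermediateField.adjoin κ {x} := IntermediateField.subset_adjoin _ _ rfl
  let t : IntermediateField.adjoin κ {x} := ⟨x - algebraMap κ X a,
    sub_mem hxA (IntermediateField.algebraMap_mem _ _)⟩
  refine ⟨t, rfl, ?_, ?_⟩
  · rw [eq_top_iff]
    intro z _
    have h1 : IntermediateField.adjoin κ {x} ≤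
        (IntermediateField.adjoin κ {t}).map (IntermediateField.adjoin κ {x}).val := by
      rw [IntermediateField.adjoin_le_iff, Set.singleton_subset_iff]
      refine ⟨t + algebraMap κ _ a, add_mem (IntermediateField.subset_adjoin _ _ rfl)
        (IntermediateField.algebraMap_mem _ _), ?_⟩
      change (x - algebraMap κ X a) + algebraMap κ X a = x
      ring
    obtain ⟨w, hw, hwz⟩ := h1 z.2
    have : w = z := Subtype.ext hwz
    rw [← this]
    exact hw
  · intro hal
    have h1 : IsAlgebraic κ (x - algebraMap κ X a) :=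
      hal.algHom (IntermediateField.adjoin κ {x}).val
    have h2 : IsAlgebraic κ x := by
      have := h1.add (isAlgebraic_algebraMap (R := κ) (A := X) a)
      rwa [sub_add_cancel] at this
    exact hx h2

omit [IsAlgClosed κ] [CharZero κ] in
private theorem c2_isFunctionField {x : X} (hx : Transcendental κ x) :
    IsFunctionField κ (IntermediateField.adjoin κ {x}) := by
  obtain ⟨t, -, ht, htt⟩ := c2_ff hx (0 : κ)
  refine ⟨t, htt, ?_⟩
  rw [ht]
  apply FiniteDimensional.of_finrank_pos
  rw [IntermediateField.finrank_top]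
  exact one_pos

private theorem c2_unr {x : X} (hx : Transcendental κ x)
    (hgal : IsGalois (IntermediateField.adjoin κ {x}) X)
    (halg : Algebra.IsAlgebraic (IntermediateField.adjoin κ {x}) Ω)
    (P : ValuationSubring X) (hP : ∀ c : κ, algebraMap κ X c ∈ P) {a : κ}
    (hPa : x - algebraMap κ X a ∈ P.nonunits)
    (hfix : ∀ P' : ValuationSubring Ω, (∀ z : X, algebraMap X Ω z ∈ P' ↔ z ∈ P) →
      ∀ ρ : Ω ≃+* Ω, (∀ c : κ, ρ (algebraMap X Ω (algebraMap κ X c)) =
        algebraMap X Ω (algebraMap κ X c)) → ρ (algebraMap X Ω x) = algebraMap X Ω x →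
        (∀ w, ρ w ∈ P' ↔ w ∈ P') → ∀ z : X, ρ (algebraMap X Ω z) = algebraMap X Ω z)
    {u : X} (hu : u ≠ 0) :
    ∃ j : ℤ, P.valuation u = P.valuation (x - algebraMap κ X a) ^ j := by
  let A := IntermediateField.adjoin κ {x}
  obtain ⟨t, htx, ht, htt⟩ := c2_ff hx a
  let F : FiniteGaloisIntermediateField A X := FiniteGaloisIntermediateField.adjoin A {u}
  let N : IntermediateField A X := F.toIntermediateField
  have hfin : FiniteDimensional A N := F.finiteDimensional
  have hgN : IsGalois A N := F.isGalois
  have huN : u ∈ N := FiniteGaloisIntermediateField.subset_adjoin A {u} rfl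
  have hffA : IsFunctionField κ A := c2_isFunctionField hx
  have hffN : IsFunctionField κ N := isFunctionField_of_finite8 (M := A) hffA
  have hx0 : x - algebraMap κ X a ≠ 0 := by
    intro h0
    rw [sub_eq_zero] at h0
    exact hx (h0 ▸ isAlgebraic_algebraMap a)
  let i : N →+* X := algebraMap N X
  have hit : i (algebraMap A N t) = x - algebraMap κ X a := htx
  let P' : Place κ N :=
    { ring := P.comap i
      algebraMap_mem := fun c => hP c
      ne_top := by
        intro htop
        have h1 : (algebraMap A N t)⁻¹ ∈ P.comap i := by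
          rw [htop]; trivial
        rw [ValuationSubring.mem_comap, map_inv₀, hit] at h1
        rw [ValuationSubring.mem_nonunits_iff_or] at hPa
        rcases hPa with hPa | hPa
        · exact hx0 hPa
        · exact hPa h1 }
  have hP'mem : ∀ z : N, z ∈ P'.ring ↔ (z : X) ∈ P := fun z => Iff.rfl
  have hP't : algebraMap A N t ∈ P'.ring.nonunits := by
    rw [ValuationSubring.mem_nonunits_iff_or] at hPa ⊢
    rcases hPa with hPa | hPa
    · exact absurd hPa hx0
    · right
      intro h1
      have h2 : i ((algebraMap A N t)⁻¹) ∈ P := h1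
      rw [map_inv₀, hit] at h2
      exact hPa h2
  have hord : ord P'.ring (algebraMap A N t) = 1 := by
    refine ord_eq_one_local hffN ht htt P' ?_ hP't
    intro σ hσ
    -- extend the valuation ring and the automorphism
    obtain ⟨Q, hQ⟩ := exists_comap_eq (algebraMap X Ω) P
    have hAcl : IsAlgClosure A Ω := ⟨inferInstance, halg⟩
    have hnorm : Normal A Ω := IsAlgClosure.normal A Ω
    have halgN : Algebra.IsAlgebraic N Ω := Algebra.IsAlgebraic.tower_top (K := A) N
    have hNcl : IsAlgClosure N Ω := ⟨inferInstance, halgN⟩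
    have hczN : CharZero N := charZero_of_injective_algebraMap (algebraMap κ N).injective
    have hgalN : IsGalois N Ω := IsAlgClosure.isGalois N Ω
    let σ' : Ω ≃ₐ[A] Ω := σ.liftNormal Ω
    have hσ' : ∀ z : N, σ' (algebraMap N Ω z) = algebraMap N Ω (σ z) := fun z =>
      σ.liftNormal_commutes Ω z
    obtain ⟨τ, hτ⟩ := exists_conj_val (L := N) (Ω := Ω) Q
      (Q.comap ((σ' : Ω ≃+* Ω) : Ω →+* Ω)) (by
        intro z
        have h1 : algebraMap N Ω z ∈ Q.comap ((σ' : Ω ≃+* Ω) : Ω →+* Ω) ↔
            algebraMap N Ω (σ z) ∈ Q := by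
          rw [ValuationSubring.mem_comap]
          change σ' (algebraMap N Ω z) ∈ Q ↔ _
          rw [hσ']
        rw [h1]
        have h2 : ∀ z : N, algebraMap N Ω z ∈ Q ↔ z ∈ P'.ring := fun z => hQ (z : X)
        rw [h2, h2, hσ])
    let ρ : Ω ≃+* Ω := (τ : Ω ≃+* Ω).trans (σ' : Ω ≃+* Ω)
    have hρ : ∀ z, ρ z = σ' (τ z) := fun z => rfl
    have hρN : ∀ z : N, ρ (algebraMap N Ω z) = algebraMap N Ω (σ z) := by
      intro z
      rw [hρ, τ.commutes, hσ']
    have hρA : ∀ z : A, ρ (algebraMap X Ω (z : X)) = algebraMap X Ω (z : X) := by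
      intro z
      have h1 := hρN (algebraMap A N z)
      rw [σ.commutes] at h1
      exact h1
    have hρX := hfix Q hQ ρ (fun c => hρA (algebraMap κ A c))
      (hρA ⟨x, IntermediateField.subset_adjoin _ _ rfl⟩) (fun w => hτ w)
    ext z
    have h1 := hρX (z : X)
    have h2 := hρN z
    have h3 : algebraMap X Ω ((σ z : N) : X) = algebraMap X Ω (z : X) := by
      rw [← h1]
      exact h2.symm
    exact (algebraMap X Ω).injective h3
  have ht0 : algebraMap A N t ≠ 0 := by
    intro h0
    apply hx0
    rw [← hit, h0, map_zero]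
  have hu0 : (⟨u, huN⟩ : N) ≠ 0 := fun h0 => hu (congrArg Subtype.val h0)
  obtain ⟨r, hr⟩ := F2_val_eq_zpow hffN P' ht0 hord hu0
  refine ⟨r, ?_⟩
  rw [← map_zpow₀] at hr
  have h1 := val_map_eq i (W := P'.ring) (V := P) (fun _ => Iff.rfl) hr
  rw [map_zpow₀, map_zpow₀, hit] at h1
  exact h1

end abstract_lemma

variable {k K : Type u} [Field k] [Field K] [Algebra k K]

theorem unr_XX [CharZero k] (hK : IsFunctionField k K) {x : K} (hx : Transcendental k x)
    (B : Finset (kbar k K)) (P : ValuationSubring (XX x B))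
    (hP : ∀ c : kbar k K, algebraMap (kbar k K) (XX x B) c ∈ P) {a : kbar k K} (ha : a ∉ B)
    (hPa : xX x B - algebraMap (kbar k K) (XX x B) a ∈ P.nonunits) {u : XX x B} (hu : u ≠ 0) :
    ∃ j : ℤ, P.valuation u = P.valuation (xX x B - algebraMap (kbar k K) (XX x B) a) ^ j := by
  have hcz : CharZero (kbar k K) := charZero_of_injective_algebraMap (algebraMap k _).injective
  have htr : Transcendental (kbar k K) (xX x B) := by
    intro hal
    have h0 : IsAlgebraic (kbar k K) (algebraMap K (AlgebraicClosure K) x) :=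
      hal.algHom (XX x B).val
    have h1 : IsAlgebraic k (algebraMap K (AlgebraicClosure K) x) := h0.restrictScalars k
    exact hx ((isAlgebraic_algebraMap_iff (algebraMap K (AlgebraicClosure K)).injective).1 h1)
  refine c2_unr (Ω := AlgebraicClosure K) htr (isGalois_XX hK hx B) (isAlgebraic_XX hK hx B)
    P hP hPa ?_ hu
  intro Q hQ ρ hρc hρx hρQ z
  let ρ' : AlgebraicClosure K ≃ₐ[kbar k K] AlgebraicClosure K :=
    AlgEquiv.ofRingEquiv (f := ρ) (fun c => hρc c)
  refine z.2 Q (fun c => ?_) a ha ?_ ρ' hρx hρQ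
  · exact (hQ (algebraMap (kbar k K) (XX x B) c)).2 (hP c)
  · rw [ValuationSubring.mem_nonunits_iff_or] at hPa ⊢
    rcases hPa with hPa | hPa
    · left
      exact congrArg Subtype.val hPa
    · right
      intro h1
      apply hPa
      rw [← hQ, map_inv₀]
      exact h1

end Pool.Agent.GC
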