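import Pool.Agent.Helper13.GC.C0
import Pool.Agent.SC.Cov

/-!
# Block GC-C3: `Kur ≤ XX`

`residue_trivial`.  `P` is a valuation ring of `Ω = AlgebraicClosure K` which contains `kbar`; a `kbar`-linear
automorphism which stabilises `P` is trivial on the residue field: if `z ∈ P` then
`z - c ∈ P.nonunits` for some `c ∈ kbar` (`P ≠ ⊤` by `hP1`; `SC.exists_const_residue_abs` in SC/Cov, with the function field
`KK k K / kbar`, `SC.isFunctionField_KK`), so `ρ z - z = ρ (z - c) - (z - c)`.

`UU_le_XX_of`.  Let `z ∈ UU` and `P`, `ρ` be as in the definition of `XX`.  By assumption `ρ` fixes the elements of `K`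
(they are in `XX`), so it is an automorphism `ρ' : Ω ≃ₐ[K] Ω`, and `InInertia P ρ'` by `residue_trivial`
(`P ≠ ⊤` since `x - a` is a nonzero nonunit: `x` is transcendental).  By the definition of
`Kur` (`Helper91/Section/Basic.lean`) and `mem_UU` (LT/F0) `ρ z = z`.

`CycE.mem_XX`.  Let `P`, `a ∉ rootsB K f`, `ρ` be as in the definition of `XX`; `f(a) ≠ 0`, so `f(x)` is a
unit of `P` (`f(x) ≡ f(a)`).  Regard `Ω` as a `K₀`-algebra (through `K`).  `h.good Ω P` (the
hypothesis on `S` holds as `P ⊇ kbar`): `g` is a unit, `z₀ ∈ P`, so `ρ z₀ - z₀ ∈ P.nonunits`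
(`residue_trivial`) and `ρ z₀ = z₀`.  So `ρ` is the identity on `K₀ = k(x, z₀)` (`h.gen₀`).  `c yⁿ = g`: `y` is a
unit of `P`, `ρ y = ζ y` with `ζ` an `n`-th root of unity (in `kbar`), and `ρ y - y = (ζ - 1) y` is in `P.nonunits`, so
`ζ = 1`.  `K = K₀(y)` (`h.gen`), so `ρ` is the identity on `K`.
-/

universe u

namespace Pool.Agent.GC

open VC Polynomial Pool.Agent.LT Pool.Agent.SC Pool.Agent.Helper91.Sect Pool.Agent

variable {k K : Type u} [Field k] [Field K] [Algebra k K]

theorem residue_trivial [CharZero k] (hK : IsFunctionField k K)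
    {P : ValuationSubring (AlgebraicClosure K)} (hP : ∀ c : kbar k K, (c : AlgebraicClosure K) ∈ P)
    (hP1 : P ≠ ⊤) (ρ : AlgebraicClosure K ≃ₐ[kbar k K] AlgebraicClosure K)
    (hρ : ∀ w, ρ w ∈ P ↔ w ∈ P) {z : AlgebraicClosure K} (hz : z ∈ P) : ρ z - z ∈ P.nonunits := by
  have hW : ∀ c : k, algebraMap k (AlgebraicClosure K) c ∈ P := fun c =>
    hP (algebraMap k (kbar k K) c)
  obtain ⟨c, hc⟩ := exists_const_residue hK P hW hP1 hz
  have h1 : P.valuation (ρ z - c) < 1 := by
    have h2 : ρ z - c = ρ (z - c) := by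
      rw [map_sub]
      congr 1
      exact (ρ.commutes c).symm
    rw [h2]
    rw [← ValuationSubring.mem_nonunits_iff, ValuationSubring.mem_nonunits_iff_or] at hc ⊢
    rcases hc with hc | hc
    · left; rw [hc, map_zero]
    · right
      rw [← map_inv₀, hρ]
      exact hc
  have h3 : ρ z - z = (ρ z - c) - (z - c) := by ring
  rw [ValuationSubring.mem_nonunits_iff, h3]
  exact (Valuation.map_sub _ _ _).trans_lt (max_lt h1 hc)

private theorem h99_ne_top {x : K} (hx : Transcendental k x)
    {P : ValuationSubring (AlgebraicClosure K)} {a : kbar k K}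
    (hxa : algebraMap K (AlgebraicClosure K) x - a ∈ P.nonunits) : P ≠ ⊤ := by
  rintro rfl
  rw [ValuationSubring.mem_nonunits_iff_or] at hxa
  rcases hxa with h | h
  · apply hx
    have h1 : algebraMap K (AlgebraicClosure K) x = a := sub_eq_zero.1 h
    have h2 : IsAlgebraic k (algebraMap K (AlgebraicClosure K) x) := by
      rw [h1]
      exact mem_algebraicClosure_iff.1 a.2
    exact (isAlgebraic_algebraMap_iff (algebraMap K (AlgebraicClosure K)).injective).1 h2
  · exact h (ValuationSubring.mem_top _)

theorem UU_le_XX_of [CharZero k] (hK : IsFunctionField k K) {x : K} (hx : Transcendental k x)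
    {B : Finset (kbar k K)} (hKX : ∀ c : K, algebraMap K (AlgebraicClosure K) c ∈ XX x B) :
    UU k K ≤ XX x B := by
  intro z hz P hP a ha hxa ρ hρx hρP
  have hW : ∀ c : k, algebraMap k (AlgebraicClosure K) c ∈ P := fun c =>
    hP (algebraMap k (kbar k K) c)
  have hP1 := h99_ne_top hx hxa
  have hfix : ∀ c : K, ρ (algebraMap K (AlgebraicClosure K) c) =
      algebraMap K (AlgebraicClosure K) c := fun c => hKX c P hP a ha hxa ρ hρx hρP
  let ρK : AlgebraicClosure K ≃ₐ[K] AlgebraicClosure K :=
    AlgEquiv.ofRingEquiv (f := (ρ : AlgebraicClosure K ≃+* AlgebraicClosure K)) hfix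
  exact (mem_UU k K).1 hz P hW ρK ⟨hρP, fun w hw =>
    (ValuationSubring.mem_nonunits_iff P).1 (residue_trivial hK hP hP1 ρ hρP hw)⟩

variable {K₀ : Type u} [Field K₀] [Algebra k K₀] [Algebra K₀ K] [IsScalarTower k K₀ K]
  {n : ℕ} {c : k} {g x z₀ : K₀} {f : k[X]} {S : Finset k} {y : K}

theorem CycE.x_tr' (h : CycE n c g x z₀ f S y) : Transcendental k (algebraMap K₀ K x) := by
  rw [transcendental_algebraMap_iff (algebraMap K₀ K).injective]
  exact h.x_tr

theorem CycE.isFunctionField [CharZero k] (h : CycE n c g x z₀ f S y) : IsFunctionField k K := by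
  have hc : algebraMap k K c ≠ 0 := by
    rw [Ne, map_eq_zero]
    exact h.c_ne
  have h1 : y ^ n = algebraMap K₀ K (g / algebraMap k K₀ c) := by
    rw [map_div₀, ← IsScalarTower.algebraMap_apply, eq_div_iff hc, mul_comm]
    exact h.eq
  have hy : IsIntegral K₀ y := by
    apply IsIntegral.of_pow h.n_pos
    rw [h1]
    exact isIntegral_algebraMap
  have h2 : FiniteDimensional K₀ (IntermediateField.adjoin K₀ {y}) :=
    IntermediateField.adjoin.finiteDimensional hy
  rw [h.gen] at h2
  have h3 : FiniteDimensional K₀ K :=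
    (IntermediateField.topEquiv (F := K₀) (E := K)).toLinearEquiv.finiteDimensional
  exact isFunctionField_of_finite_cov h.ff

theorem CycE.mem_XX [CharZero k] (h : CycE n c g x z₀ f S y) (w : K) :
    algebraMap K (AlgebraicClosure K) w ∈ XX (algebraMap K₀ K x) (rootsB K f) := by
  intro P hP a ha hxa ρ hρx hρP
  have hP1 := h99_ne_top h.x_tr' hxa
  have hW : ∀ c : k, algebraMap k (AlgebraicClosure K) c ∈ P := fun c =>
    hP (algebraMap k (kbar k K) c)
  have hres := fun z (hz : z ∈ P) => residue_trivial h.isFunctionField hP hP1 ρ hρP hz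
  have hx0 : algebraMap K₀ (AlgebraicClosure K) x =
      algebraMap K (AlgebraicClosure K) (algebraMap K₀ K x) :=
    IsScalarTower.algebraMap_apply K₀ K (AlgebraicClosure K) x
  have hk : ∀ c : k, algebraMap K₀ (AlgebraicClosure K) (algebraMap k K₀ c) =
      algebraMap k (AlgebraicClosure K) c := by
    intro c
    rw [IsScalarTower.algebraMap_apply K₀ K (AlgebraicClosure K),
      ← IsScalarTower.algebraMap_apply k K₀ K, ← IsScalarTower.algebraMap_apply]
  have hρk : ∀ c : k, ρ (algebraMap k (AlgebraicClosure K) c) =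
      algebraMap k (AlgebraicClosure K) c := fun c => ρ.commutes (algebraMap k (kbar k K) c)
  have hxP : algebraMap K₀ (AlgebraicClosure K) x ∈ P := by
    rw [hx0]
    have h1 := P.nonunits_le hxa
    have h2 := add_mem h1 (hP a)
    rwa [sub_add_cancel] at h2
  have hfx : algebraMap K₀ (AlgebraicClosure K) (aeval x f) ∉ P.nonunits := by
    set φ : k →+* P := (algebraMap k (AlgebraicClosure K)).codRestrict P.toSubring hW with hφ
    set xP : P := ⟨algebraMap K₀ (AlgebraicClosure K) x, hxP⟩ with hxPdef
    set aP : P := ⟨a, hP a⟩ with haPdef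
    have hcomp : P.subtype.comp φ = algebraMap k (AlgebraicClosure K) := rfl
    have e1 : ((eval xP (f.map φ) : P) : AlgebraicClosure K) =
        algebraMap K₀ (AlgebraicClosure K) (aeval x f) := by
      have h1 : P.subtype (eval xP (f.map φ)) = eval₂ (algebraMap k (AlgebraicClosure K))
          (algebraMap K₀ (AlgebraicClosure K) x) f := by
        rw [eval_map, hom_eval₂, hcomp]
        rfl
      rw [aeval_def, hom_eval₂]
      have h2 : (algebraMap K₀ (AlgebraicClosure K)).comp (algebraMap k K₀) =
          algebraMap k (AlgebraicClosure K) := RingHom.ext hk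
      rw [h2]
      exact h1
    have e2 : ((eval aP (f.map φ) : P) : AlgebraicClosure K) =
        ((eval a (f.map (algebraMap k (kbar k K))) : kbar k K) : AlgebraicClosure K) := by
      have h1 : P.subtype (eval aP (f.map φ)) = eval₂ (algebraMap k (AlgebraicClosure K))
          (a : AlgebraicClosure K) f := by
        rw [eval_map, hom_eval₂, hcomp]
        rfl
      have h2 : (algebraMap (kbar k K) (AlgebraicClosure K))
          (eval a (f.map (algebraMap k (kbar k K)))) =
          eval₂ (algebraMap k (AlgebraicClosure K)) (a : AlgebraicClosure K) f := by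
        rw [eval_map, hom_eval₂]
        rfl
      exact h1.trans h2.symm
    have hf0 : f.map (algebraMap k (kbar k K)) ≠ 0 := by
      rw [Ne, Polynomial.map_eq_zero]
      rintro rfl
      have := h.deg
      simp at this
    have hfa : eval a (f.map (algebraMap k (kbar k K))) ≠ 0 := by
      intro h0
      apply ha
      simp only [rootsB, Multiset.mem_toFinset]
      rw [mem_roots hf0]
      exact h0
    have hva : P.valuation ((eval a (f.map (algebraMap k (kbar k K))) : kbar k K) :
        AlgebraicClosure K) = 1 := by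
      apply const_val_eq_one hW (mem_algebraicClosure_iff.1 (SetLike.coe_mem _))
      intro h0
      exact hfa (Subtype.ext h0)
    obtain ⟨q, hq⟩ := sub_dvd_eval_sub xP aP (f.map φ)
    have hq' := congrArg (P.subtype) hq
    rw [map_sub, map_mul, map_sub] at hq'
    change ((eval xP (f.map φ) : P) : AlgebraicClosure K) - ((eval aP (f.map φ) : P) :
      AlgebraicClosure K) = (algebraMap K₀ (AlgebraicClosure K) x - a) * q at hq'
    rw [e1, e2] at hq'
    intro hcon
    rw [ValuationSubring.mem_nonunits_iff] at hcon hxa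
    rw [← hx0] at hxa
    have h1 : P.valuation ((algebraMap K₀ (AlgebraicClosure K) x - a) * q) < 1 := by
      rw [map_mul]
      exact mul_lt_one_of_lt_of_le hxa ((P.valuation_le_one_iff _).2 q.2)
    rw [← hq'] at h1
    have h2 : ((eval a (f.map (algebraMap k (kbar k K))) : kbar k K) : AlgebraicClosure K) =
        algebraMap K₀ (AlgebraicClosure K) (aeval x f) -
        (algebraMap K₀ (AlgebraicClosure K) (aeval x f) -
          ((eval a (f.map (algebraMap k (kbar k K))) : kbar k K) : AlgebraicClosure K)) := by ring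
    have h3 : P.valuation ((eval a (f.map (algebraMap k (kbar k K))) : kbar k K) :
        AlgebraicClosure K) < 1 := by
      rw [h2]
      exact (Valuation.map_sub _ _ _).trans_lt (max_lt hcon h1)
    rw [hva] at h3
    exact lt_irrefl _ h3
  obtain ⟨hg1, hg2, hz0, hfix⟩ := h.good (AlgebraicClosure K) P (fun c _ => by
    rw [hk]; exact hW c) hxP hfx
  have hz := hfix (ρ : AlgebraicClosure K →+* AlgebraicClosure K) (fun c => by
    rw [hk]; exact hρk c) (by
    rw [hx0]; exact hρx) (hres _ hz0)
  have hK0 : ∀ w : K₀, ρ (algebraMap K₀ (AlgebraicClosure K) w) =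
      algebraMap K₀ (AlgebraicClosure K) w := by
    intro w
    have hw : w ∈ IntermediateField.adjoin k {x, z₀} := by rw [h.gen₀]; trivial
    induction hw using IntermediateField.adjoin_induction with
    | mem v hv =>
      rcases hv with rfl | hv
      · rw [hx0]; exact hρx
      · rw [Set.mem_singleton_iff] at hv
        rw [hv]; exact hz
    | algebraMap c => rw [hk]; exact hρk c
    | add a b _ _ ha hb => rw [map_add, map_add, ha, hb]
    | inv a _ ha => rw [map_inv₀, map_inv₀, ha]
    | mul a b _ _ ha hb => rw [map_mul, map_mul, ha, hb]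
  set Y : AlgebraicClosure K := algebraMap K (AlgebraicClosure K) y with hY
  have hYeq : algebraMap k (AlgebraicClosure K) c * Y ^ n =
      algebraMap K₀ (AlgebraicClosure K) g := by
    rw [hY, IsScalarTower.algebraMap_apply k K (AlgebraicClosure K), ← map_pow, ← map_mul, h.eq,
      ← IsScalarTower.algebraMap_apply]
  have hc0 : algebraMap k (AlgebraicClosure K) c ≠ 0 := by
    rw [Ne, map_eq_zero]; exact h.c_ne
  have hg0 : algebraMap K₀ (AlgebraicClosure K) g ≠ 0 := by
    rw [Ne, map_eq_zero]; exact h.g_ne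
  have hYn : ρ Y ^ n = Y ^ n := by
    have h1 := congrArg ρ hYeq
    rw [map_mul, map_pow, hρk, hK0, ← hYeq] at h1
    exact mul_left_cancel₀ hc0 h1
  have hY0 : Y ≠ 0 := by
    intro h0
    rw [h0, zero_pow h.n_pos.ne', mul_zero] at hYeq
    exact hg0 hYeq.symm
  have hvc : P.valuation (algebraMap k (AlgebraicClosure K) c) = 1 :=
    const_val_eq_one hW (isAlgebraic_algebraMap c) hc0
  have hvg : P.valuation (algebraMap K₀ (AlgebraicClosure K) g) = 1 := by
    apply le_antisymm ((P.valuation_le_one_iff _).2 hg1)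
    rw [ValuationSubring.mem_nonunits_iff, not_lt] at hg2
    exact hg2
  have hvY : P.valuation Y = 1 := by
    have h1 := congrArg P.valuation hYeq
    rw [map_mul, map_pow, hvc, one_mul, hvg] at h1
    exact (pow_eq_one_iff_of_nonneg zero_le' h.n_pos.ne').1 h1
  have hζ : ρ Y = Y := by
    by_contra hne
    set ζ := ρ Y / Y with hζdef
    have h1 : ρ Y = ζ * Y := by rw [hζdef, div_mul_cancel₀ _ hY0]
    have h2 : ζ ^ n = 1 := by rw [hζdef, div_pow, hYn, div_self (pow_ne_zero _ hY0)]
    have h3 : IsAlgebraic k ζ := by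
      apply IsIntegral.isAlgebraic
      apply IsIntegral.of_pow h.n_pos
      rw [h2]
      exact isIntegral_one
    have h4 : ζ - 1 ≠ 0 := by
      intro h5
      apply hne
      rw [h1, sub_eq_zero.1 h5, one_mul]
    have h5 : P.valuation (ζ - 1) = 1 :=
      const_val_eq_one hW (h3.sub isAlgebraic_one) h4
    have h6 : P.valuation (ρ Y - Y) < 1 := (ValuationSubring.mem_nonunits_iff P).1
      (hres Y ((P.valuation_le_one_iff _).1 hvY.le))
    have h7 : ρ Y - Y = (ζ - 1) * Y := by rw [h1]; ring
    rw [h7, map_mul, h5, hvY, one_mul] at h6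
    exact lt_irrefl _ h6
  have hw : w ∈ IntermediateField.adjoin K₀ {y} := by rw [h.gen]; trivial
  induction hw using IntermediateField.adjoin_induction with
  | mem v hv =>
    rw [Set.mem_singleton_iff] at hv
    rw [hv]; exact hζ
  | algebraMap c => rw [← IsScalarTower.algebraMap_apply]; exact hK0 c
  | add a b _ _ ha hb => rw [map_add, map_add, ha, hb]
  | inv a _ ha => rw [map_inv₀, map_inv₀, ha]
  | mul a b _ _ ha hb => rw [map_mul, map_mul, ha, hb]

theorem CycE.UU_le [CharZero k] (h : CycE n c g x z₀ f S y) :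
    UU k K ≤ XX (algebraMap K₀ K x) (rootsB K f) :=
  UU_le_XX_of h.isFunctionField h.x_tr' h.mem_XX

end Pool.Agent.GC
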