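import Pool.Agent.Helper13.GC.C1
import Pool.Agent.Helper13.GC.C3

/-!
# Block GC-C5: automorphisms over `LL`

`LL` and `MM` are subfields of `UU`.  `toU x ∈ LL`, `LL ≤ MM` by definition (`F2_MM_eq`, LT/F2).

`fix_LL_of`: `LL` is generated over `kbar` by `toU x`, `toU z₀` (`h.gen₀`).
`mem_MM_iff` (`MM_eq`): `MM` is generated over `kbar` by `LL` and `toU y` (`h.gen`, `F2_MM_eq`).
`exists_zeta`: `g (toU y)ⁿ = (toU y)ⁿ` as `c (toU y)ⁿ = toU g ∈ LL` and `c ∈ kbar`.
`stabM`: from these.
`stab`: let `g' : XX ≃ₐ[kbar] XX` be trivial on the image of `LL`.  It extends to `ρ : Ω ≃ₐ[kbar] Ω`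
(`Ω / kbar(x)` and `XX / kbar(x)` are normal: `AlgEquiv.liftNormal`; or `IsAlgClosed.lift`, `Ω / XX` algebraic).
`ρ` fixes `K₀` and `kbar`, `ρ y = ζ y`, so `ρ` preserves `KK k K` (generated by `kbar`, `K₀` and `y`) and hence `Kur`
(`F2_map_mem_Kur_of_stab`, LT/F2) and `UU` (`mem_UU`).
-/

universe u

set_option linter.unusedSectionVars false

namespace Pool.Agent.GC

open VC Polynomial Pool.Agent.LT Pool.Agent.SC Pool.Agent.Helper91.Sect Pool.Agent

section

variable {k K₀ K : Type u} [Field k] [CharZero k] [Field K₀] [Field K] [Algebra k K₀]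
  [Algebra k K] [Algebra K₀ K] [IsScalarTower k K₀ K]
  {n : ℕ} {c : k} {g x z₀ : K₀} {f : k[X]} {S : Finset k} {y : K}

theorem toU_mem_LL (w : K₀) : toU (k := k) (K := K) (algebraMap K₀ K w) ∈ LL k K₀ K :=
  IntermediateField.subset_adjoin _ _ ⟨w, rfl⟩

theorem LL_le_MM : LL k K₀ K ≤ MM k K := by
  unfold LL
  rw [IntermediateField.adjoin_le_iff]
  rintro _ ⟨w, rfl⟩
  exact toU_mem _

/-- A `kbar`-linear homomorphism which fixes `x` and `z₀` is trivial on `LL`. -/
theorem CycE.fix_LL (h : CycE n c g x z₀ f S y) {N : Type u} [Field N] [Algebra (kbar k K) N]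
    (i σ : UU k K →ₐ[kbar k K] N)
    (hx : σ (toU (k := k) (K := K) (algebraMap K₀ K x)) = i (toU (k := k) (K := K) (algebraMap K₀ K x)))
    (hz : σ (toU (k := k) (K := K) (algebraMap K₀ K z₀)) = i (toU (k := k) (K := K) (algebraMap K₀ K z₀))) :
    ∀ l ∈ LL k K₀ K, σ l = i l := by
  have hconst : ∀ c : k, toU (k := k) (K := K) (algebraMap K₀ K (algebraMap k K₀ c)) =
      algebraMap (kbar k K) (UU k K) (algebraMap k (kbar k K) c) := by
    intro c
    rw [← IsScalarTower.algebraMap_apply k K₀ K]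
    exact F2_toU_algebraMap c
  let j : K₀ →+* UU k K := (toU (k := k) (K := K)).comp (algebraMap K₀ K)
  let S0 : IntermediateField k K₀ :=
    { RingHom.eqLocusField ((σ : UU k K →+* N).comp j) ((i : UU k K →+* N).comp j) with
      algebraMap_mem' := fun c => by
        change σ (toU (k := k) (K := K) (algebraMap K₀ K (algebraMap k K₀ c))) =
          i (toU (k := k) (K := K) (algebraMap K₀ K (algebraMap k K₀ c)))
        rw [hconst, AlgHom.commutes, AlgHom.commutes] }
  have h1 : IntermediateField.adjoin k {x, z₀} ≤ S0 := by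
    rw [IntermediateField.adjoin_le_iff]
    rintro w (rfl | hw)
    · exact hx
    · rw [Set.mem_singleton_iff] at hw
      rw [hw]
      exact hz
  rw [h.gen₀] at h1
  let T0 : IntermediateField (kbar k K) (UU k K) :=
    { RingHom.eqLocusField (σ : UU k K →+* N) (i : UU k K →+* N) with
      algebraMap_mem' := fun c => by
        change σ (algebraMap (kbar k K) (UU k K) c) = i (algebraMap (kbar k K) (UU k K) c)
        rw [AlgHom.commutes, AlgHom.commutes] }
  have h2 : LL k K₀ K ≤ T0 := by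
    unfold LL
    rw [IntermediateField.adjoin_le_iff]
    rintro _ ⟨w, rfl⟩
    exact h1 (IntermediateField.mem_top (x := w))
  exact fun l hl => h2 hl

theorem CycE.MM_eq (h : CycE n c g x z₀ f S y) :
    MM k K = IntermediateField.adjoin (kbar k K) ((LL k K₀ K : Set (UU k K)) ∪ {toU (k := k) (K := K) y}) := by
  apply le_antisymm
  · rw [F2_MM_eq, IntermediateField.adjoin_le_iff]
    rintro _ ⟨w, rfl⟩
    let S0 : IntermediateField K₀ K :=
      { Subfield.comap (toU (k := k) (K := K)) (IntermediateField.adjoin (kbar k K)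
          ((LL k K₀ K : Set (UU k K)) ∪ {toU (k := k) (K := K) y})).toSubfield with
        algebraMap_mem' := fun c => by
          change toU (k := k) (K := K) (algebraMap K₀ K c) ∈ IntermediateField.adjoin (kbar k K)
            ((LL k K₀ K : Set (UU k K)) ∪ {toU (k := k) (K := K) y})
          exact IntermediateField.subset_adjoin _ _ (Set.mem_union_left _ (toU_mem_LL c)) }
    have h1 : IntermediateField.adjoin K₀ {y} ≤ S0 := by
      rw [IntermediateField.adjoin_le_iff, Set.singleton_subset_iff]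
      change toU (k := k) (K := K) y ∈ IntermediateField.adjoin (kbar k K)
        ((LL k K₀ K : Set (UU k K)) ∪ {toU (k := k) (K := K) y})
      exact IntermediateField.subset_adjoin _ _ (Set.mem_union_right _ rfl)
    rw [h.gen] at h1
    exact h1 (IntermediateField.mem_top (x := w))
  · rw [IntermediateField.adjoin_le_iff]
    rintro w (hw | hw)
    · exact LL_le_MM hw
    · rw [Set.mem_singleton_iff] at hw
      rw [hw]
      exact toU_mem y

theorem CycE.y_ne_C5 (h : CycE n c g x z₀ f S y) : y ≠ 0 := by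
  intro h0
  have h1 := h.eq
  rw [h0, zero_pow h.n_pos.ne', mul_zero] at h1
  exact h.g_ne ((map_eq_zero (algebraMap K₀ K)).1 h1.symm)

theorem CycE.eqU (h : CycE n c g x z₀ f S y) :
    algebraMap (kbar k K) (UU k K) (algebraMap k (kbar k K) c) * toU (k := k) (K := K) y ^ n =
      toU (k := k) (K := K) (algebraMap K₀ K g) := by
  rw [← F2_toU_algebraMap, ← map_pow, ← map_mul, h.eq]

theorem CycE.exists_zeta (h : CycE n c g x z₀ f S y) (σ : UU k K ≃ₐ[kbar k K] UU k K)
    (hσ : ∀ l ∈ LL k K₀ K, σ l = l) :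
    ∃ ζ : kbar k K, ζ ^ n = 1 ∧ σ (toU (k := k) (K := K) y) = algebraMap (kbar k K) (UU k K) ζ * toU (k := k) (K := K) y := by
  have hy0 : toU (k := k) (K := K) y ≠ 0 := by rw [Ne, map_eq_zero]; exact h.y_ne_C5
  have hc0 : algebraMap (kbar k K) (UU k K) (algebraMap k (kbar k K) c) ≠ 0 := by
    rw [Ne, map_eq_zero, map_eq_zero]; exact h.c_ne
  have h1 : σ (toU (k := k) (K := K) y) ^ n = toU (k := k) (K := K) y ^ n := by
    have h2 := congrArg σ h.eqU
    rw [map_mul, AlgEquiv.commutes, map_pow, hσ _ (toU_mem_LL g), ← h.eqU] at h2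
    exact mul_left_cancel₀ hc0 h2
  have h3 : (σ (toU (k := k) (K := K) y) / toU (k := k) (K := K) y) ^ n = 1 := by
    rw [div_pow, h1, div_self (pow_ne_zero _ hy0)]
  obtain ⟨ζ, hζ⟩ := F2_exists_const_of_pow_eq_one (κ := kbar k K) h.n_pos h3
  refine ⟨ζ, ?_, by rw [hζ, div_mul_cancel₀ _ hy0]⟩
  apply (algebraMap (kbar k K) (UU k K)).injective
  rw [map_pow, hζ, h3, map_one]

theorem CycE.stabM (h : CycE n c g x z₀ f S y) (σ : UU k K ≃ₐ[kbar k K] UU k K)
    (hσ : ∀ l ∈ LL k K₀ K, σ l = l) : ∀ m ∈ MM k K, σ m ∈ MM k K := by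
  obtain ⟨ζ, -, hζ⟩ := h.exists_zeta σ hσ
  have h1 : MM k K ≤ (MM k K).comap (σ : UU k K →ₐ[kbar k K] UU k K) := by
    conv_lhs => rw [h.MM_eq]
    rw [IntermediateField.adjoin_le_iff]
    rintro w (hw | hw)
    · change σ w ∈ MM k K
      rw [hσ w hw]
      exact LL_le_MM hw
    · rw [Set.mem_singleton_iff] at hw
      rw [hw]
      change σ (toU (k := k) (K := K) y) ∈ MM k K
      rw [hζ]
      exact (MM k K).mul_mem ((MM k K).algebraMap_mem _) (toU_mem y)
  exact fun m hm => h1 hm

theorem CycE.stab (h : CycE n c g x z₀ f S y)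
    (σ : XX (algebraMap K₀ K x) (rootsB K f) ≃ₐ[kbar k K] XX (algebraMap K₀ K x) (rootsB K f))
    (hσ : ∀ l ∈ LL k K₀ K, (σ ⟨l, h.UU_le l.2⟩ : AlgebraicClosure K) = (l : AlgebraicClosure K))
    (z : UU k K) : (σ ⟨z, h.UU_le z.2⟩ : AlgebraicClosure K) ∈ UU k K := by
  have halg : Algebra.IsAlgebraic (IntermediateField.adjoin (kbar k K)
      {xX (algebraMap K₀ K x) (rootsB K f)}) (AlgebraicClosure K) :=
    isAlgebraic_XX h.isFunctionField h.x_tr' _
  have halg2 : Algebra.IsAlgebraic (XX (algebraMap K₀ K x) (rootsB K f)) (AlgebraicClosure K) :=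
    Algebra.IsAlgebraic.tower_top (K := IntermediateField.adjoin (kbar k K)
      {xX (algebraMap K₀ K x) (rootsB K f)}) _
  have hcl : IsAlgClosure (XX (algebraMap K₀ K x) (rootsB K f)) (AlgebraicClosure K) :=
    ⟨inferInstance, halg2⟩
  let ρ : AlgebraicClosure K ≃+* AlgebraicClosure K :=
    IsAlgClosure.equivOfEquiv (AlgebraicClosure K) (AlgebraicClosure K)
      (σ : XX (algebraMap K₀ K x) (rootsB K f) ≃+* XX (algebraMap K₀ K x) (rootsB K f))
  have hρ : ∀ s : XX (algebraMap K₀ K x) (rootsB K f), ρ (s : AlgebraicClosure K) =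
      (σ s : AlgebraicClosure K) := by
    intro s
    exact IsAlgClosure.equivOfEquiv_algebraMap (AlgebraicClosure K) (AlgebraicClosure K)
      (σ : XX (algebraMap K₀ K x) (rootsB K f) ≃+* XX (algebraMap K₀ K x) (rootsB K f)) s
  have hρk : ∀ c : kbar k K, ρ c = c := by
    intro c
    have h1 := hρ (algebraMap (kbar k K) _ c)
    rw [AlgEquiv.commutes] at h1
    exact h1
  have hρL : ∀ w : K₀, ρ (algebraMap K (AlgebraicClosure K) (algebraMap K₀ K w)) =
      algebraMap K (AlgebraicClosure K) (algebraMap K₀ K w) := by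
    intro w
    have h1 := hσ _ (toU_mem_LL (k := k) w)
    rw [← hρ] at h1
    exact h1
  have hy0 : algebraMap K (AlgebraicClosure K) y ≠ 0 := by
    rw [Ne, map_eq_zero]; exact h.y_ne_C5
  have hc0 : algebraMap k (AlgebraicClosure K) c ≠ 0 := by
    rw [Ne, map_eq_zero]; exact h.c_ne
  have heq : algebraMap k (AlgebraicClosure K) c * algebraMap K (AlgebraicClosure K) y ^ n =
      algebraMap K (AlgebraicClosure K) (algebraMap K₀ K g) := by
    rw [IsScalarTower.algebraMap_apply k K (AlgebraicClosure K), ← map_pow, ← map_mul, h.eq]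
  have hρc : ρ (algebraMap k (AlgebraicClosure K) c) = algebraMap k (AlgebraicClosure K) c :=
    hρk (algebraMap k (kbar k K) c)
  have hρy : ρ (algebraMap K (AlgebraicClosure K) y) ^ n =
      algebraMap K (AlgebraicClosure K) y ^ n := by
    have h2 := congrArg ρ heq
    rw [map_mul, map_pow, hρc, hρL, ← heq] at h2
    exact mul_left_cancel₀ hc0 h2
  have h3 : (ρ (algebraMap K (AlgebraicClosure K) y) / algebraMap K (AlgebraicClosure K) y) ^ n =
      1 := by
    rw [div_pow, hρy, div_self (pow_ne_zero _ hy0)]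
  obtain ⟨ζ, hζ⟩ := F2_exists_const_of_pow_eq_one (κ := kbar k K) h.n_pos h3
  have hζ' : ρ (algebraMap K (AlgebraicClosure K) y) =
      algebraMap (kbar k K) (AlgebraicClosure K) ζ * algebraMap K (AlgebraicClosure K) y := by
    rw [hζ, div_mul_cancel₀ _ hy0]
  have hsub : ∀ w : K, algebraMap K (AlgebraicClosure K) w ∈ KK k K := fun w =>
    IntermediateField.subset_adjoin _ _ ⟨w, rfl⟩
  have hK : ∀ w : K, ρ (algebraMap K (AlgebraicClosure K) w) ∈ KK k K := by
    let S0 : IntermediateField K₀ K :=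
      { Subfield.comap ((ρ : AlgebraicClosure K →+* AlgebraicClosure K).comp
          (algebraMap K (AlgebraicClosure K))) (KK k K).toSubfield with
        algebraMap_mem' := fun c => by
          change ρ (algebraMap K (AlgebraicClosure K) (algebraMap K₀ K c)) ∈ KK k K
          rw [hρL]
          exact hsub _ }
    have h1 : IntermediateField.adjoin K₀ {y} ≤ S0 := by
      rw [IntermediateField.adjoin_le_iff, Set.singleton_subset_iff]
      change ρ (algebraMap K (AlgebraicClosure K) y) ∈ KK k K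
      rw [hζ']
      exact (KK k K).mul_mem ((KK k K).algebraMap_mem _) (hsub _)
    rw [h.gen] at h1
    exact fun w => h1 (IntermediateField.mem_top (x := w))
  have hKK : ∀ z ∈ KK k K, ρ z ∈ KK k K := by
    let T0 : IntermediateField (kbar k K) (AlgebraicClosure K) :=
      { Subfield.comap (ρ : AlgebraicClosure K →+* AlgebraicClosure K) (KK k K).toSubfield with
        algebraMap_mem' := fun c => by
          change ρ (c : AlgebraicClosure K) ∈ KK k K
          rw [hρk]
          exact (KK k K).algebraMap_mem c }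
    have h1 : KK k K ≤ T0 := by
      conv_lhs => rw [KK]
      rw [IntermediateField.adjoin_le_iff]
      rintro _ ⟨w, rfl⟩
      exact hK w
    exact fun z hz => h1 hz
  have h4 := F2_map_mem_Kur_of_stab ρ hρk hKK ((mem_UU k K).1 z.2)
  rw [mem_UU, ← hρ]
  exact h4

end

end Pool.Agent.GC
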