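import Pool.Agent.Helper13.GC.C5
import Pool.Agent.Helper13.GC.C2

/-!
# The setup for cyclic covers
-/

universe u

set_option linter.unusedSectionVars false

namespace Pool.Agent.GC

open VC Polynomial Pool.Agent.LT Pool.Agent.SC Pool.Agent.Helper91.Sect Pool.Agent

variable {k₁ k K₀ K : Type u} [Field k₁] [CharZero k₁] [Field k] [Field K₀] [Field K]
  [Algebra k₁ k] [Algebra k K₀] [Algebra k K] [Algebra K₀ K] [IsScalarTower k K₀ K]
  [Algebra k₁ K] [IsScalarTower k₁ k K]
  {n : ℕ} {c : k} {g x z₀ : K₀} {f : k[X]} {S : Finset k} {y : K}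

theorem mem_rootsB {f : k[X]} (hf : f ≠ 0) {b : kbar k K} : b ∈ rootsB K f ↔ aeval b f = 0 := by
  classical
  rw [rootsB, Multiset.mem_toFinset, mem_roots', IsRoot.def, eval_map, aeval_def]
  exact ⟨fun h => h.2, fun h => ⟨Polynomial.map_ne_zero hf, h⟩⟩

/-- The setup. -/
theorem CycE.csetup (h : CycE n c g x z₀ f S y) {W : ValuationSubring (kbar k K)} {t' : kbar k K}
    (hb : Base (algebraicClosure k₁ (kbar k K)) W t') (hf : GoodRed W f) (hk : CharZero k) :
    let _ : Algebra (UU k K) (XX (algebraMap K₀ K x) (rootsB K f)) := algUX h.UU_le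
    CSetup (algebraicClosure k₁ (kbar k K)) (XX (algebraMap K₀ K x) (rootsB K f)) W t'
      (rootsB K f) (toU (k := k) (K := K) (algebraMap K₀ K x)) (LL k K₀ K) (MM k K) := by
  intro iUX
  have hdeg := h.deg
  have hf0 : f ≠ 0 := by
    intro h2
    rw [h2] at hdeg
    simp at hdeg
  have hk0 : CharZero (kbar k K) := charZero_of_injective_algebraMap (algebraMap k _).injective
  have hxX : algebraMap (UU k K) (XX (algebraMap K₀ K x) (rootsB K f)) (toU (k := k) (K := K) (algebraMap K₀ K x)) =
      xX (algebraMap K₀ K x) (rootsB K f) := rfl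
  have htr : Transcendental (kbar k K) (xX (algebraMap K₀ K x) (rootsB K f)) := by
    intro hal
    have h1 : IsAlgebraic (kbar k K) (algebraMap K (AlgebraicClosure K) (algebraMap K₀ K x)) :=
      hal.algHom (XX (algebraMap K₀ K x) (rootsB K f)).val
    have h2 : IsAlgebraic k (algebraMap K (AlgebraicClosure K) (algebraMap K₀ K x)) :=
      h1.restrictScalars k
    exact h.x_tr' ((isAlgebraic_algebraMap_iff (algebraMap K (AlgebraicClosure K)).injective).1 h2)
  refine ⟨⟨hb, ?_, ?_, ?_, ?_, ?_⟩, toU_mem_LL x, LL_le_MM, isCover_UU h.isFunctionField, ?_,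
    h.stabM⟩
  · rw [hxX]; exact htr
  · rw [hxX]; exact isGalois_XX h.isFunctionField h.x_tr' _
  · intro b hb
    exact F2_root_mem_of_lead hf.mem hf.lead hf0 ((mem_rootsB hf0).1 hb)
  · intro b hb b' hb' hne
    by_cases hd : 2 ≤ f.natDegree
    · exact F2_root_diff_of_disc hf.mem hf.lead hf.disc hd ((mem_rootsB hf0).1 hb)
        ((mem_rootsB hf0).1 hb') hne
    · exfalso
      have hd1 : f.natDegree = 1 := by omega
      apply hne
      have h1 := (mem_rootsB hf0).1 hb
      have h2 := (mem_rootsB hf0).1 hb'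
      rw [Polynomial.aeval_eq_sum_range, hd1, Finset.sum_range_succ, Finset.sum_range_one, pow_zero,
        pow_one] at h1 h2
      have h3 : f.coeff 1 ≠ 0 := by
        rw [← hd1]
        exact leadingCoeff_ne_zero.2 hf0
      have h4 : f.coeff 1 • (b - b') = 0 := by
        rw [smul_sub]
        linear_combination h1 - h2
      rcases smul_eq_zero.1 h4 with h5 | h5
      · exact absurd h5 h3
      · exact sub_eq_zero.1 h5
  · intro P hP a ha hPa u hu
    rw [hxX] at hPa ⊢
    exact unr_XX h.isFunctionField h.x_tr' _ P hP ha hPa hu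
  · intro σ hσ z
    refine ⟨⟨_, h.stab σ (fun l hl => ?_) z⟩, ?_⟩
    · have h1 := hσ l hl
      exact congrArg Subtype.val h1
    · rfl

end Pool.Agent.GC
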