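import Pool.Agent.Helper13.GC.C11
import Pool.Agent.Helper13.LG.Core

/-!
# The core of the theorem for cyclic covers: good coordinates
-/

universe u

set_option linter.unusedSectionVars false

namespace Pool.Agent.GC

open VC Polynomial Pool.Agent.LT Pool.Agent.SC Pool.Agent.Helper91.Sect Pool.Agent

section Core

variable {F k K₀ K : Type u} [Field F] [CharZero F] [Field k] [Field K₀] [Field K] [Algebra F k]
  [Algebra k K₀] [Algebra k K] [Algebra K₀ K] [IsScalarTower k K₀ K]
  [Algebra F K] [IsScalarTower F k K]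

/-- **The core theorem.** -/
theorem isGeometric_core [DecidableEq k]
    (hF : ∃ S : Finset F, Subfield.closure (S : Set F) = ⊤)
    (hk : ∃ S : Finset k, Subfield.closure (S : Set k) = ⊤)
    {t u : k} (htu : AlgebraicIndependent F ![t, u]) (hfin : FiniteDimensional (k0 F t u) k)
    {n j : ℕ} {f : k[X]} {S : Finset k} {g x z₀ : K₀} {y : K}
    (hj : ¬ n ∣ j) (hS : CycE n (t ^ j) g x z₀ f S y)
    (hrat : ∀ z : MM k K, IntermediateField.adjoin (kbar k K) {z} ≠ ⊤)
    {Δ : F[X][X]} (hΔ : GoodDisc Δ)
    (hgood : ∀ W : ValuationSubring (kbar k K),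
      (∀ c : F, algebraMap k (kbar k K) (algebraMap F k c) ∈ W) →
      algebraMap k (kbar k K) t ∈ W → algebraMap k (kbar k K) u ∈ W →
      algebraMap k (kbar k K) (ev F t u Δ) ∉ W.nonunits →
      (∀ a ∈ goodElts f 1 ∪ S, algebraMap k (kbar k K) a ∈ W) ∧
        ∀ τ : kbar k K ≃ₐ[k0 F t u] kbar k K, InInert W τ →
          ∀ a : k, τ (algebraMap k (kbar k K) a) = algebraMap k (kbar k K) a)
    (hreg : ∀ τ : kbar k K ≃ₐ[k0 F t u] kbar k K, ∃ τ' ∈ (kM F K t u).fixingSubgroup,
      ∀ w ∈ algebraicClosure (IntermediateField.adjoin F {t0 F t u}) (kbar k K), τ' w = τ w)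
    (s : GaloisSection k K) : IsGeometric s := by
  have hk0 : CharZero k := charZero_of_injective_algebraMap (algebraMap F k).injective
  have hgal := isGalois0 (K := K) hfin
  have ht0 : t ≠ 0 := by
    rintro rfl
    exact transc_F_t htu isAlgebraic_zero
  have hdeg := hS.deg
  have hs := hS.sep
  have hLu0 : CharZero (IntermediateField.adjoin F {u}) :=
    charZero_of_injective_algebraMap (algebraMap F (IntermediateField.adjoin F {u})).injective
  have hLt0 : CharZero (IntermediateField.adjoin F {t}) :=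
    charZero_of_injective_algebraMap (algebraMap F (IntermediateField.adjoin F {t})).injective
  have htu0 := algInd0 htu
  obtain ⟨W, hW0⟩ := exists_atZero (C := kbar k K) htu0
  have hW : AtZero F t u W := by
    refine ⟨fun c hc => ?_, hW0.t_mem⟩
    obtain ⟨c', rfl, hc'⟩ := mem_adjoin0 (F := F) (t := t) (u := u) (v := u)
      (v' := u0 F t u) rfl hc
    exact hW0.const c' hc'
  have hWtop : W ≠ ⊤ := by
    rintro rfl
    have h1 := hW.t_mem
    rw [ValuationSubring.mem_nonunits_iff_or] at h1
    rcases h1 with h1 | h1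
    · rw [map_eq_zero] at h1
      exact ht0 h1
    · exact h1 trivial
  -- the bad place
  obtain ⟨hgW, hinW⟩ := hgood W (fun c => hW.const _ (IntermediateField.algebraMap_mem _ c))
    (ValuationSubring.nonunits_subset hW.t_mem)
    (hW.const _ (IntermediateField.mem_adjoin_simple_self F u)) (atZero_unit htu hΔ hW)
  obtain ⟨hgr, hc1, hc2⟩ := goodRed_of_goodElts (by omega) hs one_ne_zero (fun a ha => hgW a (Finset.mem_union_left _ ha))
  obtain ⟨P, hP, hP1, hPst, hPB⟩ := hS.place_of_bad (k₁ := IntermediateField.adjoin F {u}) s hk hrat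
    (fg_adjoin hF u) t (fin_adjoin0' hfin) hWtop (fun c => hW.const _ c.2) hgr
    (fun a ha => hgW a (Finset.mem_union_right _ ha)) hW.t_mem ht0
    (fun z hz => vals_of_inert (k := k0 F t u) (t0 F t u) (u0 F t u) htu0 (top0 t u) hW0
      ((_root_.map_ne_zero (algebraMap k (kbar k K))).2 hz) (fun τ hτ => hinW τ hτ z))
    (mul_one _).symm hj hc1 hc2
  -- the stabilizer
  let H : Subgroup (kbar k K ≃ₐ[k0 F t u] kbar k K) :=
    (stabP s P).map (AlgEquiv.restrictScalarsHom (k0 F t u))
  have hmemH : ∀ τ : kbar k K ≃ₐ[k0 F t u] kbar k K, ∀ γ : Gk k K, (∀ z, γ z = τ z) →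
      γ ∈ stabP s P → τ ∈ H := by
    intro τ γ h hγ
    exact ⟨γ, hγ, AlgEquiv.ext fun z => h z⟩
  have hH : H = (kM F K t u).fixingSubgroup := by
    refine lefschetz_gen hF (t0 F t u) (u0 F t u) htu0 (top0 t u) hΔ (kM F K t u) H
      (isClosed_restrictScalars _ (isClosed_stabP s P)) ?_ hreg ?_ ?_ hW0 ?_
    · rintro τ ⟨γ, hγ, rfl⟩
      rw [IntermediateField.mem_fixingSubgroup_iff]
      rintro _ ⟨a, rfl⟩
      exact γ.commutes a
    · intro W' hW' τ hτ
      have hconst : ∀ c ∈ IntermediateField.adjoin F {t}, algebraMap k (kbar k K) c ∈ W' := by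
        intro c hc
        obtain ⟨c', rfl, hc'⟩ := mem_adjoin0 (F := F) (t := t) (u := u) (v := t)
          (v' := t0 F t u) rfl hc
        exact hW'.const c' hc'
      have ht' : algebraMap k (kbar k K) t ∈ W' :=
        hconst _ (IntermediateField.mem_adjoin_simple_self F t)
      have ht'' : algebraMap k (kbar k K) t ∉ W'.nonunits := by
        intro h1
        rw [ValuationSubring.mem_nonunits_iff_or] at h1
        rcases h1 with h1 | h1
        · rw [map_eq_zero] at h1
          exact ht0 h1
        · apply h1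
          rw [← map_inv₀]
          exact hconst _ (inv_mem (IntermediateField.mem_adjoin_simple_self F t))
      have hunit : algebraMap k (kbar k K) (ev F t u Δ) ∉ W'.nonunits := by
        rw [← ev0]
        exact hW'.unit
      obtain ⟨hg', hin'⟩ := hgood W' (fun c => hconst _ (IntermediateField.algebraMap_mem _ c)) ht'
        hW'.u_mem hunit
      obtain ⟨hgr', hc1', hc2'⟩ := goodRed_of_goodElts (by omega) hs one_ne_zero
        (fun a ha => hg' a (Finset.mem_union_left _ ha))
      obtain ⟨γ, hγ⟩ := exists_gk (F := F) (hin' τ hτ)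
      refine hmemH τ γ hγ fun z => ?_
      have hγI : InInert W' γ := by
        refine ⟨fun z => ?_, fun z hz => ?_⟩
        · rw [hγ]; exact hτ.1 z
        · rw [hγ]; exact hτ.2 z hz
      refine hS.fixes_of_good (k₁ := IntermediateField.adjoin F {t}) s (fg_adjoin hF t) u
        (fin_adjoin0 hfin) hW'.ne_top (fun c => hconst _ c.2) hgr'
        (fun a ha => hg' a (Finset.mem_union_right _ ha)) ?_ ?_ hP hP1 hPB hγI z
      · rw [map_pow]
        exact pow_mem ht' _
      · rw [map_pow]
        exact pow_notMem_nonunits ht'' j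
    · intro W' hW' τ hτ
      have hconst : ∀ c ∈ IntermediateField.adjoin F {u}, algebraMap k (kbar k K) c ∈ W' := by
        intro c hc
        obtain ⟨c', rfl, hc'⟩ := mem_adjoin0 (F := F) (t := t) (u := u) (v := u)
          (v' := u0 F t u) rfl hc
        exact hW'.const c' hc'
      have hu' : algebraMap k (kbar k K) u ∈ W' :=
        hconst _ (IntermediateField.mem_adjoin_simple_self F u)
      have ht' : algebraMap k (kbar k K) t ∈ W' := hW'.t_mem
      have ht'' : algebraMap k (kbar k K) t ∉ W'.nonunits := hW'.t_unit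
      have hunit : algebraMap k (kbar k K) (ev F t u Δ) ∉ W'.nonunits := by
        rw [← ev0]
        exact hW'.unit
      obtain ⟨hg', hin'⟩ := hgood W' (fun c => hconst _ (IntermediateField.algebraMap_mem _ c)) ht'
        hu' hunit
      obtain ⟨hgr', hc1', hc2'⟩ := goodRed_of_goodElts (by omega) hs one_ne_zero
        (fun a ha => hg' a (Finset.mem_union_left _ ha))
      obtain ⟨γ, hγ⟩ := exists_gk (F := F) (hin' τ hτ)
      refine hmemH τ γ hγ fun z => ?_
      have hγI : InInert W' γ := by
        refine ⟨fun z => ?_, fun z hz => ?_⟩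
        · rw [hγ]; exact hτ.1 z
        · rw [hγ]; exact hτ.2 z hz
      refine hS.fixes_of_good (k₁ := IntermediateField.adjoin F {u}) s (fg_adjoin hF u) t
        (fin_adjoin0' hfin) hW'.ne_top (fun c => hconst _ c.2) hgr'
        (fun a ha => hg' a (Finset.mem_union_right _ ha)) ?_ ?_ hP hP1 hPB hγI z
      · rw [map_pow]
        exact pow_mem ht' _
      · rw [map_pow]
        exact pow_notMem_nonunits ht'' j
    · intro τ hτ hτW
      rw [IntermediateField.mem_fixingSubgroup_iff] at hτ
      obtain ⟨γ, hγ⟩ := exists_gk (F := F) (fun a => hτ _ (mem_kM a))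
      refine hmemH τ γ hγ (hPst γ fun z => ?_)
      rw [hγ]; exact hτW z
  refine isGeometric_of_place hS.isFunctionField s hP hP1 fun γ z => ?_
  have h1 : AlgEquiv.restrictScalarsHom (k0 F t u) γ ∈ H := by
    rw [hH, IntermediateField.mem_fixingSubgroup_iff]
    rintro _ ⟨a, rfl⟩
    exact γ.commutes a
  obtain ⟨γ', hγ', h2⟩ := h1
  have h3 : γ' = γ := AlgEquiv.ext fun z => congrArg (fun φ : kbar k K ≃ₐ[k0 F t u] kbar k K => φ z) h2
  rw [← h3]
  exact hγ' z

end Core

end Pool.Agent.GC
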