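import Pool.Agent.Helper13.LG.G10

/-!
# Block GC-E1: the base field, for several variables

Adapt the proof of `exists_base_field` (LG/G10.lean).  Let `L = ℚ(t₀, …, t_{r+1})`, `s` a finite transcendence
basis of `k / L`, `A` = the set of the `t_i` with `i ≥ 2`, `E₀ = ℚ(s ∪ A)`, `F` = the algebraic closure
of `E₀` in `k`.  `t₀, t₁` are algebraically independent over `E₀` because `t₀, …, t_{r+1}` and `s` together are
algebraically independent over `ℚ` (reindex `Fin (r + 2) ⊕ s` as `Fin 2 ⊕ (Fin r ⊕ s)`).
The rest of the proof is the same, with `s` replaced by `s ∪ A`.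
-/

universe u

namespace Pool.Agent.GC

open Polynomial Pool.Agent.LT

theorem exists_base_fieldR {k : Type u} [Field k] [CharZero k]
    (hk : ∃ S : Finset k, Subfield.closure (S : Set k) = ⊤) {r : ℕ} {t : Fin (r + 2) → k}
    (ht : AlgebraicIndependent ℚ t) :
    ∃ F : Subfield k, (∃ S : Finset F, Subfield.closure (S : Set F) = ⊤) ∧
      (∀ z : k, IsAlgebraic F z → z ∈ F) ∧ AlgebraicIndependent F ![t 0, t 1] ∧
      FiniteDimensional (IntermediateField.adjoin F {t 0, t 1}) k ∧
      ∀ i : Fin r, t i.succ.succ ∈ F := by
  classical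
  have hrange : Set.range ![t 0, t 1] = {t 0, t 1} := by
    simp only [Matrix.range_cons, Matrix.range_empty, Set.union_empty, Set.singleton_union]
  -- `k` is essentially of finite type over `ℚ`
  have hess : Algebra.EssFiniteType ℚ k := by
    obtain ⟨S, hS⟩ := hk
    rw [← IntermediateField.fg_top_iff]
    refine ⟨S, ?_⟩
    rw [eq_top_iff]
    intro z _
    have hz : z ∈ Subfield.closure (S : Set k) := by rw [hS]; trivial
    exact (Subfield.closure_le (t := (IntermediateField.adjoin ℚ (S : Set k)).toSubfield)).2
      (IntermediateField.subset_adjoin ℚ (S : Set k)) hz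
  set L := IntermediateField.adjoin ℚ (Set.range t) with hL
  have hessL : Algebra.EssFiniteType L k := Algebra.EssFiniteType.of_comp ℚ L k
  obtain ⟨s₀, hs⟩ := exists_finset_isTranscendenceBasis L k
  set s : Finset k := Finset.univ.image (fun i : Fin r => t i.succ.succ) ∪ s₀ with hsdef
  have hsA : ∀ i : Fin r, t i.succ.succ ∈ s := fun i =>
    Finset.mem_union_left _ (Finset.mem_image.2 ⟨i, Finset.mem_univ _, rfl⟩)
  have hs₀ : ∀ z ∈ s₀, z ∈ s := fun z hz => Finset.mem_union_right _ hz
  set E₀ := IntermediateField.adjoin ℚ (s : Set k) with hE₀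
  have hind : AlgebraicIndependent E₀ ![t 0, t 1] := by
    have h1 : AlgebraicIndependent (Algebra.adjoin ℚ (Set.range t)) ((↑) : s₀ → k) :=
      IntermediateField.algebraicIndependent_adjoin_iff.1 hs.1
    have h2 := ht.sumElim h1
    let φ : Fin 2 ⊕ (Fin r ⊕ s₀) → s₀ ⊕ Fin (r + 2) :=
      Sum.elim (fun i => Sum.inr (Fin.castLE (by omega) i))
        (Sum.elim (fun i => Sum.inr i.succ.succ) Sum.inl)
    have hφ : Function.Injective φ := by
      rintro (i | i | i) (j | j | j) hij
      · simp only [φ, Sum.elim_inl, Sum.inr.injEq] at hij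
        rw [Fin.castLE_injective _ hij]
      · simp only [φ, Sum.elim_inl, Sum.elim_inr, Sum.inr.injEq] at hij
        have := congrArg Fin.val hij
        simp only [Fin.val_castLE, Fin.val_succ] at this
        have := i.2
        omega
      · simp [φ] at hij
      · simp only [φ, Sum.elim_inl, Sum.elim_inr, Sum.inr.injEq] at hij
        have := congrArg Fin.val hij
        simp only [Fin.val_castLE, Fin.val_succ] at this
        have := j.2
        omega
      · simp only [φ, Sum.elim_inl, Sum.elim_inr, Sum.inr.injEq, Fin.succ_inj] at hij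
        rw [hij]
      · simp [φ] at hij
      · simp [φ] at hij
      · simp [φ] at hij
      · simp only [φ, Sum.elim_inr, Sum.inl.injEq] at hij
        rw [hij]
    have h3 : AlgebraicIndependent ℚ
        (Sum.elim ![t 0, t 1] (Sum.elim (fun i : Fin r => t i.succ.succ) ((↑) : s₀ → k))) := by
      have h4 := h2.comp φ hφ
      have e : (Sum.elim ((↑) : s₀ → k) t) ∘ φ =
          Sum.elim ![t 0, t 1] (Sum.elim (fun i : Fin r => t i.succ.succ) ((↑) : s₀ → k)) := by
        funext i
        rcases i with i | i | i
        · fin_cases i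
          · rfl
          · rfl
        · rfl
        · rfl
      rw [← e]
      exact h4
    have h4 := (AlgebraicIndependent.sumElim_iff.1 h3).2
    have h5 : Set.range (Sum.elim (fun i : Fin r => t i.succ.succ) ((↑) : s₀ → k)) = (s : Set k) := by
      rw [Set.Sum.elim_range]
      ext z
      simp [hsdef]
    rw [h5] at h4
    exact IntermediateField.algebraicIndependent_adjoin_iff.2 h4
  have hindF := hind.algebraicClosure
  -- `k` is algebraic over every subfield containing `t 0`, `t 1`, `s`
  have halg : ∀ (M : Subfield k), t 0 ∈ M → t 1 ∈ M → (s : Set k) ⊆ M → Algebra.IsAlgebraic M k := by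
    intro M ht0 hu hsM
    have h1 : Algebra.IsAlgebraic (Algebra.adjoin L (Set.range ((↑) : s₀ → k))) k := hs.isAlgebraic
    have h5 : Set.range ((↑) : s₀ → k) = (s₀ : Set k) := by
      ext z; simp
    rw [h5] at h1
    have htM : ∀ i, t i ∈ M := by
      intro i
      refine Fin.cases ht0 (fun j => ?_) i
      have hu' : t (Fin.succ 0) ∈ M := by
        rw [Fin.succ_zero_eq_one]
        exact hu
      exact Fin.cases (motive := fun j : Fin (r + 1) => t j.succ ∈ M) hu'
        (fun j => hsM (hsA j)) j
    have hLM : L.toSubfield ≤ M := by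
      have : L ≤ (Subfield.toIntermediateField M (fun x => by simp)) := by
        rw [hL, IntermediateField.adjoin_le_iff]
        rintro z ⟨i, rfl⟩
        exact htM i
      exact this
    have hAM : ∀ z ∈ Algebra.adjoin L (s₀ : Set k), z ∈ M := by
      intro z hz
      induction hz using Algebra.adjoin_induction with
      | mem x hx => exact hsM (hs₀ x hx)
      | algebraMap r => exact hLM r.2
      | add x y _ _ hx hy => exact M.add_mem hx hy
      | mul x y _ _ hx hy => exact M.mul_mem hx hy
    refine ⟨fun z => ?_⟩
    obtain ⟨p, hp0, hp⟩ := h1.isAlgebraic z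
    let f : Algebra.adjoin L (s₀ : Set k) →+* M :=
      { toFun := fun z => ⟨z, hAM z z.2⟩
        map_one' := rfl
        map_mul' := fun _ _ => rfl
        map_zero' := rfl
        map_add' := fun _ _ => rfl }
    have hf : Function.Injective f := by
      intro a b hab
      exact Subtype.ext (congrArg (fun z : M => (z : k)) hab)
    refine ⟨p.map f, ?_, ?_⟩
    · rw [Ne, Polynomial.map_eq_zero_iff hf]
      exact hp0
    · rw [Polynomial.aeval_def, Polynomial.eval₂_map]
      rw [Polynomial.aeval_def] at hp
      exact hp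
  have hfin1 : FiniteDimensional (IntermediateField.adjoin E₀ (Set.range ![t 0, t 1])) k := by
    have h1 : Algebra.IsAlgebraic (IntermediateField.adjoin E₀ (Set.range ![t 0, t 1])) k := by
      refine halg (IntermediateField.adjoin E₀ (Set.range ![t 0, t 1])).toSubfield ?_ ?_ ?_
      · exact IntermediateField.subset_adjoin _ _ ⟨0, rfl⟩
      · exact IntermediateField.subset_adjoin _ _ ⟨1, rfl⟩
      · intro z hz
        exact (IntermediateField.adjoin E₀ (Set.range ![t 0, t 1])).algebraMap_mem
          ⟨z, IntermediateField.subset_adjoin ℚ _ hz⟩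
    have h2 : Algebra.EssFiniteType (IntermediateField.adjoin E₀ (Set.range ![t 0, t 1])) k :=
      Algebra.EssFiniteType.of_comp ℚ _ k
    exact Algebra.finite_of_essFiniteType_of_isAlgebraic
  have hfinF : FiniteDimensional E₀ (algebraicClosure E₀ k) := finite_of_finite_adjoin _ hindF
  refine ⟨(algebraicClosure E₀ k).toSubfield, ?_, ?_, hindF, ?_, ?_⟩
  · set F := (algebraicClosure E₀ k).toSubfield with hF
    have : Module.Free E₀ (algebraicClosure E₀ k) := Module.Free.of_divisionRing _ _
    set b := Module.finBasis E₀ (algebraicClosure E₀ k) with hb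
    have hsF : ∀ z ∈ s, z ∈ F := fun z hz =>
      (algebraicClosure E₀ k).algebraMap_mem ⟨z, IntermediateField.subset_adjoin ℚ _ hz⟩
    refine ⟨s.attach.image (fun z : s => (⟨(z : k), hsF z z.2⟩ : F)) ∪ Finset.univ.image (fun i => (b i : F)),
      ?_⟩
    rw [eq_top_iff]
    intro z _
    set C := Subfield.closure (((s.attach.image (fun z : s => (⟨(z : k), hsF z z.2⟩ : F)) ∪
      Finset.univ.image (fun i => (b i : F)) : Finset F)) : Set F) with hC
    have hE : ∀ w ∈ E₀, ∀ hw : w ∈ F, (⟨w, hw⟩ : F) ∈ C := by
      have : E₀ ≤ (Subfield.toIntermediateField (C.map F.subtype) (fun x => by simp)) := by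
        rw [hE₀, IntermediateField.adjoin_le_iff]
        intro w hw
        refine ⟨⟨w, hsF w hw⟩, Subfield.subset_closure ?_, rfl⟩
        rw [Finset.coe_union]
        left
        rw [Finset.mem_coe, Finset.mem_image]
        exact ⟨⟨w, hw⟩, Finset.mem_attach _ _, rfl⟩
      intro w hw hwF
      obtain ⟨w', hw', hw2⟩ := this hw
      have : w' = ⟨w, hwF⟩ := Subtype.ext hw2
      rw [← this]
      exact hw'
    have hz := b.sum_repr z
    have hz' : z = ∑ i, (⟨(b.repr z i : k), (algebraicClosure E₀ k).algebraMap_mem (b.repr z i)⟩ : F) *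
        (b i : F) := by
      exact hz.symm
    rw [hz']
    refine C.sum_mem fun i _ => C.mul_mem (hE _ (b.repr z i).2 _) (Subfield.subset_closure ?_)
    rw [Finset.coe_union]
    right
    rw [Finset.mem_coe, Finset.mem_image]
    exact ⟨i, Finset.mem_univ _, rfl⟩
  · intro z hz
    have h1 : IsAlgebraic (algebraicClosure E₀ k) z := hz
    have h2 : IsAlgebraic E₀ z := h1.restrictScalars E₀
    exact mem_algebraicClosure_iff.2 h2
  · have h1 : Algebra.IsAlgebraic
        (IntermediateField.adjoin (algebraicClosure E₀ k).toSubfield {t 0, t 1}) k := by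
      refine halg (IntermediateField.adjoin (algebraicClosure E₀ k).toSubfield {t 0, t 1}).toSubfield
        ?_ ?_ ?_
      · exact IntermediateField.subset_adjoin _ _ (by simp)
      · exact IntermediateField.subset_adjoin _ _ (by simp)
      · intro z hz
        exact (IntermediateField.adjoin (algebraicClosure E₀ k).toSubfield {t 0, t 1}).algebraMap_mem
          ⟨z, (algebraicClosure E₀ k).algebraMap_mem ⟨z, IntermediateField.subset_adjoin ℚ _ hz⟩⟩
    have h2 : Algebra.EssFiniteType
        (IntermediateField.adjoin (algebraicClosure E₀ k).toSubfield {t 0, t 1}) k :=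
      Algebra.EssFiniteType.of_comp ℚ _ k
    exact Algebra.finite_of_essFiniteType_of_isAlgebraic
  · intro i
    exact (algebraicClosure E₀ k).algebraMap_mem
      ⟨t i.succ.succ, IntermediateField.subset_adjoin ℚ _ (hsA i)⟩

end Pool.Agent.GC
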