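import Pool.Agent.Helper13.GC.D3
import Pool.Agent.Helper13.GC.C4
import Pool.Agent.Helper13.GC.E1
import Pool.Agent.Helper13.GC.E2
import Pool.Agent.Helper13.LG.H4

/-!
# 100 percent of the twists of every cyclic cover
-/

universe u

namespace Pool.Agent.GC

open VC Polynomial Pool.Agent.LT Pool.Agent.SC Pool.Agent.Helper91.Sect Pool.Agent

/-- **100 percent of the twists satisfy the section conjecture.** -/
theorem goodTwist_percent {k K₀ : Type u} [Field k] [CharZero k] [Field K₀] [Algebra k K₀]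
    (hk : ∃ S : Finset k, Subfield.closure (S : Set k) = ⊤) {r : ℕ} {t : Fin (r + 2) → k}
    (ht : AlgebraicIndependent ℚ t) (hK₀ : IsFunctionField k K₀) {g : K₀} (hg : g ≠ 0)
    {m : ℕ} (hm : 1 ≤ m) :
    ∃ C : ℕ, ∀ H : ℕ,
      {a : IdxR (r + 2) m → ℤ | (∀ i, |a i| ≤ H) ∧ ¬ GoodTwist g (valR t a)}.ncard ≤
        C * (2 * H + 1) ^ (Fintype.card (IdxR (r + 2) m) - 1) := by
  classical
  obtain ⟨F, hFfg, hFalg, htuF, hfin, htF⟩ := exists_base_fieldR hk ht
  have hF0 : CharZero F := (algebraMap F k).charZero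
  obtain ⟨x, z₀, f, S₀, hx, hgen, hdeg, hsep, hgood⟩ := exists_goodPoly hK₀ hg
  have hc : Coord g x z₀ f S₀ := ⟨hg, hK₀, hx, hgen, hdeg, hsep, hgood⟩
  obtain ⟨N₀, hN₀⟩ := goodTwist_unif hFfg hk htuF hfin (fun z hz => ⟨⟨z, hFalg z hz⟩, rfl⟩) hc m
  have h01 : r01 r hm ≠ r00 r m := by
    intro h
    have h1 := congrArg (fun p : IdxR (r + 2) m => (p.1 1 : ℕ)) h
    simp only [r01, r00, if_true] at h1
    exact absurd h1 one_ne_zero
  have h02 : r01 r hm ≠ rm0 r m := by
    intro h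
    have h1 := congrArg (fun p : IdxR (r + 2) m => (p.1 1 : ℕ)) h
    simp only [r01, rm0, if_true] at h1
    have h2 : (1 : Fin (r + 2)) ≠ 0 := by simp
    rw [if_neg h2] at h1
    exact absurd h1 one_ne_zero
  have h12 : r00 r m ≠ rm0 r m := by
    intro h
    have h1 := congrArg (fun p : IdxR (r + 2) m => (p.1 0 : ℕ)) h
    simp only [r00, rm0, if_true] at h1
    have h2 : (0 : ℕ) = m := h1
    omega
  refine ⟨2 * N₀ + 1, fun H => ?_⟩
  refine count_bad h01 h02 h12 {a | ¬ GoodTwist g (valR t a)} N₀ (fun a ha => ?_) H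
  set a₀ := Function.update (Function.update a (r01 r hm) 0) (r00 r m) 0 with ha₀
  have ha₀m : a₀ (rm0 r m) ≠ 0 := by
    rw [ha₀, Function.update_of_ne h12.symm, Function.update_of_ne h02.symm]
    exact ha
  obtain ⟨d, hdm, hd1, hlc, hdv⟩ := exists_polR (F := F) t (fun i => ⟨_, htF i⟩) (fun _ => rfl)
    a₀ ha₀m
  obtain ⟨S, hSc, hS⟩ := hN₀ d hdm (by rw [hd1]; exact hm) hlc
  let i : ℤ ↪ F := ⟨fun a => ((-a : ℤ) : F), fun a b hab => by
    have h1 : ((-a : ℤ) : F) = ((-b : ℤ) : F) := hab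
    have h2 := Int.cast_injective h1
    omega⟩
  refine ⟨S.preimage i i.injective.injOn, ?_, fun α hα => ?_⟩
  · exact (Finset.card_le_card_of_injOn i (fun z hz => Finset.mem_preimage.1 hz)
      i.injective.injOn).trans hSc
  rw [Finset.mem_preimage] at hα
  obtain ⟨T, hTc, hT⟩ := hS (i α) hα
  refine ⟨T.preimage i i.injective.injOn, ?_, fun β hβ => ?_⟩
  · exact (Finset.card_le_card_of_injOn i (fun z hz => Finset.mem_preimage.1 hz)
      i.injective.injOn).trans hTc
  rw [Finset.mem_preimage] at hβ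
  have h3 := hT (i β) hβ
  rw [Set.mem_ofPred_eq, not_not]
  rw [valR_update, ← ha₀]
  have h4 : ev F (t 1) (t 0) d - algebraMap F k (i α) * t 1 - algebraMap F k (i β) =
      valR t a₀ + α * t 1 + β := by
    rw [hdv]
    have h5 : algebraMap F k (i α) = -(α : k) := by
      change algebraMap F k ((-α : ℤ) : F) = _
      rw [map_intCast]
      push_cast
      rfl
    have h6 : algebraMap F k (i β) = -(β : k) := by
      change algebraMap F k ((-β : ℤ) : F) = _
      rw [map_intCast]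
      push_cast
      rfl
    rw [h5, h6]
    ring
  rwa [h4] at h3

end Pool.Agent.GC
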