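import Pool.Agent.Helper13.LT.Defs3

/-!
# GC: covers of the line which need not be Galois: definitions

`X / K(x)` is a Galois extension, unramified at the finite places outside `B`.  `U` is a
subextension of `X` which contains `M`, and `U / M` is a maximal unramified extension; `L ≤ M` is a
field such that `M / L` and `U / L` are normal.  (In the application: `K` is the algebraic closure of
`k`, `X` the maximal extension of `K(x)` unramified at the finite places outside `B`, `L = K K₀`,
`M = K K₀(y)` with `y ^ n ∈ k K₀`, and `U` the maximal unramified extension of `M`.)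
-/

universe u

namespace Pool.Agent.GC

open VC Polynomial Pool.Agent.LT Pool.Agent

/-- `X` is a Galois extension of `K(x)`, unramified at the finite places outside the finite set
`B` of elements of `O` with distinct residues. -/
structure XSetup (E : Type u) {K X : Type u} [Field E] [Field K] [Algebra E K] [Field X]
    [Algebra K X] (O : ValuationSubring K) (t : K) (B : Finset K) (x : X) : Prop where
  base : Base E O t
  tr : Transcendental K x
  gal : IsGalois (IntermediateField.adjoin K {x}) X
  B_mem : ∀ b ∈ B, b ∈ O
  B_diff : ∀ b ∈ B, ∀ b' ∈ B, b ≠ b' → b - b' ∉ O.nonunits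
  unr : ∀ P : ValuationSubring X, (∀ c : K, algebraMap K X c ∈ P) → ∀ a : K, a ∉ B →
    x - algebraMap K X a ∈ P.nonunits → ∀ u : X, u ≠ 0 → ∃ j : ℤ,
      P.valuation u = P.valuation (x - algebraMap K X a) ^ j

/-- `U ⊆ X` is a maximal unramified extension of `M`, and `M` and `U` are normal over `L ∋ x`. -/
structure CSetup (E : Type u) {K : Type u} (X : Type u) {U : Type u} [Field E] [Field K]
    [Algebra E K] [Field X] [Algebra K X] [Field U] [Algebra K U] [Algebra U X]
    (O : ValuationSubring K) (t : K) (B : Finset K) (x : U)
    (L M : IntermediateField K U) : Prop where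
  set : XSetup E O t B (algebraMap U X x)
  x_mem : x ∈ L
  le : L ≤ M
  cover : SC.IsCover M
  stab : ∀ g : X ≃ₐ[K] X, (∀ l ∈ L, g (algebraMap U X l) = algebraMap U X l) →
    ∀ z : U, ∃ w : U, g (algebraMap U X z) = algebraMap U X w
  stabM : ∀ g : U ≃ₐ[K] U, (∀ l ∈ L, g l = l) → ∀ m ∈ M, g m ∈ M

end Pool.Agent.GC
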