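import Pool.Agent.Helper13.GC.S1
import Pool.Agent.SC.G5
import Pool.Agent.SC.FU
import Pool.Agent.SC.CoverKur0

/-!
# The place fixed by the decomposition group (adapted from LT/S2)
-/

universe u

namespace Pool.Agent.GC

open VC Polynomial Pool.Agent.LT Pool.Agent.SC Pool.Agent

variable {E K X U Γ : Type u} [Field E] [IsAlgClosed E] [CharZero E] [Field K] [IsAlgClosed K]
  [Algebra E K] [Field X] [Algebra K X] [Algebra E X] [IsScalarTower E K X] [Field U]
  [Algebra K U] [Algebra E U] [IsScalarTower E K U] [Algebra U X] [IsScalarTower K U X]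
  [IsScalarTower E U X] [Group Γ]
  {O : ValuationSubring K} {t : K} {x : U} {B : Finset K} {L M : IntermediateField K U}
  {V : ValuationSubring U} {a : Γ →* (U ≃+* U)} {φ : Γ →* (K ≃+* K)} {D I : Subgroup Γ}

/-- The places of `U` above the points outside `B` are unramified over `K(x)`. -/
theorem CSetup.unr (hu : CSetup E X O t B x L M) {P : ValuationSubring U}
    (hP : ∀ c : K, algebraMap K U c ∈ P) {b : K} (hb : b ∉ B)
    (hx : x - algebraMap K U b ∈ P.nonunits) {u : U} (hu0 : u ≠ 0) :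
    ∃ j : ℤ, P.valuation u = P.valuation (x - algebraMap K U b) ^ j := by
  obtain ⟨P', hP'⟩ := SC.exists_comap_eq (algebraMap U X) P
  have hcomap : P'.comap (algebraMap U X) = P := by
    ext z
    exact hP' z
  obtain ⟨j, hj⟩ := hu.set.unr P' (fun c => by
    rw [IsScalarTower.algebraMap_apply K U X, hP']
    exact hP c) b hb (by
    rw [IsScalarTower.algebraMap_apply K U X, ← map_sub, ← comap_nonunits, hcomap]
    exact hx) (algebraMap U X u) ((_root_.map_ne_zero _).2 hu0)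
  refine ⟨j, ?_⟩
  rw [← map_zpow₀]
  refine SC.val_eq_of_map (algebraMap U X) hP' ?_
  have h1 : algebraMap U X ((x - algebraMap K U b) ^ j) =
      (algebraMap U X x - algebraMap K X b) ^ j := by
    rw [map_zpow₀, map_sub, ← IsScalarTower.algebraMap_apply K U X]
  rw [hj, h1, map_zpow₀]

private theorem phi_const38 (ha : LocAct E O M x a φ D I) (hb : Base E O t) {τ : Γ} (hτ : τ ∈ I)
    (e : E) : φ τ (algebraMap E K e) = algebraMap E K e := by
  obtain ⟨e', he'⟩ := ha.const τ e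
  have h1 := ha.inert τ hτ _ (hb.const e)
  rw [he', ← map_sub] at h1
  by_cases h : e' - e = 0
  · rw [he', sub_eq_zero.1 h]
  · exfalso
    rw [ValuationSubring.mem_nonunits_iff_or] at h1
    rcases h1 with h1 | h1
    · exact h ((map_eq_zero _).1 h1)
    · apply h1
      rw [← map_inv₀]
      exact hb.const _

private theorem lt_iff38 {V : ValuationSubring U} (f : U ≃+* U) (hst : ∀ z, f z ∈ V ↔ z ∈ V)
    (z : U) : V.valuation (f z) < 1 ↔ V.valuation z < 1 := by
  rw [← ValuationSubring.mem_nonunits_iff, ← ValuationSubring.mem_nonunits_iff,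
    ValuationSubring.mem_nonunits_iff_or, ValuationSubring.mem_nonunits_iff_or, ← map_inv₀, hst,
    map_eq_zero_iff f f.injective]

/-- automorphisms over `K(x)` preserve `V` -/
private theorem gst38 (hu : CSetup E X O t B x L M) (hV : Gauss E O x V) (g : U ≃ₐ[K] U)
    (hgx : g x = x) (z : U) : g z ∈ V ↔ z ∈ V :=
  hu.stable hV g.toRingEquiv (RingEquiv.refl K) (fun c => g.commutes c) (fun _ => Iff.rfl) hgx z

private theorem glt38 (hu : CSetup E X O t B x L M) (hV : Gauss E O x V) (g : U ≃ₐ[K] U)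
    (hgx : g x = x) (z : U) : V.valuation (g z) < 1 ↔ V.valuation z < 1 :=
  lt_iff38 g.toRingEquiv (gst38 hu hV g hgx) z

/-- inertia elements are congruent to automorphisms over `K(x)` -/
private theorem lift38 (ha : LocAct E O M x a φ D I) (hu : CSetup E X O t B x L M)
    (hV : Gauss E O x V) (hL : ∀ τ ∈ I, ∀ z ∈ V, z ∈ L → a τ z - z ∈ V.nonunits)
    {τ : Γ} (hτ : τ ∈ I) :
    ∃ g : U ≃ₐ[K] U, (∀ l ∈ L, g l = l) ∧ ∀ z ∈ V, V.valuation (g z - a τ z) < 1 := by
  have hst : ∀ z, a τ z ∈ V ↔ z ∈ V := stableC ha hu hV (ha.le hτ)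
  let R := IsLocalRing.ResidueField V
  let f : E →+* V := (algebraMap E U).codRestrict V.toSubring (fun e => by
    rw [IsScalarTower.algebraMap_apply E K U]
    exact (hV.mem_iff _).2 (hu.set.base.const e))
  let π : V →+* R := IsLocalRing.residue V
  let _ : Algebra E R := (π.comp f).toAlgebra
  have hR : Res E V π :=
    { surj := IsLocalRing.residue_surjective
      ker := fun z => by
        rw [ValuationSubring.coe_mem_nonunits_iff]
        exact IsLocalRing.residue_eq_zero_iff z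
      const := fun e z hz => by
        change π z = π (f e)
        congr 1
        exact Subtype.ext hz }
  let e : V ≃+* V :=
    { toFun := fun z => ⟨a τ z, (hst z).2 z.2⟩
      invFun := fun z => ⟨(a τ).symm z, (hst _).1 (by rw [RingEquiv.apply_symm_apply]; exact z.2)⟩
      left_inv := fun z => Subtype.ext ((a τ).symm_apply_apply _)
      right_inv := fun z => Subtype.ext ((a τ).apply_symm_apply _)
      map_mul' := fun z w => Subtype.ext (map_mul (a τ) _ _)
      map_add' := fun z w => Subtype.ext (map_add (a τ) _ _) }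
  have he : ∀ z : V, IsLocalRing.ResidueField.mapEquiv e (π z) = π (e z) := fun z => rfl
  let ρ : R ≃ₐ[E] R := AlgEquiv.ofRingEquiv (f := IsLocalRing.ResidueField.mapEquiv e) (fun c => by
    change IsLocalRing.ResidueField.mapEquiv e (π (f c)) = π (f c)
    rw [he]
    congr 1
    apply Subtype.ext
    change a τ (algebraMap E U c) = algebraMap E U c
    rw [IsScalarTower.algebraMap_apply E K U, ha.ext, phi_const38 ha hu.set.base hτ])
  have hρ : ∀ z : V, ρ (π z) = π (e z) := fun z => rfl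
  obtain ⟨g, hgL, hg⟩ := hu.exists_induces_over hV hR L le_rfl ρ (by
    rintro _ ⟨z, hzL, rfl⟩
    rw [hρ]
    have h1 : π (e z - z) = 0 := (hR.ker _).2 (hL τ hτ z z.2 hzL)
    rwa [map_sub, sub_eq_zero] at h1)
  have hgx : g x = x := hgL x hu.x_mem
  refine ⟨g, hgL, fun z hz => ?_⟩
  have h1 := hg ⟨z, hz⟩ ⟨g z, (gst38 hu hV g hgx z).2 hz⟩ rfl
  rw [hρ] at h1
  have h2 : π (⟨g z, (gst38 hu hV g hgx z).2 hz⟩ - e ⟨z, hz⟩) = 0 := by
    rw [map_sub, h1, sub_self]
  have h3 := (hR.ker _).1 h2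
  rw [ValuationSubring.mem_nonunits_iff] at h3
  exact h3

/-- congruent automorphisms are equal -/
private theorem eq38 (hu : CSetup E X O t B x L M) (hV : Gauss E O x V) {g g' : U ≃ₐ[K] U}
    (hg : g x = x) (hg' : g' x = x) (h : ∀ z ∈ V, V.valuation (g z - g' z) < 1) : g = g' := by
  have hgi : g'⁻¹ x = x := by
    conv_lhs => rw [← hg']
    change (g'⁻¹ * g') x = x
    rw [inv_mul_cancel]
    rfl
  have hx : (g'⁻¹ * g) x = x := by rw [AlgEquiv.mul_apply, hg, hgi]
  have h1 := hu.fixes_of_residue hV (g'⁻¹ * g) hx ⊤ trivial (fun z hz _ => by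
    have e1 : (g'⁻¹ * g) z - z = g'⁻¹ (g z - g' z) := by
      rw [map_sub, AlgEquiv.mul_apply]
      congr 1
      change z = (g'⁻¹ * g') z
      rw [inv_mul_cancel]
      rfl
    rw [e1, ValuationSubring.mem_nonunits_iff, glt38 hu hV _ hgi]
    exact h z hz)
  have h2 : g'⁻¹ * g = 1 := AlgEquiv.ext fun z => h1 z trivial
  rw [inv_mul_eq_one] at h2
  exact h2.symm

private theorem pow38 (ha : LocAct E O M x a φ D I) (hu : CSetup E X O t B x L M)
    (hV : Gauss E O x V) {τ : Γ} (hτ : τ ∈ I) {g : U ≃ₐ[K] U} (hgL : ∀ l ∈ L, g l = l)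
    (hg : ∀ z ∈ V, V.valuation (g z - a τ z) < 1) (n : ℕ) :
    (∀ l ∈ L, (g ^ n) l = l) ∧ ∀ z ∈ V, V.valuation ((g ^ n) z - a (τ ^ n) z) < 1 := by
  have hgx : g x = x := hgL x hu.x_mem
  induction n with
  | zero =>
    refine ⟨fun _ _ => rfl, fun z _ => ?_⟩
    rw [pow_zero, pow_zero, map_one]
    change V.valuation (z - z) < 1
    rw [sub_self, map_zero]
    exact zero_lt_one
  | succ n ih =>
    obtain ⟨ih1, ih2⟩ := ih
    refine ⟨fun l hl => by rw [pow_succ', AlgEquiv.mul_apply, ih1 l hl, hgL l hl], fun z hz => ?_⟩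
    have hzn : a (τ ^ n) z ∈ V := (stableC ha hu hV (D.pow_mem (ha.le hτ) n) z).2 hz
    have e1 : (g ^ (n + 1)) z - a (τ ^ (n + 1)) z =
        g ((g ^ n) z - a (τ ^ n) z) + (g (a (τ ^ n) z) - a τ (a (τ ^ n) z)) := by
      rw [pow_succ', pow_succ', map_mul, AlgEquiv.mul_apply, map_sub]
      change g ((g ^ n) z) - a τ (a (τ ^ n) z) = _
      ring
    rw [e1]
    exact V.valuation.map_add_lt ((glt38 hu hV g hgx _).2 (ih2 z hz)) (hg _ hzn)

private theorem exists_pow38 (hu : CSetup E X O t B x L M) (g : U ≃ₐ[K] U)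
    (hgL : ∀ l ∈ L, g l = l) : ∃ r : ℕ, 0 < r ∧ ∀ m ∈ M, (g ^ r) m = m := by
  have hgx : g x = x := hgL x hu.x_mem
  have hxM : x ∈ M := hu.le hu.x_mem
  have hgL' : ∀ l ∈ L, g.symm l = l := fun l hl => by
    rw [AlgEquiv.symm_apply_eq, hgL l hl]
  let h : M ≃ₐ[K] M :=
    { toFun := fun z => ⟨g z.1, hu.stabM g hgL z.1 z.2⟩
      invFun := fun z => ⟨g.symm z.1, hu.stabM g.symm hgL' z.1 z.2⟩
      left_inv := fun z => Subtype.ext (g.symm_apply_apply _)
      right_inv := fun z => Subtype.ext (g.apply_symm_apply _)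
      map_mul' := fun z w => Subtype.ext (map_mul g _ _)
      map_add' := fun z w => Subtype.ext (map_add g _ _)
      commutes' := fun c => Subtype.ext (g.commutes c) }
  have hx : h ⟨x, hxM⟩ = ⟨x, hxM⟩ := Subtype.ext hgx
  have hh : ∀ z : M, g z = h z := fun z => rfl
  have htr : Transcendental K (⟨x, hxM⟩ : M) := by
    intro h1
    apply hu.tr
    exact h1.algebraMap (A := U)
  have hfin : FiniteDimensional (IntermediateField.adjoin K {(⟨x, hxM⟩ : M)}) M :=
    hu.cover.ff.finiteDimensional htr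
  let Fx : IntermediateField K M :=
    { carrier := {y | h y = y}
      mul_mem' := fun {y z} hy hz => by
        change h (y * z) = y * z
        rw [map_mul, show h y = y from hy, show h z = z from hz]
      add_mem' := fun {y z} hy hz => by
        change h (y + z) = y + z
        rw [map_add, show h y = y from hy, show h z = z from hz]
      algebraMap_mem' := fun c => h.commutes c
      inv_mem' := fun y hy => by
        change h y⁻¹ = y⁻¹
        rw [map_inv₀, show h y = y from hy] }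
  have hle : IntermediateField.adjoin K {(⟨x, hxM⟩ : M)} ≤ Fx := by
    rw [IntermediateField.adjoin_le_iff, Set.singleton_subset_iff]
    exact hx
  let α : M ≃ₐ[IntermediateField.adjoin K {(⟨x, hxM⟩ : M)}] M :=
    AlgEquiv.ofRingEquiv (f := h.toRingEquiv) (fun c => hle c.2)
  have hpow : ∀ (i : ℕ) (y : M), (((α ^ i) y : M) : U) = (g ^ i) (y : U) := by
    intro i
    induction i with
    | zero => intro y; rfl
    | succ i ih =>
      intro y
      rw [pow_succ', pow_succ', AlgEquiv.mul_apply, AlgEquiv.mul_apply, ← ih]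
      exact (hh _).symm
  obtain ⟨r, hr, hr'⟩ := (isOfFinOrder_of_finite α).exists_pow_eq_one
  refine ⟨r, hr, fun m hm => ?_⟩
  rw [← hpow r ⟨m, hm⟩, hr']
  rfl

/-- an inertia element congruent to an automorphism of prime order -/
private theorem exists_prime38 (ha : LocAct E O M x a φ D I) (hu : CSetup E X O t B x L M)
    (hV : Gauss E O x V) (hL : ∀ τ ∈ I, ∀ z ∈ V, z ∈ L → a τ z - z ∈ V.nonunits)
    (hne : ∃ τ ∈ I, ∃ z ∈ V, z ∈ M ∧ a τ z - z ∉ V.nonunits) :
    ∃ (τ : Γ) (g : U ≃ₐ[K] U), τ ∈ I ∧ (∀ l ∈ L, g l = l) ∧ (∀ z ∈ V, V.valuation (g z - a τ z) < 1) ∧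
      (orderOf g).Prime ∧ ∃ m ∈ M, g m ≠ m := by
  obtain ⟨τ, hτ, z₀, hz₀, hz₀M, hz₁⟩ := hne
  obtain ⟨g, hgx, hg⟩ := lift38 ha hu hV hL hτ
  obtain ⟨r, hr, hgr⟩ := exists_pow38 hu g hgx
  have triv : ∀ n, (∀ m ∈ M, (g ^ n) m = m) → g ^ n = 1 := by
    intro n hn
    obtain ⟨h1, h2⟩ := pow38 ha hu hV hτ hgx hg n
    have h3 := trivialC ha hu hV (I.pow_mem hτ n) (fun z hz hzM => by
      have h4 := h2 z hz
      rw [hn z hzM] at h4
      rw [ValuationSubring.mem_nonunits_iff, Valuation.map_sub_swap]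
      exact h4)
    refine eq38 hu hV (h1 x hu.x_mem) rfl fun z hz => ?_
    have h5 := h3 z hz
    rw [ValuationSubring.mem_nonunits_iff] at h5
    have e1 : (g ^ n) z - (1 : U ≃ₐ[K] U) z = ((g ^ n) z - a (τ ^ n) z) + (a (τ ^ n) z - z) := by
      change (g ^ n) z - z = _
      ring
    rw [e1]
    exact V.valuation.map_add_lt (h2 z hz) h5
  have hfin : IsOfFinOrder g := isOfFinOrder_iff_pow_eq_one.2 ⟨r, hr, triv r hgr⟩
  have hg1 : g ≠ 1 := by
    rintro rfl
    apply hz₁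
    have h4 := hg z₀ hz₀
    rw [ValuationSubring.mem_nonunits_iff, Valuation.map_sub_swap]
    exact h4
  have hN0 : 0 < orderOf g := orderOf_pos_iff.2 hfin
  have hN1 : orderOf g ≠ 1 := fun h => hg1 (orderOf_eq_one_iff.1 h)
  have hp := Nat.minFac_prime hN1
  obtain ⟨k, hk⟩ := Nat.minFac_dvd (orderOf g)
  have hk0 : k ≠ 0 := by
    rintro rfl
    rw [mul_zero] at hk
    omega
  have hord : orderOf (g ^ k) = (orderOf g).minFac := by
    rw [orderOf_pow_of_dvd hk0 ⟨(orderOf g).minFac, by rw [mul_comm]; exact hk⟩]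
    exact Nat.div_eq_of_eq_mul_left (Nat.pos_of_ne_zero hk0) hk
  refine ⟨τ ^ k, g ^ k, I.pow_mem hτ k, (pow38 ha hu hV hτ hgx hg k).1,
    (pow38 ha hu hV hτ hgx hg k).2, by rw [hord]; exact hp, ?_⟩
  by_contra hcon
  push Not at hcon
  have h1 := triv k hcon
  rw [h1, orderOf_one] at hord
  exact hp.ne_one hord.symm

/-- conjugates by elements of the decomposition group -/
private theorem conj38 (ha : LocAct E O M x a φ D I) (hu : CSetup E X O t B x L M)
    (hV : Gauss E O x V) {τ : Γ} (hτ : τ ∈ I) {g : U ≃ₐ[K] U} (hgL : ∀ l ∈ L, g l = l)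
    (hg : ∀ z ∈ V, V.valuation (g z - a τ z) < 1) (hℓ : (orderOf g).Prime) {γ : Γ} (hγ : γ ∈ D) :
    ∃ j : ℕ, ¬ orderOf g ∣ j ∧ ∀ z, a γ (g ((a γ).symm z)) = (g ^ j) z := by
  have hcz : CharZero K := charZero_of_injective_algebraMap (algebraMap E K).injective
  have hgx : g x = x := hgL x hu.x_mem
  have hst : ∀ z, a γ z ∈ V ↔ z ∈ V := stableC ha hu hV hγ
  let g' : U ≃ₐ[K] U := AlgEquiv.ofRingEquiv
    (f := (a γ).symm.trans (g.toRingEquiv.trans (a γ))) (fun c => by
      change a γ (g ((a γ).symm (algebraMap K U c))) = algebraMap K U c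
      have h1 : (a γ).symm (algebraMap K U c) = algebraMap K U ((φ γ).symm c) := by
        rw [RingEquiv.symm_apply_eq, ha.ext, RingEquiv.apply_symm_apply]
      rw [h1, g.commutes, ha.ext, RingEquiv.apply_symm_apply])
  have hg'z : ∀ z, g' z = a γ (g ((a γ).symm z)) := fun z => rfl
  have hxs : (a γ).symm x = x := by rw [RingEquiv.symm_apply_eq, ha.x_eq]
  have hg'x : g' x = x := by rw [hg'z, hxs, hgx, ha.x_eq]
  have hne : NeZero ((orderOf g : ℕ) : K) := ⟨Nat.cast_ne_zero.2 hℓ.ne_zero⟩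
  obtain ⟨ζ, hζ⟩ := HasEnoughRootsOfUnity.exists_primitiveRoot K (orderOf g)
  obtain ⟨j₀, hj₀, -⟩ := ha.cycl γ hγ τ hτ 0 (orderOf g) hℓ.ne_zero
  have hcong : ∀ z ∈ V, V.valuation (g' z - (g ^ j₀) z) < 1 := by
    intro z hz
    obtain ⟨j, hj, hjz⟩ := ha.cycl γ hγ τ hτ z (orderOf g) hℓ.ne_zero
    have h1 : ζ ^ j = ζ ^ j₀ := by rw [← hj ζ hζ.pow_eq_one, ← hj₀ ζ hζ.pow_eq_one]
    have hζ0 : ζ ≠ 0 := hζ.ne_zero hℓ.ne_zero
    have h1' : ζ ^ ((j₀ : ℤ) - j) = 1 := by
      rw [zpow_sub₀ hζ0, zpow_natCast, zpow_natCast, h1]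
      exact div_self (pow_ne_zero _ hζ0)
    have h2 : g ^ j = g ^ j₀ := pow_eq_pow_iff_modEq.2
      (Nat.modEq_iff_dvd.2 ((hζ.zpow_eq_one_iff_dvd _).1 h1'))
    have h3 := (pow38 ha hu hV hτ hgL hg j).2 z hz
    rw [h2, ← hjz] at h3
    have hw : (a γ).symm z ∈ V := by
      rw [← hst, RingEquiv.apply_symm_apply]
      exact hz
    have h4 := hg _ hw
    rw [← lt_iff38 (a γ) hst, map_sub] at h4
    have e1 : a (γ * τ * γ⁻¹) z = a γ (a τ ((a γ).symm z)) := by
      rw [map_mul, map_mul, map_inv]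
      rfl
    rw [← e1, ← hg'z] at h4
    have e2 : g' z - (g ^ j₀) z = (g' z - a (γ * τ * γ⁻¹) z) +
        (a (γ * τ * γ⁻¹) z - (g ^ j₀) z) := by ring
    rw [e2]
    refine V.valuation.map_add_lt h4 ?_
    rw [Valuation.map_sub_swap]
    exact h3
  have heq : g' = g ^ j₀ := eq38 hu hV hg'x ((pow38 ha hu hV hτ hgL hg j₀).1 x hu.x_mem) hcong
  refine ⟨j₀, fun hdvd => ?_, fun z => by rw [← hg'z, heq]⟩
  rw [orderOf_dvd_iff_pow_eq_one.1 hdvd] at heq
  have h1 : g = 1 := by
    apply AlgEquiv.ext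
    intro w
    have h2 := hg'z (a γ w)
    rw [heq, RingEquiv.symm_apply_apply] at h2
    exact ((a γ).injective h2).symm
  rw [h1, orderOf_one] at hℓ
  exact Nat.not_prime_one hℓ

/-- a place fixed by `g` lies above `B` or infinity -/
private theorem above38 (hu : CSetup E X O t B x L M) {g : U ≃ₐ[K] U} (hgx : g x = x)
    (hℓ : (orderOf g).Prime) {m : U} (hm : g m ≠ m) {P : ValuationSubring U}
    (hPK : ∀ c : K, algebraMap K U c ∈ P) (hP1 : P ≠ ⊤) (hPg : ∀ z, g z ∈ P ↔ z ∈ P) :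
    x ∉ P ∨ ∃ b ∈ B, x - algebraMap K U b ∈ P.nonunits := by
  have hcz : CharZero K := charZero_of_injective_algebraMap (algebraMap E K).injective
  have hgal := hu.cover.gal
  by_contra hcon
  push Not at hcon
  obtain ⟨hxP, hB⟩ := hcon
  have hres : ∀ z ∈ P, ∃ c : K, z - algebraMap K U c ∈ P.nonunits := by
    intro z hz
    obtain ⟨c, hc⟩ := exists_const_residue_abs (M := M) hu.cover.ff hPK hP1 hz
    exact ⟨c, (ValuationSubring.mem_nonunits_iff P).2 hc⟩
  obtain ⟨c, hc⟩ := hres x hxP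
  have hcB : c ∉ B := fun h => hB c h hc
  obtain ⟨ζ, hζ, v, -, hv0, hv⟩ := exists_eigenvector hℓ (pow_orderOf_eq_one g) (N := ⊤)
    (fun _ _ => trivial) (x := m) trivial hm
  obtain ⟨j, hj⟩ := hu.unr hPK hcB hc hv0
  have hxc : x - algebraMap K U c ≠ 0 := by
    intro h
    apply hu.tr
    rw [sub_eq_zero.1 h]
    exact isAlgebraic_algebraMap c
  have hgxc : g (x - algebraMap K U c) = x - algebraMap K U c := by
    rw [map_sub, hgx, g.commutes]
  have hzp : (x - algebraMap K U c) ^ j ≠ 0 := zpow_ne_zero j hxc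
  have hval : P.valuation (v / (x - algebraMap K U c) ^ j) = 1 := by
    rw [map_div₀, map_zpow₀, hj]
    exact div_self (zpow_ne_zero j ((Valuation.ne_zero_iff _).2 hxc))
  refine not_unit_of_fixed (E := K) (R := P) (σ := g) (v := v / (x - algebraMap K U c) ^ j)
    (ξ := ζ) ?_ hPK hres ?_ (hζ.ne_one hℓ.one_lt) ?_ ?_ ?_
  · intro c x
    rw [map_add, g.commutes]
  · intro z hz
    rw [ValuationSubring.mem_nonunits_iff] at hz ⊢
    exact (lt_iff38 g.toRingEquiv hPg z).2 hz
  · rw [map_div₀, map_zpow₀, hgxc, hv, mul_div_assoc]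
  · rw [← P.valuation_le_one_iff, hval]
  · rw [ValuationSubring.mem_nonunits_iff, hval]
    exact lt_irrefl _

/-- If an inertia element acts nontrivially on the residue field of `M`, and automorphisms of
prime order over `K(x)` have at most one fixed place, then there is a place of `U` which is
stable under the decomposition group, and it lies above `B` or above infinity. -/
theorem exists_placeC (ha : LocAct E O M x a φ D I) (hu : CSetup E X O t B x L M)
    (hV : Gauss E O x V) (hL : ∀ τ ∈ I, ∀ z ∈ V, z ∈ L → a τ z - z ∈ V.nonunits)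
    (hne : ∃ τ ∈ I, ∃ z ∈ V, z ∈ M ∧ a τ z - z ∉ V.nonunits)
    (huniq : ∀ g : U ≃ₐ[K] U, (∀ l ∈ L, g l = l) → (orderOf g).Prime → (∃ m ∈ M, g m ≠ m) →
      ∀ P P' : ValuationSubring U, (∀ c : K, algebraMap K U c ∈ P) → P ≠ ⊤ →
        (∀ z, g z ∈ P ↔ z ∈ P) → (∀ c : K, algebraMap K U c ∈ P') → P' ≠ ⊤ →
        (∀ z, g z ∈ P' ↔ z ∈ P') → P = P') :
    ∃ P : ValuationSubring U, (∀ c : K, algebraMap K U c ∈ P) ∧ P ≠ ⊤ ∧
      (∀ γ ∈ D, ∀ z, a γ z ∈ P ↔ z ∈ P) ∧
      (x ∉ P ∨ ∃ b ∈ B, x - algebraMap K U b ∈ P.nonunits) := by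
  have hcz : CharZero K := charZero_of_injective_algebraMap (algebraMap E K).injective
  obtain ⟨τ, g, hτ, hgL, hg, hℓ, m, hmM, hm⟩ := exists_prime38 ha hu hV hL hne
  have hgx : g x = x := hgL x hu.x_mem
  have hg1 : g ≠ 1 := by
    rintro rfl
    exact hm rfl
  have hgi : ∀ l ∈ L, g⁻¹ l = l := by
    intro l hl
    conv_lhs => rw [← hgL l hl]
    change (g⁻¹ * g) l = l
    rw [inv_mul_cancel]
    rfl
  have hgM : ∀ y, y ∈ M ↔ g y ∈ M := by
    intro y
    refine ⟨hu.stabM g hgL y, fun hy => ?_⟩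
    have h1 := hu.stabM g⁻¹ hgi _ hy
    change (g⁻¹ * g) y ∈ M at h1
    rw [inv_mul_cancel] at h1
    exact h1
  obtain ⟨P, hPK, hP1, hPg⟩ := exists_fixed M hu.cover (fun N hN => FF.picDiv hN) hℓ g hgM
    (pow_orderOf_eq_one g) hg1
  refine ⟨P, hPK, hP1, fun γ hγ => ?_, above38 hu hgx hℓ hm hPK hP1 hPg⟩
  obtain ⟨j, hj, hjz⟩ := conj38 ha hu hV hτ hgL hg hℓ (D.inv_mem hγ)
  have hinv : ∀ z, a γ (a γ⁻¹ z) = z := by
    intro z
    change (a γ * a γ⁻¹) z = z
    rw [← map_mul, mul_inv_cancel, map_one]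
    rfl
  have hinv' : ∀ z, (a γ⁻¹).symm z = a γ z := by
    intro z
    rw [RingEquiv.symm_apply_eq]
    change z = (a γ⁻¹ * a γ) z
    rw [← map_mul, inv_mul_cancel, map_one]
    rfl
  have hcomm : ∀ z, a γ ((g ^ j) z) = g (a γ z) := by
    intro z
    rw [← hjz z, hinv, hinv']
  have hstj : ∀ z, a γ ((g ^ j) z) ∈ P ↔ a γ z ∈ P := by
    intro z
    rw [hcomm, hPg]
  have hsti : ∀ (i : ℕ) (z : U), a γ (((g ^ j) ^ i) z) ∈ P ↔ a γ z ∈ P := by
    intro i
    induction i with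
    | zero => intro z; exact Iff.rfl
    | succ i ih =>
      intro z
      rw [pow_succ', AlgEquiv.mul_apply, hstj, ih]
  have hcop : Nat.Coprime j (orderOf g) := ((Nat.Prime.coprime_iff_not_dvd hℓ).2 hj).symm
  obtain ⟨i, hi⟩ := Nat.exists_mul_mod_eq_one_of_coprime hcop hℓ.one_lt
  have hgi2 : (g ^ j) ^ i = g := by
    rw [← pow_mul]
    conv_rhs => rw [← pow_one g]
    rw [pow_eq_pow_iff_modEq]
    unfold Nat.ModEq
    rw [hi.2, Nat.mod_eq_of_lt hℓ.one_lt]
  have hEq := huniq g hgL hℓ ⟨m, hmM, hm⟩ P (P.comap ((a γ : U ≃+* U) : U →+* U)) hPK hP1 hPg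
    (fun c => by
      change a γ (algebraMap K U c) ∈ P
      rw [ha.ext]
      exact hPK _)
    (fun htop => by
      apply hP1
      rw [eq_top_iff]
      intro y _
      have h1 : (a γ).symm y ∈ P.comap ((a γ : U ≃+* U) : U →+* U) := by
        rw [htop]
        trivial
      have h2 : a γ ((a γ).symm y) ∈ P := h1
      rwa [RingEquiv.apply_symm_apply] at h2)
    (fun z => by
      change a γ (g z) ∈ P ↔ a γ z ∈ P
      have h1 := hsti i z
      rwa [hgi2] at h1)
  intro z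
  have h1 : z ∈ P.comap ((a γ : U ≃+* U) : U →+* U) ↔ a γ z ∈ P := Iff.rfl
  rw [← h1, ← hEq]

end Pool.Agent.GC
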