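import Pool.Agent.Helper13.GC.Defs
import Pool.Agent.SC.CoverLevels
import Pool.Agent.SC.Levels

/-!
# Finite levels (copy of LT/U1)

`exists_level`: `M / K(x)` is finite (function field, `x` transcendental:
`IsFunctionField.finiteDimensional`), `U / K(x)` is Galois; `N` = the normal closure in `U` of the
field generated over `K(x)` by `Z` and generators of `M`.  It is finite over `K(x)`, so a function
field, and Galois.  `unr`: a place `P` of `N` extends to a valuation ring `P'` of `U`
(`SC.exists_place_over`), all values of `P'` are powers of the value of `x - a`, so an element of order one at `P`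
has order `j · ord_P (x - a)`, hence `ord_P (x - a) = 1`.
`exists_lift`: `AlgEquiv.liftNormal` over `K(x)`.
-/

universe u

namespace Pool.Agent.GC

open VC Polynomial Pool.Agent.LT Pool.Agent

variable {E K U : Type u} [Field E] [IsAlgClosed E] [CharZero E] [Field K] [IsAlgClosed K]
  [Algebra E K] [Field U] [Algebra K U] [Algebra E U] [IsScalarTower E K U]
  {O : ValuationSubring K} {t : K} {x : U} {B : Finset K}

private lemma fix24 {K U : Type u} [Field K] [Field U] [Algebra K U] {x : U} (g : U ≃ₐ[K] U)
    (hg : g x = x) : ∀ y ∈ IntermediateField.adjoin K ({x} : Set U), g y = y := by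
  intro y hy
  induction hy using IntermediateField.adjoin_induction with
  | mem y hy =>
    rw [Set.mem_singleton_iff] at hy
    rw [hy]
    exact hg
  | algebraMap c => exact g.commutes c
  | add a b _ _ ha hb => rw [map_add, ha, hb]
  | inv a _ ha => rw [map_inv₀, ha]
  | mul a b _ _ ha hb => rw [map_mul, ha, hb]

/-- an automorphism fixing `x` as an automorphism over `K(x)` -/
private noncomputable def over24 {K U : Type u} [Field K] [Field U] [Algebra K U] {x : U}
    (g : U ≃ₐ[K] U) (hg : g x = x) : U ≃ₐ[IntermediateField.adjoin K ({x} : Set U)] U :=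
  AlgEquiv.ofRingEquiv (f := g.toRingEquiv) (fun c => fix24 g hg c.1 c.2)

private lemma over24_apply {K U : Type u} [Field K] [Field U] [Algebra K U] {x : U}
    (g : U ≃ₐ[K] U) (hg : g x = x) (y : U) : over24 g hg y = g y := rfl

private lemma inv24 {K U : Type u} [Field K] [Field U] [Algebra K U] {x : U}
    (g : U ≃ₐ[K] U) (hg : g x = x) : g.symm x = x := by
  conv_lhs => rw [← hg]
  exact g.symm_apply_apply x

private lemma symm24 {K U : Type u} [Field K] [Field U] [Algebra K U] {x : U}
    (σ : U ≃ₐ[IntermediateField.adjoin K ({x} : Set U)] U) : σ.restrictScalars K x = x := by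
  show σ x = x
  exact σ.commutes ⟨x, IntermediateField.mem_adjoin_simple_self K x⟩

/-- a stable subfield containing `x` is Galois over `K(x)` -/
private lemma galois24 {K U : Type u} [Field K] [Field U] [Algebra K U] {x : U}
    (hgal : IsGalois (IntermediateField.adjoin K ({x} : Set U)) U) (N : IntermediateField K U)
    (hx : x ∈ N) (hN : ∀ g : U ≃ₐ[K] U, g x = x → ∀ z ∈ N, g z ∈ N) :
    IsGalois (IntermediateField.adjoin K {(⟨x, hx⟩ : N)}) N := by
  have hle : IntermediateField.adjoin K ({x} : Set U) ≤ N := by
    rw [IntermediateField.adjoin_le_iff, Set.singleton_subset_iff]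
    exact hx
  have h1 : IsGalois (IntermediateField.adjoin K ({x} : Set U))
      (IntermediateField.extendScalars hle) := by
    rw [isGalois_iff]
    constructor
    · exact Algebra.isSeparable_tower_bot_of_isSeparable _ _ U
    · rw [IntermediateField.normal_iff_forall_map_le']
      rintro σ _ ⟨y, hy, rfl⟩
      exact hN (σ.restrictScalars K) (symm24 σ) y hy
  have heq : (IntermediateField.adjoin K {(⟨x, hx⟩ : N)}).map N.val =
      IntermediateField.adjoin K ({x} : Set U) := by
    rw [IntermediateField.adjoin_map, Set.image_singleton]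
    rfl
  let e : IntermediateField.adjoin K {(⟨x, hx⟩ : N)} ≃ₐ[K]
      IntermediateField.adjoin K ({x} : Set U) :=
    (IntermediateField.equivMap _ N.val).trans (IntermediateField.equivOfEq heq)
  have he : ∀ y, ((e y : U)) = ((y : N) : U) := fun y => rfl
  let g : IntermediateField.extendScalars hle ≃+* N :=
    { toFun := fun z => ⟨z.1, z.2⟩
      invFun := fun z => ⟨z.1, z.2⟩
      left_inv := fun _ => rfl
      right_inv := fun _ => rfl
      map_mul' := fun _ _ => rfl
      map_add' := fun _ _ => rfl }
  refine IsGalois.of_equiv_equiv (F := IntermediateField.adjoin K ({x} : Set U))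
    (E := IntermediateField.extendScalars hle) (f := e.symm.toRingEquiv) (g := g) ?_
  ext c
  show ((e.symm c : N) : U) = (c : U)
  rw [← he, AlgEquiv.apply_symm_apply]

/-- Every finite subset of `U` is contained in a finite Galois level. -/
theorem XSetup.exists_level (hu : XSetup E O t B x) (Z : Finset U) :
    ∃ N : IntermediateField K U, (∀ z ∈ Z, z ∈ N) ∧
      (∀ g : U ≃ₐ[K] U, g x = x → ∀ z ∈ N, g z ∈ N) ∧
      ∃ hx : x ∈ N, Setup E O t B (⟨x, hx⟩ : N) := by
  classical
  have hgal := hu.gal
  set M : IntermediateField K U := IntermediateField.adjoin K ({x} : Set U) with hM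
  have hMff : IsFunctionField K M := by
    let x' : M := ⟨x, IntermediateField.mem_adjoin_simple_self K x⟩
    have htr' : Transcendental K x' := by
      intro h
      exact hu.tr (h.algebraMap (A := U))
    refine ⟨x', htr', ?_⟩
    have htop : IntermediateField.adjoin K {x'} = ⊤ := by
      rw [eq_top_iff]
      intro z _
      have h1 : (z : U) ∈ (IntermediateField.adjoin K {x'}).map M.val := by
        rw [IntermediateField.adjoin_map, Set.image_singleton]
        exact z.2
      obtain ⟨w, hw, hwz⟩ := h1
      have h3 : w = z := Subtype.ext hwz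
      rwa [← h3]
    rw [htop]
    exact FiniteDimensional.of_surjective
      (Algebra.linearMap (⊤ : IntermediateField K M) M) (fun z => ⟨⟨z, trivial⟩, rfl⟩)
  let T : Set U := {y | ∃ z ∈ Z, ∃ g : U ≃ₐ[K] U, g x = x ∧ y = g z}
  have hTfin : T.Finite := by
    have h1 : T ⊆ ⋃ z ∈ Z, (minpoly (IntermediateField.adjoin K ({x} : Set U)) z).rootSet U := by
      rintro y ⟨z, hz, g, hg, rfl⟩
      simp only [Set.mem_iUnion]
      refine ⟨z, hz, ?_⟩
      have hint : IsIntegral (IntermediateField.adjoin K ({x} : Set U)) z :=
        Algebra.IsIntegral.isIntegral _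
      rw [Polynomial.mem_rootSet]
      refine ⟨minpoly.ne_zero hint, ?_⟩
      have h2 : Polynomial.aeval (over24 g hg z)
          (minpoly (IntermediateField.adjoin K ({x} : Set U)) z) =
          over24 g hg (Polynomial.aeval z (minpoly (IntermediateField.adjoin K ({x} : Set U)) z)) :=
        Polynomial.aeval_algHom_apply (over24 g hg).toAlgHom _ _
      rw [over24_apply] at h2
      rw [h2, minpoly.aeval, map_zero]
    refine Set.Finite.subset ?_ h1
    exact Set.Finite.biUnion Z.finite_toSet fun x _ => Polynomial.rootSet_finite _ _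
  have hTg : ∀ g : U ≃ₐ[K] U, g x = x → ∀ y ∈ T, g y ∈ T := by
    rintro g hg y ⟨z, hz, g', hg', rfl⟩
    refine ⟨z, hz, g * g', ?_, rfl⟩
    show g (g' x) = x
    rw [hg', hg]
  let N' : IntermediateField M U := IntermediateField.adjoin M T
  have hfd : FiniteDimensional M N' := by
    have := hTfin.to_subtype
    exact IntermediateField.finiteDimensional_adjoin fun x _ => Algebra.IsIntegral.isIntegral x
  have hMN : M ≤ N'.restrictScalars K := fun m hm => N'.algebraMap_mem ⟨m, hm⟩
  have hxN : x ∈ N'.restrictScalars K := hMN (IntermediateField.mem_adjoin_simple_self K x)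
  have hst : ∀ g : U ≃ₐ[K] U, g x = x → ∀ z ∈ N'.restrictScalars K, g z ∈ N'.restrictScalars K := by
    intro g hg z hz
    have hz' : z ∈ IntermediateField.adjoin M T := hz
    show g z ∈ IntermediateField.adjoin M T
    induction hz' using IntermediateField.adjoin_induction with
    | mem x hx => exact IntermediateField.subset_adjoin _ _ (hTg g hg x hx)
    | algebraMap m =>
      have h1 : g (m : U) ∈ M := by rw [fix24 g hg _ m.2]; exact m.2
      exact (IntermediateField.adjoin M T).algebraMap_mem ⟨_, h1⟩
    | add x y hx' hy' hx hy => rw [map_add]; exact add_mem (hx hx') (hy hy')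
    | inv x hx' hx => rw [map_inv₀]; exact inv_mem (hx hx')
    | mul x y hx' hy' hx hy => rw [map_mul]; exact mul_mem (hx hx') (hy hy')
  have hff : IsFunctionField K (N'.restrictScalars K) :=
    Pool.Agent.SC.isFunctionField_restrictScalars hMff N'
  refine ⟨N'.restrictScalars K, ?_, hst, hxN, ?_⟩
  · intro z hz
    exact IntermediateField.subset_adjoin M T ⟨z, hz, AlgEquiv.refl, rfl, rfl⟩
  · refine ⟨hu.base, hff, ?_, galois24 hgal _ hxN hst, hu.B_mem, hu.B_diff, ?_⟩
    · intro h
      apply hu.tr
      exact h.algebraMap (A := U)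
    · intro P a ha hP
      obtain ⟨P', hP'⟩ := Pool.Agent.SC.exists_comap_eq
        (algebraMap (N'.restrictScalars K) U) P.ring
      have hK : ∀ c : K, algebraMap K U c ∈ P' := by
        intro c
        rw [IsScalarTower.algebraMap_apply K (N'.restrictScalars K) U]
        exact (hP' _).2 (P.algebraMap_mem c)
      set y : N'.restrictScalars K := (⟨x, hxN⟩ : N'.restrictScalars K) -
        algebraMap K (N'.restrictScalars K) a with hy
      have hyU : (y : U) = x - algebraMap K U a := rfl
      have hynon : x - algebraMap K U a ∈ P'.nonunits := by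
        rw [← hyU, ValuationSubring.mem_nonunits_iff_or]
        rcases (ValuationSubring.mem_nonunits_iff_or _).1 hP with h | h
        · left
          rw [h]
          rfl
        · right
          intro h2
          exact h ((hP' y⁻¹).1 h2)
      have hy0 : y ≠ 0 := by
        intro h
        have h2 : x - algebraMap K U a = 0 := by
          rw [← hyU, h]
          rfl
        have h3 : x = algebraMap K U a := sub_eq_zero.1 h2
        apply hu.tr
        rw [h3]
        exact isAlgebraic_algebraMap a
      obtain ⟨π, hπ0, hπ⟩ := FF.exists_ord_eq hff P 1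
      have hπU : (π : U) ≠ 0 := by
        intro h
        exact hπ0 (Subtype.ext h)
      obtain ⟨j, hj⟩ := hu.unr P' hK a ha hynon (π : U) hπU
      have hne : x - algebraMap K U a ≠ 0 := by
        rw [← hyU]
        intro h
        exact hy0 (Subtype.ext h)
      have hval : P'.valuation ((π / y ^ j : N'.restrictScalars K) : U) = 1 := by
        have h1 : ((π / y ^ j : N'.restrictScalars K) : U) =
            (π : U) / (x - algebraMap K U a) ^ j := by
          rw [← hyU]
          exact map_div₀ (algebraMap (N'.restrictScalars K) U) π (y ^ j) |>.trans (by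
            rw [map_zpow₀]
            rfl)
        rw [h1, map_div₀, map_zpow₀, hj]
        exact div_self (zpow_ne_zero _ ((Valuation.ne_zero_iff _).2 hne))
      have h0 := Pool.Agent.SC.ord_zero_of_val_unit hff P hP'
        (div_ne_zero hπ0 (zpow_ne_zero j hy0)) hval
      rw [FF.ord_div hff P hπ0 (zpow_ne_zero j hy0), FF.ord_zpow hff P hy0, hπ] at h0
      have hpos := (FF.ord_pos_iff hff P hy0).2 hP
      have h2 : j * ord P.ring y = 1 := by linarith
      exact Int.eq_one_of_mul_eq_one_left hpos.le h2

/-- Automorphisms of a level extend. -/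
theorem XSetup.exists_lift (hu : XSetup E O t B x) {N : IntermediateField K U} (hx : x ∈ N)
    (hN : ∀ g : U ≃ₐ[K] U, g x = x → ∀ z ∈ N, g z ∈ N) (g : N ≃ₐ[K] N)
    (hg : g ⟨x, hx⟩ = ⟨x, hx⟩) : ∃ g' : U ≃ₐ[K] U, g' x = x ∧ ∀ z : N, g' z = g z := by
  have hgal := hu.gal
  have hle : IntermediateField.adjoin K ({x} : Set U) ≤ N := by
    rw [IntermediateField.adjoin_le_iff, Set.singleton_subset_iff]
    exact hx
  have hfix : ∀ y (hy : y ∈ IntermediateField.adjoin K ({x} : Set U)),
      ((g ⟨y, hle hy⟩ : N) : U) = y := by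
    intro y hy
    induction hy using IntermediateField.adjoin_induction with
    | mem y hy' =>
      rw [Set.mem_singleton_iff] at hy'
      subst hy'
      rw [hg]
    | algebraMap c =>
      exact congrArg Subtype.val (g.commutes c)
    | add a b ha' hb' ha hb =>
      have h1 : (⟨a + b, hle (add_mem ha' hb')⟩ : N) = ⟨a, hle ha'⟩ + ⟨b, hle hb'⟩ := rfl
      rw [h1, map_add]
      show ((g ⟨a, hle ha'⟩ : N) : U) + ((g ⟨b, hle hb'⟩ : N) : U) = a + b
      rw [ha, hb]
    | inv a ha' ha =>
      have h1 : (⟨a⁻¹, hle (inv_mem ha')⟩ : N) = ⟨a, hle ha'⟩⁻¹ := rfl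
      rw [h1, map_inv₀]
      show (((g ⟨a, hle ha'⟩ : N))⁻¹ : U) = a⁻¹
      rw [ha]
    | mul a b ha' hb' ha hb =>
      have h1 : (⟨a * b, hle (mul_mem ha' hb')⟩ : N) = ⟨a, hle ha'⟩ * ⟨b, hle hb'⟩ := rfl
      rw [h1, map_mul]
      show ((g ⟨a, hle ha'⟩ : N) : U) * ((g ⟨b, hle hb'⟩ : N) : U) = a * b
      rw [ha, hb]
  let g0 : IntermediateField.extendScalars hle ≃+* IntermediateField.extendScalars hle :=
    { toFun := fun z => g ⟨z.1, z.2⟩
      invFun := fun z => g.symm ⟨z.1, z.2⟩
      left_inv := fun z => g.symm_apply_apply _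
      right_inv := fun z => g.apply_symm_apply _
      map_mul' := fun z w => map_mul g _ _
      map_add' := fun z w => map_add g _ _ }
  let g1 : IntermediateField.extendScalars hle ≃ₐ[IntermediateField.adjoin K ({x} : Set U)]
      IntermediateField.extendScalars hle :=
    AlgEquiv.ofRingEquiv (f := g0) (fun c => Subtype.ext (hfix c.1 c.2))
  let G := g1.liftNormal U
  refine ⟨G.restrictScalars K, symm24 G, ?_⟩
  intro z
  have h1 := g1.liftNormal_commutes U ⟨z.1, z.2⟩
  exact h1

theorem XSetup.exists_restrict {N : IntermediateField K U} (hx : x ∈ N)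
    (hN : ∀ g : U ≃ₐ[K] U, g x = x → ∀ z ∈ N, g z ∈ N) (g' : U ≃ₐ[K] U)
    (hg' : g' x = x) : ∃ g : N ≃ₐ[K] N, g ⟨x, hx⟩ = ⟨x, hx⟩ ∧ ∀ z : N, g' z = g z := by
  let g : N ≃ₐ[K] N :=
    { toFun := fun z => ⟨g' z.1, hN g' hg' z.1 z.2⟩
      invFun := fun z => ⟨g'.symm z.1, hN g'.symm (inv24 g' hg') z.1 z.2⟩
      left_inv := fun z => Subtype.ext (g'.symm_apply_apply _)
      right_inv := fun z => Subtype.ext (g'.apply_symm_apply _)
      map_mul' := fun z w => Subtype.ext (map_mul g' _ _)
      map_add' := fun z w => Subtype.ext (map_add g' _ _)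
      commutes' := fun c => Subtype.ext (g'.commutes c) }
  exact ⟨g, Subtype.ext hg', fun z => rfl⟩

end Pool.Agent.GC
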