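import Pool.Agent.Helper13.GC.X1
import Pool.Agent.Helper13.LT.U2
import Pool.Agent.Helper13.LT.A12
import Pool.Agent.SC.Cov

/-!
# Uniqueness of the valuation ring (copy of LT/U2)

`exists_gauss`: a valuation ring `V` of `N` which dominates the local ring `O[x]_{𝔪_O[x]}`
(Mathlib: `LocalSubring.exists_le_valuationSubring` or similar; or first the Gauss valuation on
`K(x)`).  `V ∩ K` dominates `O`, so it is `O`; `p(x)` for `0 ≠ p ∈ E[X]` is a unit of
the local ring.
`gauss_unique`: let `z ∈ U`, `N` a level containing `z` (U1).  `V ∩ N` and `V' ∩ N` are Gauss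
extensions on `N` with the same trace on `K(x)` (`Gauss.val_poly` determines it), so conjugate over `K(x)`
(`SC.exists_conj_val` in `SC/Cov.lean`), and equal by `stable` (A12).
`stable`: `{z | σ z ∈ V}` is a valuation ring with `Gauss` (for `x_tr`: `σ (p(x)) = ∑ φ(p_i) x^i`
has value `max O(φ(p_i)) = 1` by `val_poly`), so it is `V`.
-/

universe u

namespace Pool.Agent.GC

open VC Polynomial Pool.Agent.LT Pool.Agent

variable {E K U : Type u} [Field E] [IsAlgClosed E] [CharZero E] [Field K] [IsAlgClosed K]
  [Algebra E K] [Field U] [Algebra K U] [Algebra E U] [IsScalarTower E K U]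
  {O : ValuationSubring K} {t : K} {x : U} {B : Finset K}

private lemma comap_nonunits50 {F L : Type*} [Field F] [Field L] (V : ValuationSubring L)
    (f : F →+* L) (z : F) : z ∈ (V.comap f).nonunits ↔ f z ∈ V.nonunits := by
  rw [ValuationSubring.mem_nonunits_iff_or, ValuationSubring.mem_nonunits_iff_or,
    ValuationSubring.mem_comap, map_inv₀, map_eq_zero]

omit [IsAlgClosed K] in
/-- The trace of a Gauss extension on `K(x)` is determined. -/
private lemma trace50 {N : Type u} [Field N] [Algebra K N] [Algebra E N] [IsScalarTower E K N]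
    (h : Base E O t) {x : N} (htr : Transcendental K x) {V V' : ValuationSubring N}
    (hV : Gauss E O x V) (hV' : Gauss E O x V') (z : N)
    (hz : z ∈ IntermediateField.adjoin K {x}) : z ∈ V → z ∈ V' := by
  rw [IntermediateField.mem_adjoin_simple_iff] at hz
  obtain ⟨p, q, rfl⟩ := hz
  by_cases hq : q = 0
  · intro _
    rw [hq, map_zero, div_zero]
    exact V'.zero_mem
  have hq0 : aeval x q ≠ 0 := fun h0 => htr ⟨q, hq, h0⟩
  obtain ⟨i0, hi0, hmax⟩ := Finset.exists_max_image q.support (fun i => O.valuation (q.coeff i))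
    (Polynomial.support_nonempty.2 hq)
  have hc0 : q.coeff i0 ≠ 0 := Polynomial.mem_support_iff.1 hi0
  have hall : ∀ i, O.valuation (q.coeff i) ≤ O.valuation (q.coeff i0) := by
    intro i
    by_cases hi : i ∈ q.support
    · exact hmax i hi
    · rw [Polynomial.notMem_support_iff.1 hi, map_zero]
      exact zero_le
  have key : ∀ W : ValuationSubring N, Gauss E O x W →
      W.valuation (aeval x q) = W.valuation (algebraMap K N (q.coeff i0)) := by
    intro W hW
    refine le_antisymm ((hW.val_poly h q _).2 hall) ?_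
    rw [← not_lt, hW.val_poly_lt h q _ hc0]
    intro h1
    exact lt_irrefl _ (h1 i0)
  have key2 : ∀ W : ValuationSubring N, Gauss E O x W →
      (aeval x p / aeval x q ∈ W ↔ ∀ i, O.valuation (p.coeff i) ≤ O.valuation (q.coeff i0)) := by
    intro W hW
    rw [← ValuationSubring.valuation_le_one_iff, map_div₀,
      div_le_one₀ (zero_lt_iff.2 ((Valuation.ne_zero_iff _).2 hq0)), key W hW, hW.val_poly h]
  intro h1
  exact (key2 V' hV').2 ((key2 V hV).1 h1)

theorem XSetup.gauss_unique (hu : XSetup E O t B x) {V V' : ValuationSubring U}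
    (hV : Gauss E O x V) (hV' : Gauss E O x V') : V = V' := by
  have := hu.gal
  obtain ⟨σ, hσ⟩ := SC.exists_conj_val (L := IntermediateField.adjoin K {x}) V V' (fun c =>
    ⟨trace50 hu.base hu.tr hV hV' c c.2, trace50 hu.base hu.tr hV' hV c c.2⟩)
  have hσx : (σ.restrictScalars K) x = x := by
    have hx : x ∈ IntermediateField.adjoin K {x} :=
      IntermediateField.mem_adjoin_simple_self K x
    exact σ.commutes (⟨x, hx⟩ : IntermediateField.adjoin K {x})
  ext z
  rw [← hσ z]
  obtain ⟨N, hz, hN, hx, hs⟩ := hu.exists_level {z}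
  obtain ⟨g, hg, hgz⟩ := XSetup.exists_restrict (U := U) hx hN (σ.restrictScalars K) hσx
  have hzN : z ∈ N := hz z (Finset.mem_singleton_self z)
  have hVN : Gauss E O (⟨x, hx⟩ : N) (V'.comap (algebraMap N U)) := by
    refine ⟨fun c => ?_, hV'.x_mem, fun p hp => ?_⟩
    · rw [ValuationSubring.mem_comap]
      exact hV'.mem_iff c
    · rw [comap_nonunits50]
      have h1 : algebraMap N U (aeval (⟨x, hx⟩ : N) p) = aeval x p := by
        rw [aeval_def, aeval_def, hom_eval₂]
        rfl
      rw [h1]
      exact hV'.x_tr p hp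
  have h1 := LT.stable hs hVN g hg ⟨z, hzN⟩
  rw [ValuationSubring.mem_comap, ValuationSubring.mem_comap] at h1
  have h2 : algebraMap N U (g ⟨z, hzN⟩) = σ z := (hgz ⟨z, hzN⟩).symm
  rw [h2] at h1
  exact h1

/-- Semilinear automorphisms preserve the valuation ring. -/
theorem XSetup.stable (hu : XSetup E O t B x) {V : ValuationSubring U}
    (hV : Gauss E O x V) (σ : U ≃+* U) (φ : K ≃+* K)
    (hσ : ∀ c, σ (algebraMap K U c) = algebraMap K U (φ c)) (hφ : ∀ c, φ c ∈ O ↔ c ∈ O)
    (hx : σ x = x) (z : U) : σ z ∈ V ↔ z ∈ V := by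
  have hG : Gauss E O x (V.comap (σ : U →+* U)) := by
    refine ⟨fun c => ?_, ?_, fun p hp => ?_⟩
    · rw [ValuationSubring.mem_comap]
      change σ (algebraMap K U c) ∈ V ↔ _
      rw [hσ, hV.mem_iff, hφ]
    · rw [ValuationSubring.mem_comap]
      change σ x ∈ V
      rw [hx]
      exact hV.x_mem
    · rw [comap_nonunits50]
      have h1 : (σ : U →+* U) (aeval x p) =
          aeval x ((p.map (algebraMap E K)).map (φ : K →+* K)) := by
        have e1 : (σ : U →+* U).comp (algebraMap K U) =
            (algebraMap K U).comp (φ : K →+* K) := RingHom.ext fun c => hσ c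
        have e2 : (σ : U →+* U) x = x := hx
        rw [← aeval_map_algebraMap K x p]
        generalize p.map (algebraMap E K) = P
        rw [aeval_def, aeval_def, hom_eval₂, eval₂_map, e1, e2]
      rw [h1, ValuationSubring.mem_nonunits_iff]
      obtain ⟨i, hi⟩ : ∃ i, p.coeff i ≠ 0 := by
        by_contra hcon
        push Not at hcon
        exact hp (Polynomial.ext fun i => by rw [hcon i, coeff_zero])
      intro hlt
      have h2 : V.valuation (aeval x ((p.map (algebraMap E K)).map (φ : K →+* K))) <
          V.valuation (algebraMap K U 1) := by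
        rw [map_one, map_one]
        exact hlt
      rw [hV.val_poly_lt hu.base _ 1 one_ne_zero] at h2
      have h3 := h2 i
      rw [coeff_map, coeff_map, map_one, ← ValuationSubring.mem_nonunits_iff,
        ValuationSubring.mem_nonunits_iff_or] at h3
      have he0 : algebraMap E K (p.coeff i) ≠ 0 := (_root_.map_ne_zero _).2 hi
      rcases h3 with h3 | h3
      · exact he0 ((map_eq_zero _).1 h3)
      · apply h3
        rw [← map_inv₀, ← map_inv₀]
        exact (hφ _).2 (hu.base.const _)
  have h := hu.gauss_unique hG hV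
  have h2 : z ∈ V.comap (σ : U →+* U) ↔ z ∈ V := by rw [h]
  rwa [ValuationSubring.mem_comap] at h2

end Pool.Agent.GC
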