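import Pool.Agent.Helper13.GC.X4

/-!
# Block GC-X4b: automorphisms over `K(x)` which are trivial on the residues of `N`

`N` is any intermediate field containing `x` (not assumed stable).

Proof of `fixes_of_residue`.  Let `z ∈ N`.  Take a level `N₁ ∋ z` (`XSetup.exists_level {z}`, X1):
finite over `K(x)`, stable under all `g` with `g x = x`.  Let `H` be the set of the restrictions to `N₁` of
all `h : U ≃ₐ[K] U` with `h = id` on `N`: a finite group of automorphisms of `N₁` over `K(x)`
(`N₁ / K(x)` is finite).  `H` acts on the residue field `R₁ = resField N₁` (all `h` preserve `V`: X2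
`stable`), faithfully (X3 `trivial_of_residue`, applied to `N₁`).
Claim: `R₁^H` is contained in `resField N`: let `r ∈ R₁` be fixed by `H`, `r = π w`, `w ∈ V ∩ N₁`;
`w' = (1/|H|) ∑_{h ∈ H} h w` is in `V` (residue characteristic zero), fixed by all automorphisms over `N`
(they permute the terms), so in `N` (`U / K(x)` is Galois, so `U / N` is Galois:
`InfiniteGalois.mem_range_algebraMap_iff_fixed`), and `π w' = r`.
By `htriv` the automorphism `ρ` of `R₁` induced by `g` is trivial on `R₁^H`, so by Artin's theorem (Mathlib: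
`FixedPoints.toAlgAut_surjective` or `FixedPoints.toAlgHomEquiv`; finite group acting faithfully on a
field) `ρ` is induced by some `h`, `h = id` on `N`.  So `g⁻¹ h` is trivial on the residues of
`N₁`, hence on `N₁` (X3), and `g z = h z = z`.
(Another way: choose a primitive element of `resField` of `K(x)(z)`, if `[R_N : E(x̄)] = [N : K(x)]` is known.)
-/

universe u

namespace Pool.Agent.GC

open VC Polynomial Pool.Agent.LT Pool.Agent

variable {E K U R : Type u} [Field E] [IsAlgClosed E] [CharZero E] [Field K] [IsAlgClosed K]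
  [Algebra E K] [Field U] [Algebra K U] [Algebra E U] [IsScalarTower E K U] [Field R]
  [Algebra E R]
  {O : ValuationSubring K} {t : K} {x : U} {B : Finset K}
  {V : ValuationSubring U} {π : V →+* R}

omit [IsAlgClosed E] [CharZero E] [IsAlgClosed K] in
private lemma nonunits_aut4b {V : ValuationSubring U} (h : U ≃ₐ[K] U)
    (hst : ∀ z, h z ∈ V ↔ z ∈ V) (z : U) : h z ∈ V.nonunits ↔ z ∈ V.nonunits := by
  rw [ValuationSubring.mem_nonunits_iff_or, ValuationSubring.mem_nonunits_iff_or, ← map_inv₀, hst,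
    map_eq_zero_iff h h.injective]

omit [IsAlgClosed E] [CharZero E] [IsAlgClosed K] [Algebra E K] [Algebra E U]
  [IsScalarTower E K U] in
/-- elements which are fixed by all automorphisms over `N` are in `N` -/
private lemma mem_of_fixed4b (hgal : IsGalois (IntermediateField.adjoin K ({x} : Set U)) U)
    (N : IntermediateField K U) (hxN : x ∈ N) (w : U)
    (hw : ∀ k : U ≃ₐ[K] U, (∀ m ∈ N, k m = m) → k w = w) : w ∈ N := by
  have hle : IntermediateField.adjoin K ({x} : Set U) ≤ N := by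
    rw [IntermediateField.adjoin_le_iff, Set.singleton_subset_iff]
    exact hxN
  have h1 : IsGalois (IntermediateField.extendScalars hle) U := inferInstance
  obtain ⟨y, hy⟩ := (InfiniteGalois.mem_range_algebraMap_iff_fixed
    (k := IntermediateField.extendScalars hle) w).2 (fun f => by
      let k : U ≃ₐ[K] U := AlgEquiv.ofRingEquiv (f := f.toRingEquiv)
        (fun c => f.commutes ⟨algebraMap K U c, N.algebraMap_mem c⟩)
      exact hw k (fun m hm => f.commutes ⟨m, hm⟩))
  rw [← hy]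
  exact y.2

/-- An automorphism over `K(x)` which is trivial on the residues of `N` is trivial on `N`. -/
theorem XSetup.fixes_of_residue (hu : XSetup E O t B x) (hV : Gauss E O x V) (g : U ≃ₐ[K] U)
    (hgx : g x = x) (N : IntermediateField K U) (hxN : x ∈ N)
    (htriv : ∀ z ∈ V, z ∈ N → g z - z ∈ V.nonunits) : ∀ z ∈ N, g z = z := by
  classical
  intro z hz
  by_contra hgz
  obtain ⟨N₁, hzN₁, hst, hx, hs⟩ := hu.exists_level {z}
  have hz₁ : z ∈ N₁ := hzN₁ z (Finset.mem_singleton_self z)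
  have hfd : FiniteDimensional (IntermediateField.adjoin K {(⟨x, hx⟩ : N₁)}) N₁ :=
    hs.ff.finiteDimensional hs.tr
  let Γ := N₁ ≃ₐ[IntermediateField.adjoin K {(⟨x, hx⟩ : N₁)}] N₁
  have hfin : Finite Γ := inferInstance
  let _ : Fintype Γ := Fintype.ofFinite Γ
  have hstab : ∀ k : U ≃ₐ[K] U, k x = x → ∀ y, k y ∈ V ↔ y ∈ V := fun k hk y =>
    hu.stable hV (k : U ≃+* U) (RingEquiv.refl K) (fun c => k.commutes c) (fun _ => Iff.rfl) hk y
  -- lifts of the elements of `Γ`
  have hlift : ∀ γ : Γ, ∃ k : U ≃ₐ[K] U, k x = x ∧ ∀ y : N₁, k y = γ y := fun γ =>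
    hu.exists_lift hx hst (γ.restrictScalars K)
      (γ.commutes ⟨⟨x, hx⟩, IntermediateField.mem_adjoin_simple_self K (⟨x, hx⟩ : N₁)⟩)
  choose h hhx hh using hlift
  -- restrictions
  have hres : ∀ k : U ≃ₐ[K] U, k x = x → ∃ γ : Γ, ∀ y : N₁, ((γ y : N₁) : U) = k y := by
    intro k hk
    obtain ⟨k', hk'x, hk'⟩ := XSetup.exists_restrict (U := U) hx hst k hk
    refine ⟨AlgEquiv.ofRingEquiv (f := k'.toRingEquiv) fun c => ?_, fun y => (hk' y).symm⟩
    have h1 : ∀ y ∈ IntermediateField.adjoin K {(⟨x, hx⟩ : N₁)}, k' y = y := by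
      intro y hy
      induction hy using IntermediateField.adjoin_induction with
      | mem y hy =>
        rw [Set.mem_singleton_iff] at hy
        rw [hy]
        exact hk'x
      | algebraMap c => exact k'.commutes c
      | add a b _ _ ha hb => rw [map_add, ha, hb]
      | inv a _ ha => rw [map_inv₀, ha]
      | mul a b _ _ ha hb => rw [map_mul, ha, hb]
    exact h1 c.1 c.2
  have hext : ∀ γ γ' : Γ, (∀ y : N₁, ((γ y : N₁) : U) = γ' y) → γ = γ' := fun γ γ' hγ =>
    AlgEquiv.ext fun y => Subtype.ext (hγ y)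
  let H : Finset Γ := Finset.univ.filter fun γ =>
    ∃ k : U ≃ₐ[K] U, (∀ m ∈ N, k m = m) ∧ ∀ y : N₁, k y = γ y
  have hH : ∀ γ, γ ∈ H ↔ ∃ k : U ≃ₐ[K] U, (∀ m ∈ N, k m = m) ∧ ∀ y : N₁, k y = γ y := fun γ => by
    simp only [H, Finset.mem_filter, Finset.mem_univ, true_and]
  obtain ⟨g₁, hg₁⟩ := hres g hgx
  have hg₁H : g₁ ∉ H := by
    intro hc
    obtain ⟨k, hk, hkg⟩ := (hH _).1 hc
    apply hgz
    have h1 := hkg ⟨z, hz₁⟩
    rw [hg₁] at h1
    rw [← h1]
    exact hk z hz
  -- the characters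
  let S : Subring U := V.toSubring ⊓ N₁.toSubring
  let χ : Γ → (S →* IsLocalRing.ResidueField V) := fun γ =>
    { toFun := fun s => IsLocalRing.residue V ⟨h γ s, (hstab _ (hhx γ) _).2 s.2.1⟩
      map_one' := by
        have e : (⟨h γ ((1 : S) : U), (hstab _ (hhx γ) _).2 (1 : S).2.1⟩ : V) = 1 :=
          Subtype.ext (map_one (h γ))
        rw [e, map_one]
      map_mul' := fun s s' => by
        rw [← map_mul]
        congr 1
        exact Subtype.ext (map_mul (h γ) _ _) }
  have hπ : ∀ a b : V, IsLocalRing.residue V a = IsLocalRing.residue V b ↔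
      (a : U) - b ∈ V.nonunits := by
    intro a b
    rw [← sub_eq_zero, ← map_sub, IsLocalRing.residue_eq_zero_iff,
      ← ValuationSubring.coe_mem_nonunits_iff]
    rfl
  have hinj : Function.Injective χ := by
    intro γ γ' hγ
    have h1 : ∀ s ∈ V, s ∈ N₁ → h γ s - h γ' s ∈ V.nonunits := by
      intro s hsV hsN
      have h2 := DFunLike.congr_fun hγ (⟨s, hsV, hsN⟩ : S)
      exact (hπ _ _).1 h2
    have h3 : ∀ y ∈ N₁, (h γ').symm (h γ y) = y := by
      have hk' : (h γ').symm x = x := by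
        conv_lhs => rw [← hhx γ']
        exact (h γ').symm_apply_apply x
      refine hu.trivial_of_residue hV ((h γ).trans (h γ').symm) ?_ N₁ (fun y hy => ?_)
        (fun y hyV hyN => ?_)
      · change (h γ').symm (h γ x) = x
        rw [hhx γ, hk']
      · exact hst _ (by
          change (h γ').symm (h γ x) = x
          rw [hhx γ, hk']) y hy
      · change (h γ').symm (h γ y) - y ∈ V.nonunits
        rw [← nonunits_aut4b (h γ') (hstab _ (hhx γ')), map_sub, AlgEquiv.apply_symm_apply]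
        exact h1 y hyV hyN
    refine hext _ _ fun y => ?_
    rw [← hh γ y, ← hh γ' y, ← (h γ').apply_symm_apply (h γ y), h3 y y.2]
  have li := (linearIndependent_monoidHom S (IsLocalRing.ResidueField V)).comp χ hinj
  rw [Fintype.linearIndependent_iff] at li
  have hc := li (fun γ => (if γ ∈ H then 1 else 0) - (if g₁⁻¹ * γ ∈ H then 1 else 0)) (by
    funext s
    rw [Finset.sum_apply, Pi.zero_apply]
    -- the two sums
    have hcoe : ∀ f : Γ → V, ((∑ γ ∈ H, f γ : V) : U) = ∑ γ ∈ H, (f γ : U) := fun f =>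
      map_sum V.subtype f H
    let w : V := ∑ γ ∈ H, ⟨h γ s, (hstab _ (hhx γ) _).2 s.2.1⟩
    have hw : (w : U) = ∑ γ ∈ H, ((γ ⟨s, s.2.2⟩ : N₁) : U) := by
      simp only [w]
      refine (hcoe fun γ => ⟨h γ s, (hstab _ (hhx γ) _).2 s.2.1⟩).trans ?_
      exact Finset.sum_congr rfl fun γ _ => hh γ ⟨s, s.2.2⟩
    have hgw : g w ∈ V := (hstab g hgx _).2 w.2
    have h1 : ∑ γ ∈ H, χ γ s = IsLocalRing.residue V w := by
      simp only [w]
      rw [map_sum]
      rfl
    have h2 : ∑ γ ∈ H, χ (g₁ * γ) s = IsLocalRing.residue V ⟨g w, hgw⟩ := by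
      have e : (⟨g w, hgw⟩ : V) = ∑ γ ∈ H, ⟨h (g₁ * γ) s, (hstab _ (hhx _) _).2 s.2.1⟩ := by
        apply Subtype.ext
        refine Eq.trans ?_ (hcoe fun γ => ⟨h (g₁ * γ) s, (hstab _ (hhx _) _).2 s.2.1⟩).symm
        refine (congrArg g hw).trans ?_
        rw [map_sum]
        refine Finset.sum_congr rfl fun γ _ => ?_
        rw [← hg₁]
        exact (hh (g₁ * γ) ⟨s, s.2.2⟩).symm
      rw [e, map_sum]
      rfl
    have h3 : (w : U) ∈ N := by
      refine mem_of_fixed4b hu.gal N hxN _ fun k hk => ?_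
      obtain ⟨k₁, hk₁⟩ := hres k (hk x hxN)
      rw [hw, map_sum]
      have h4 : ∀ γ, k ((γ ⟨s, s.2.2⟩ : N₁) : U) = (((k₁ * γ) ⟨s, s.2.2⟩ : N₁) : U) := fun γ => by
        rw [← hk₁]
        rfl
      simp only [h4]
      refine Finset.sum_bij' (fun γ _ => k₁ * γ) (fun γ _ => k₁⁻¹ * γ) ?_ ?_ ?_ ?_ ?_
      · intro γ hγ
        obtain ⟨l, hl, hlγ⟩ := (hH _).1 hγ
        refine (hH _).2 ⟨l.trans k, fun m hm => ?_, fun y => ?_⟩
        · change k (l m) = m
          rw [hl m hm, hk m hm]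
        · change k (l y) = _
          rw [hlγ, ← hk₁]
          rfl
      · intro γ hγ
        obtain ⟨l, hl, hlγ⟩ := (hH _).1 hγ
        refine (hH _).2 ⟨l.trans k.symm, fun m hm => ?_, fun y => ?_⟩
        · change k.symm (l m) = m
          rw [hl m hm]
          conv_lhs => rw [← hk m hm]
          exact k.symm_apply_apply m
        · change k.symm (l y) = _
          rw [hlγ]
          apply k.injective
          rw [k.apply_symm_apply, ← hk₁]
          have e : k₁ ((k₁⁻¹ * γ) y) = γ y := by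
            rw [← AlgEquiv.mul_apply, mul_inv_cancel_left]
          rw [e]
      · intro γ _
        exact inv_mul_cancel_left k₁ γ
      · intro γ _
        exact mul_inv_cancel_left k₁ γ
      · intro γ _
        rfl
    have h5 : IsLocalRing.residue V ⟨g w, hgw⟩ = IsLocalRing.residue V w :=
      (hπ _ _).2 (htriv w w.2 h3)
    have h6 : ∑ γ : Γ, (if γ ∈ H then (1 : IsLocalRing.ResidueField V) else 0) * χ γ s =
        ∑ γ ∈ H, χ γ s := by
      simp only [ite_mul, one_mul, zero_mul]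
      rw [Finset.sum_ite_mem, Finset.univ_inter]
    have h7 : ∑ γ : Γ, (if g₁⁻¹ * γ ∈ H then (1 : IsLocalRing.ResidueField V) else 0) * χ γ s =
        ∑ γ ∈ H, χ (g₁ * γ) s := by
      rw [← Equiv.sum_comp (Equiv.mulLeft g₁)]
      simp only [Equiv.coe_mulLeft, inv_mul_cancel_left, ite_mul, one_mul, zero_mul]
      rw [Finset.sum_ite_mem, Finset.univ_inter]
    have h8 : ∀ γ : Γ, (((if γ ∈ H then (1 : IsLocalRing.ResidueField V) else 0) -
        (if g₁⁻¹ * γ ∈ H then 1 else 0)) • ((⇑(χ γ) : S → IsLocalRing.ResidueField V))) s =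
        (if γ ∈ H then (1 : IsLocalRing.ResidueField V) else 0) * χ γ s -
        (if g₁⁻¹ * γ ∈ H then (1 : IsLocalRing.ResidueField V) else 0) * χ γ s := fun γ => by
      rw [Pi.smul_apply, smul_eq_mul, sub_mul]
    refine (Finset.sum_congr rfl fun γ _ => h8 γ).trans ?_
    rw [Finset.sum_sub_distrib, h6, h7, h1, h2, h5, sub_self]) g₁
  have h1 : (1 : Γ) ∈ H := (hH _).2 ⟨AlgEquiv.refl, fun _ _ => rfl, fun _ => rfl⟩
  simp only [if_neg hg₁H, inv_mul_cancel, if_pos h1, zero_sub, neg_eq_zero, one_ne_zero] at hc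

/-- Every automorphism of the residue field over the residue field of `N` is induced by an
automorphism over `N`. -/
theorem XSetup.exists_induces_over (hu : XSetup E O t B x) (hV : Gauss E O x V)
    (hR : Res E V π) (N : IntermediateField K U) (hxN : x ∈ N) (ρ : R ≃ₐ[E] R)
    (hρ : ∀ r ∈ resField hV hR N, ρ r = r) :
    ∃ g : U ≃ₐ[K] U, (∀ m ∈ N, g m = m) ∧ Induces π g ρ := by
  obtain ⟨g, hgx, hg⟩ := hu.exists_induces hV hR ρ (hρ _ ⟨⟨x, hV.x_mem⟩, hxN, rfl⟩)
  refine ⟨g, ?_, hg⟩
  refine hu.fixes_of_residue hV g hgx N hxN fun z hz hzM => ?_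
  have hgz : g z ∈ V := (hu.stable hV (g : U ≃+* U) (RingEquiv.refl K) (fun c => g.commutes c)
    (fun _ => Iff.rfl) hgx z).2 hz
  have h1 : π ⟨g z, hgz⟩ = π ⟨z, hz⟩ := by
    rw [← hg ⟨z, hz⟩ ⟨g z, hgz⟩ rfl]
    exact hρ _ ⟨⟨z, hz⟩, hzM, rfl⟩
  have h2 : π (⟨g z, hgz⟩ - ⟨z, hz⟩) = 0 := by rw [map_sub, h1, sub_self]
  exact (hR.ker _).1 h2

end Pool.Agent.GC
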