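import Pool.Agent.Helper13.GC.X0
import Pool.Agent.Helper13.GC.X4
import Pool.Agent.Helper13.GC.X5
import Pool.Agent.SC.G6
import Pool.Agent.SC.Ext
import Pool.Agent.Helper91.Section.Decomp

/-!
# Automorphisms fixing a place of the residue field (adapted from LT/U6)

`eq_one_of_fixes_place`: this is `SC.eq_one_of_fix` (SC/G6.lean) (`g` as an automorphism over `M`).

`eq_one_of_fin`.  Let `ē ∈ E` be the residue of `x̄` at `Q` (`E ⊆ Q ≠ ⊤`, `R` algebraic over
`E(x̄)`).  We may assume that there is `b ∈ B` with `b - ē ∈ 𝔪_O`: otherwise use `XSetup.insert`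
(U0) with `a = ē`.  Let `𝒪` be the ring of the `z` with `IntO O x z`; it is stable under
`G = Gal(U/K(x))`, `𝒪^G = 𝒪 ∩ K(x) = O[x]` and `𝒪 ⊆ V`.  The residues `z̄` of `z ∈ 𝒪` are
integral over `E[x̄]`, so they are in `Q`; `𝔮 = {z ∈ 𝒪 | z̄ ∈ 𝔪_Q}` is a prime ideal of `𝒪`.  For a valuation
ring `P ⊇ K` of `U` with `x - b ∈ 𝔪_P` let `𝔮_P` be the set of the `z ∈ 𝒪` whose value at `P` (in `O` by
U5) is in `𝔪_O`, a prime ideal.  `𝔮` and `𝔮_P` both lie over the ideal `{p ∈ O[x] | p(b) ∈ 𝔪_O}`
of `O[x]`, so by transitivity (`Helper91.Sect.conj_abstract`) there is `σ ∈ G` with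
`𝔮 = 𝔮_P` after replacing `P` by `σP` (existence of one `P`: the place `x = b` of `K(x)` extends to `U`).  As
`ρ` fixes `Q` and `g` induces `ρ`, `g 𝔮 = 𝔮`.  Let `P'' = {z | g z ∈ P}`; `𝔮_{P''} = g⁻¹ 𝔮_P = 𝔮_P`.
If `P'' ≠ P` then by `exists_separating` (U5) some `z ∈ 𝒪` has values `c, c''` at `P, P''` with
`c - c''` a unit; subtract the residue `e ∈ E` of `c`: `z - e ∈ 𝔮_P`, `∉ 𝔮_{P''}`.
Contradiction.  So `g` fixes `P` and `g = 1` by the first theorem.

`eq_one_of_fixes`: if `x̄ ∉ Q` choose `a` by `exists_avoid` (A11), pass to the coordinate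
`x₁ = (x - a)⁻¹` (`XSetup.sub`, `XSetup.inv`, `Gauss.sub_iff`, `Gauss.inv`), whose residue is in `Q`,
and use `eq_one_of_fin` for `x₁`.
-/

universe u

namespace Pool.Agent.GC

open VC Polynomial Pool.Agent.LT Pool.Agent

section aux62

variable {K U : Type u} [Field K] [Field U] [Algebra K U] {O : ValuationSubring K} {x : U}

private lemma nu_add62 {F : Type u} [Field F] {R : ValuationSubring F} {x y : F}
    (hx : x ∈ R.nonunits) (hy : y ∈ R.nonunits) : x + y ∈ R.nonunits := by
  rw [ValuationSubring.mem_nonunits_iff] at hx hy ⊢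
  exact R.valuation.map_add_lt hx hy

private lemma nu_sub62 {F : Type u} [Field F] {R : ValuationSubring F} {x y : F}
    (hx : x ∈ R.nonunits) (hy : y ∈ R.nonunits) : x - y ∈ R.nonunits := by
  rw [ValuationSubring.mem_nonunits_iff] at hx hy ⊢
  rw [sub_eq_add_neg]
  exact R.valuation.map_add_lt hx (by rwa [Valuation.map_neg])

private lemma nu_mul62 {F : Type u} [Field F] {R : ValuationSubring F} {x y : F} (hx : x ∈ R)
    (hy : y ∈ R.nonunits) : x * y ∈ R.nonunits := by
  rw [ValuationSubring.mem_nonunits_iff] at hy ⊢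
  rw [map_mul]
  exact lt_of_le_of_lt (mul_le_of_le_one_left' ((R.valuation_le_one_iff x).2 hx)) hy

/-- a nonzero constant is not in the maximal ideal -/
private lemma const_nu62 {F L : Type u} [Field F] [Field L] [Algebra F L] {R : ValuationSubring L}
    (hR : ∀ c : F, algebraMap F L c ∈ R) {c : F} (hc : algebraMap F L c ∈ R.nonunits) : c = 0 := by
  by_contra h0
  have h1 := nu_mul62 (hR c⁻¹) hc
  rw [← map_mul, inv_mul_cancel₀ h0, map_one, ValuationSubring.mem_nonunits_iff, map_one] at h1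
  exact lt_irrefl _ h1

private lemma val_uniq62 {P : ValuationSubring U} (hP : ∀ c : K, algebraMap K U c ∈ P) {z : U}
    {c c' : K} (h : z - algebraMap K U c ∈ P.nonunits) (h' : z - algebraMap K U c' ∈ P.nonunits) :
    c = c' := by
  have h1 := nu_sub62 h' h
  have h2 : z - algebraMap K U c' - (z - algebraMap K U c) = algebraMap K U (c - c') := by
    rw [map_sub]
    ring
  rw [h2] at h1
  exact sub_eq_zero.1 (const_nu62 hP h1)

/-- the values of the integral elements -/
private lemma exists_value62 [IsAlgClosed K] {P : ValuationSubring U}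
    (hP : ∀ c : K, algebraMap K U c ∈ P) {z : U} {b : K} (hx : x - algebraMap K U b ∈ P.nonunits)
    (hz : IntO O x z) : ∃ c : K, z - algebraMap K U c ∈ P.nonunits := by
  obtain ⟨Q, hQ, -, h0⟩ := hz
  have hle : ∀ y ∈ P.nonunits, y ∈ P := fun y hy => P.nonunits_subset hy
  have hxP : x ∈ P := by
    have := add_mem (hle _ hx) (hP b)
    rwa [sub_add_cancel] at this
  let ι : K →+* P := (algebraMap K U).codRestrict P.toSubring hP
  let x' : P := ⟨x, hxP⟩
  have h3 : P.subtype.comp (eval₂RingHom ι x') = (aeval x : K[X] →ₐ[K] U).toRingHom := by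
    refine Polynomial.ringHom_ext ?_ ?_
    · intro a
      simp [ι]
    · simp [x']
  have hzP : z ∈ P := by
    have h1 : IsIntegral P z := by
      refine ⟨Q.map (eval₂RingHom ι x'), hQ.map _, ?_⟩
      rw [eval₂_map]
      have h4 : (algebraMap P U).comp (eval₂RingHom ι x') = (aeval x : K[X] →ₐ[K] U).toRingHom := h3
      rw [h4]
      exact h0
    obtain ⟨y, hy⟩ := IsIntegrallyClosed.isIntegral_iff.1 h1
    rw [← hy]
    exact y.2
  let z' : P := ⟨z, hzP⟩
  let r := IsLocalRing.residue P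
  have hrx : r x' = r (ι b) := by
    rw [← sub_eq_zero, ← map_sub, IsLocalRing.residue_eq_zero_iff,
      ← ValuationSubring.coe_mem_nonunits_iff]
    exact hx
  have h1 : eval₂ (eval₂RingHom ι x') z' Q = 0 := by
    have h2 : P.subtype (eval₂ (eval₂RingHom ι x') z' Q) = 0 := by
      rw [hom_eval₂, h3]
      exact h0
    exact Subtype.ext h2
  have h4 : eval₂ (r.comp ι) (r z') (Q.map (evalRingHom b)) = 0 := by
    rw [eval₂_map]
    have h5 : (r.comp ι).comp (evalRingHom b) = r.comp (eval₂RingHom ι x') := by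
      refine Polynomial.ringHom_ext ?_ ?_
      · intro a
        simp
      · simp [hrx]
    rw [h5, ← hom_eval₂, h1, map_zero]
  have hprod := (IsAlgClosed.splits (Q.map (evalRingHom b))).eq_prod_roots_of_monic (hQ.map _)
  rw [hprod, eval₂_multiset_prod, Multiset.prod_eq_zero_iff, Multiset.map_map, Multiset.mem_map] at h4
  obtain ⟨c, -, hc⟩ := h4
  refine ⟨c, ?_⟩
  have h6 : r z' - r (ι c) = 0 := by
    have := hc
    simpa using this
  rw [← map_sub, IsLocalRing.residue_eq_zero_iff, ← ValuationSubring.coe_mem_nonunits_iff] at h6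
  exact h6

private lemma intO_poly62 (p : O[X]) : IntO O x (phi54 O x p) := by
  rw [intO_iff54]
  exact RingHom.isIntegralElem_map _

/-- the ring of the integral elements -/
private def ringO62 (O : ValuationSubring K) (x : U) : Subring U where
  carrier := {z | IntO O x z}
  mul_mem' := by
    intro a b ha hb
    change IntO O x _ at ha hb ⊢
    rw [intO_iff54] at ha hb ⊢
    exact ha.mul _ hb
  one_mem' := by
    change IntO O x _
    rw [intO_iff54]
    exact RingHom.isIntegralElem_one _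
  add_mem' := by
    intro a b ha hb
    change IntO O x _ at ha hb ⊢
    rw [intO_iff54] at ha hb ⊢
    exact ha.add _ hb
  zero_mem' := by
    change IntO O x _
    rw [intO_iff54]
    exact RingHom.isIntegralElem_zero _
  neg_mem' := by
    intro a ha
    change IntO O x _ at ha ⊢
    rw [intO_iff54] at ha ⊢
    exact ha.neg _

private lemma mem_ringO62 {z : U} : z ∈ ringO62 O x ↔ IntO O x z := Iff.rfl

/-- the value map -/
private lemma exists_vmap62 [IsAlgClosed K] {P : ValuationSubring U}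
    (hP : ∀ c : K, algebraMap K U c ∈ P) {b : K} (hb : b ∈ O)
    (hx : x - algebraMap K U b ∈ P.nonunits) :
    ∃ v : ringO62 O x →+* O, ∀ z : ringO62 O x, (z : U) - algebraMap K U (v z : K) ∈ P.nonunits := by
  have hex : ∀ z : ringO62 O x, ∃ c : K, (z : U) - algebraMap K U c ∈ P.nonunits := fun z =>
    exists_value62 hP hx z.2
  have hle : ∀ y ∈ P.nonunits, y ∈ P := fun y hy => P.nonunits_subset hy
  choose f hf using hex
  have hmem : ∀ z : ringO62 O x, (z : U) ∈ P := by
    intro z
    have := add_mem (hle _ (hf z)) (hP (f z))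
    rwa [sub_add_cancel] at this
  have hu : ∀ (z : ringO62 O x) (c : K), (z : U) - algebraMap K U c ∈ P.nonunits → f z = c :=
    fun z c h => val_uniq62 hP (hf z) h
  have h0 : (0 : U) ∈ P.nonunits := by
    rw [ValuationSubring.mem_nonunits_iff, map_zero]
    exact zero_lt_one
  let v : ringO62 O x →+* K :=
    { toFun := f
      map_one' := hu 1 1 (by
        rw [map_one]
        have : ((1 : ringO62 O x) : U) - 1 = 0 := by simp
        rw [this]
        exact h0)
      map_zero' := hu 0 0 (by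
        rw [map_zero]
        have : ((0 : ringO62 O x) : U) - 0 = 0 := by simp
        rw [this]
        exact h0)
      map_mul' := by
        intro z w
        apply hu
        have h1 := nu_add62 (nu_mul62 (hmem z) (hf w)) (nu_mul62 (hP (f w)) (hf z))
        have h2 : (z : U) * ((w : U) - algebraMap K U (f w)) + algebraMap K U (f w) *
            ((z : U) - algebraMap K U (f z)) = ((z * w : ringO62 O x) : U) -
            algebraMap K U (f z * f w) := by
          rw [map_mul]
          push_cast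
          ring
        rwa [h2] at h1
      map_add' := by
        intro z w
        apply hu
        have h1 := nu_add62 (hf z) (hf w)
        have h2 : (z : U) - algebraMap K U (f z) + ((w : U) - algebraMap K U (f w)) =
            ((z + w : ringO62 O x) : U) - algebraMap K U (f z + f w) := by
          rw [map_add]
          push_cast
          ring
        rwa [h2] at h1 }
  exact ⟨v.codRestrict O.toSubring (fun z => IntO.eval_mem z.2 hP hb hx (hf z)), fun z => hf z⟩

end aux62

section aux62b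

variable {E K U R : Type u} [Field E] [IsAlgClosed E] [CharZero E] [Field K] [IsAlgClosed K]
  [Algebra E K] [Field U] [Algebra K U] [Algebra E U] [IsScalarTower E K U] [Field R]
  [Algebra E R]
  {O : ValuationSubring K} {t : K} {x : U} {B : Finset K}
  {V : ValuationSubring U} {π : V →+* R}

set_option linter.unusedSectionVars false

private lemma nonunits_iff62 (hV : Gauss E O x V) (c : K) :
    algebraMap K U c ∈ V.nonunits ↔ c ∈ O.nonunits := by
  rw [ValuationSubring.mem_nonunits_iff, ValuationSubring.mem_nonunits_iff]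
  have h1 := (hV.val_eq_iff 1 c).not
  rwa [map_one, map_one, map_one, not_le, not_le] at h1

/-- the residues of the constants -/
private lemma pi_const62 (hV : Gauss E O x V) (hR : Res E V π) {c : K} {e : E} (hc : c ∈ O)
    (h : c - algebraMap E K e ∈ O.nonunits) (hc' : algebraMap K U c ∈ V) :
    π ⟨algebraMap K U c, hc'⟩ = algebraMap E R e := by
  have he : algebraMap E K e ∈ O := by
    have h1 := sub_mem hc (O.nonunits_subset h)
    rwa [sub_sub_cancel] at h1
  have heU : algebraMap K U (algebraMap E K e) ∈ V := (hV.mem_iff _).2 he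
  rw [← hR.const e ⟨algebraMap K U (algebraMap E K e), heU⟩
    (IsScalarTower.algebraMap_apply E K U e).symm, ← sub_eq_zero, ← map_sub, hR.ker]
  change algebraMap K U c - algebraMap K U (algebraMap E K e) ∈ V.nonunits
  rw [← map_sub, nonunits_iff62 hV]
  exact h

private lemma pi_poly62 (hb : Base E O t) (hV : Gauss E O x V) (hR : Res E V π)
    {Q : ValuationSubring R} (hQE : ∀ e : E, algebraMap E R e ∈ Q)
    (hxQ : π ⟨x, hV.x_mem⟩ ∈ Q) (p : O[X]) (h : phi54 O x p ∈ V) : π ⟨phi54 O x p, h⟩ ∈ Q := by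
  induction p using Polynomial.induction_on' with
  | add p q hp hq =>
    have h1 : phi54 O x p ∈ V := (intO_poly62 p).mem hV
    have h2 : phi54 O x q ∈ V := (intO_poly62 q).mem hV
    have h3 : (⟨phi54 O x (p + q), h⟩ : V) = ⟨phi54 O x p, h1⟩ + ⟨phi54 O x q, h2⟩ :=
      Subtype.ext (map_add _ _ _)
    rw [h3, map_add]
    exact add_mem (hp h1) (hq h2)
  | monomial n a =>
    have ha : algebraMap K U (a : K) ∈ V := (hV.mem_iff _).2 a.2
    have h3 : (⟨phi54 O x (monomial n a), h⟩ : V) = ⟨algebraMap K U (a : K), ha⟩ *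
        ⟨x, hV.x_mem⟩ ^ n := by
      apply Subtype.ext
      change phi54 O x (monomial n a) = algebraMap K U (a : K) * x ^ n
      rw [phi54_apply, map_monomial, aeval_monomial]
      rfl
    obtain ⟨e, he⟩ := hb.exists_residue a.2
    rw [h3, map_mul, map_pow, pi_const62 hV hR a.2 he ha]
    exact mul_mem (hQE e) (pow_mem hxQ n)

private lemma pi_mem62 (hb : Base E O t) (hV : Gauss E O x V) (hR : Res E V π)
    {Q : ValuationSubring R} (hQE : ∀ e : E, algebraMap E R e ∈ Q)
    (hxQ : π ⟨x, hV.x_mem⟩ ∈ Q) {z : U} (hz : IntO O x z) (h : z ∈ V) : π ⟨z, h⟩ ∈ Q := by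
  rw [intO_iff54] at hz
  obtain ⟨p, hp, h0⟩ := hz
  have hφ : ∀ q : O[X], phi54 O x q ∈ V := fun q => (intO_poly62 q).mem hV
  let φ' : O[X] →+* V := (phi54 O x).codRestrict V.toSubring hφ
  have hφQ : ∀ q : O[X], π (φ' q) ∈ Q := fun q => pi_poly62 hb hV hR hQE hxQ q (hφ q)
  let θ : O[X] →+* Q := (π.comp φ').codRestrict Q.toSubring hφQ
  have h1 : eval₂ φ' ⟨z, h⟩ p = 0 := by
    have h2 : V.subtype (eval₂ φ' ⟨z, h⟩ p) = 0 := by
      rw [hom_eval₂]
      exact h0
    exact Subtype.ext h2
  have h2 : IsIntegral Q (π ⟨z, h⟩) := by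
    refine ⟨p.map θ, hp.map _, ?_⟩
    rw [eval₂_map]
    have h3 : (algebraMap Q R).comp θ = π.comp φ' := rfl
    rw [h3, ← hom_eval₂, h1, map_zero]
  obtain ⟨y, hy⟩ := IsIntegrallyClosed.isIntegral_iff.1 h2
  rw [← hy]
  exact y.2

/-- the residue of `x̄` at `Q` -/
private lemma exists_res62 (hu : XSetup E O t B x) (hV : Gauss E O x V) (hR : Res E V π)
    (Q : ValuationSubring R) (hQE : ∀ e : E, algebraMap E R e ∈ Q) (hQ1 : Q ≠ ⊤)
    (hxQ : π ⟨x, hV.x_mem⟩ ∈ Q) : ∃ e : E, π ⟨x, hV.x_mem⟩ - algebraMap E R e ∈ Q.nonunits := by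
  by_contra hcon
  push Not at hcon
  obtain ⟨htr, hgal⟩ := hu.isGalois_residue hV hR
  set y := π ⟨x, hV.x_mem⟩ with hy
  have hval : ∀ p : E[X], p ≠ 0 → Q.valuation (aeval y p) = 1 := by
    intro p hp
    have hc1 : ∀ c : E, c ≠ 0 → Q.valuation (algebraMap E R c) = 1 := by
      intro c hc
      refine le_antisymm ((Q.valuation_le_one_iff _).2 (hQE c)) ?_
      rw [← not_lt, ← ValuationSubring.mem_nonunits_iff]
      exact fun h => hc (const_nu62 hQE h)
    have h1 : ∀ s : Multiset E, Q.valuation (aeval y (s.map fun a => X - C a).prod) = 1 := by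
      intro s
      induction s using Multiset.induction_on with
      | empty => simp
      | cons a s ih =>
        rw [Multiset.map_cons, Multiset.prod_cons, map_mul, map_mul, ih, mul_one, map_sub, aeval_X,
          aeval_C]
        refine le_antisymm ((Q.valuation_le_one_iff _).2 (sub_mem hxQ (hQE a))) ?_
        rw [← not_lt, ← ValuationSubring.mem_nonunits_iff]
        exact hcon a
    have h2 := (IsAlgClosed.splits p).eq_prod_roots
    rw [h2, map_mul, map_mul, h1, mul_one, aeval_C]
    exact hc1 _ (leadingCoeff_ne_zero.2 hp)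
  have hsub : ∀ r ∈ IntermediateField.adjoin E {y}, algebraMap R R r ∈ Q := by
    intro r hr
    obtain ⟨p, q, hpq⟩ := (IntermediateField.mem_adjoin_simple_iff E r).1 hr
    change r ∈ Q
    rw [hpq, ← Q.valuation_le_one_iff, map_div₀]
    rcases eq_or_ne q 0 with rfl | hq
    · rw [map_zero, map_zero, div_zero]
      exact zero_le_one
    · rw [hval q hq, div_one]
      rcases eq_or_ne p 0 with rfl | hp
      · rw [map_zero, map_zero]
        exact zero_le_one
      · rw [hval p hp]
  apply hQ1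
  rw [eq_top_iff]
  intro r _
  exact SC.mem_of_integral' Q (IntermediateField.adjoin E {y}) hsub
    (Algebra.IsAlgebraic.isAlgebraic (R := IntermediateField.adjoin E {y}) r)

open IntermediateField algebraAdjoinAdjoin in
/-- an integral element of `K(x)` is a polynomial with coefficients in `O` -/
private lemma exists_poly62 (hu : XSetup E O t B x) (hV : Gauss E O x V) {z : U}
    (hz : IntO O x z) (hzL : z ∈ IntermediateField.adjoin K {x}) : ∃ p : O[X], phi54 O x p = z := by
  have : IsIntegrallyClosed (Algebra.adjoin K {x}) :=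
    IsIntegrallyClosed.of_equiv (algEquivOfTranscendental K x hu.tr).toRingEquiv
  have hzA : IsIntegral (Algebra.adjoin K {x}) z := by
    obtain ⟨Q, hQ, -, h0⟩ := hz
    refine ⟨Q.map (algEquivOfTranscendental K x hu.tr).toRingEquiv.toRingHom, hQ.map _, ?_⟩
    rw [eval₂_map]
    have h1 : (algebraMap (Algebra.adjoin K {x}) U).comp
        (algEquivOfTranscendental K x hu.tr).toRingEquiv.toRingHom =
        (aeval x : K[X] →ₐ[K] U).toRingHom := by
      refine Polynomial.ringHom_ext ?_ ?_
      · intro a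
        simp
      · simp
    rw [h1]
    exact h0
  have h1 : IsIntegral (Algebra.adjoin K {x}) (⟨z, hzL⟩ : IntermediateField.adjoin K {x}) := by
    have h2 : algebraMap (IntermediateField.adjoin K {x}) U ⟨z, hzL⟩ = z := rfl
    rw [← h2] at hzA
    exact (isIntegral_algebraMap_iff (algebraMap (IntermediateField.adjoin K {x}) U).injective).1 hzA
  obtain ⟨y, hy⟩ := IsIntegrallyClosed.isIntegral_iff.1 h1
  have h3 : (y : U) ∈ (aeval x : K[X] →ₐ[K] U).range := by
    rw [← Algebra.adjoin_singleton_eq_range_aeval]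
    exact y.2
  obtain ⟨p, hp⟩ := h3
  have h4 : aeval x p = z := by
    have h5 : (y : U) = z := congrArg Subtype.val hy
    rw [← h5]
    exact hp
  have h5 : ∀ i, p.coeff i ∈ O := by
    intro i
    rw [← O.valuation_le_one_iff]
    have h6 := (hV.val_poly hu.base p 1).1 (by
      rw [map_one, map_one, h4]
      exact (V.valuation_le_one_iff _).2 (hz.mem hV)) i
    rwa [map_one] at h6
  have hl : p ∈ lifts O.subtype := by
    rw [lifts_iff_coeff_lifts]
    exact fun n => ⟨⟨_, h5 n⟩, rfl⟩
  obtain ⟨q, hq⟩ := (mem_lifts p).1 hl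
  refine ⟨q, ?_⟩
  rw [phi54_apply, hq, h4]

end aux62b

variable {E K U R : Type u} [Field E] [IsAlgClosed E] [CharZero E] [Field K] [IsAlgClosed K]
  [Algebra E K] [Field U] [Algebra K U] [Algebra E U] [IsScalarTower E K U] [Field R]
  [Algebra E R]
  {O : ValuationSubring K} {t : K} {x : U} {B : Finset K}
  {V : ValuationSubring U} {π : V →+* R}

/-- The case of the places which are finite with respect to `x`. -/
theorem XSetup.exists_fixed_fin (hu : XSetup E O t B x) (hV : Gauss E O x V) (hR : Res E V π)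
    (g : U ≃ₐ[K] U) (hgx' : g x = x) (ρ : R ≃ₐ[E] R) (hρ : Induces π g ρ)
    (Q : ValuationSubring R) (hQE : ∀ e : E, algebraMap E R e ∈ Q) (hQ1 : Q ≠ ⊤)
    (hxQ : π ⟨x, hV.x_mem⟩ ∈ Q) (hρQ : ∀ r, ρ r ∈ Q ↔ r ∈ Q) :
    ∃ P : ValuationSubring U, (∀ c : K, algebraMap K U c ∈ P) ∧ P ≠ ⊤ ∧ ∀ z, g z ∈ P ↔ z ∈ P := by
  classical
  have hKz : CharZero K := charZero_of_injective_algebraMap (algebraMap E K).injective
  have hbase := hu.base
  obtain ⟨e, he⟩ := exists_res62 hu hV hR Q hQE hQ1 hxQ
  -- we may assume that the point is in `B`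
  obtain ⟨B', hu', b, hbB, hbe⟩ : ∃ B' : Finset K, XSetup E O t B' x ∧ ∃ b ∈ B',
      b - algebraMap E K e ∈ O.nonunits := by
    by_cases hex : ∃ b ∈ B, b - algebraMap E K e ∈ O.nonunits
    · exact ⟨B, hu, hex⟩
    · push Not at hex
      refine ⟨Insert.insert (algebraMap E K e) B, hu.insert (hbase.const e) hex, algebraMap E K e,
        Finset.mem_insert_self _ _, ?_⟩
      rw [sub_self, ValuationSubring.mem_nonunits_iff, map_zero]
      exact zero_lt_one
  have hbO : b ∈ O := hu'.B_mem b hbB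
  have hbV : algebraMap K U b ∈ V := (hV.mem_iff _).2 hbO
  have hπb : π ⟨algebraMap K U b, hbV⟩ = algebraMap E R e := pi_const62 hV hR hbO hbe hbV
  -- the group
  let L := IntermediateField.adjoin K {x}
  have hgal : IsGalois L U := hu.gal
  have hgx : ∀ σ : U ≃ₐ[L] U, (σ.restrictScalars K) x = x := by
    intro σ
    exact σ.commutes ⟨x, IntermediateField.mem_adjoin_simple_self K x⟩
  have hst : ∀ (σ : U ≃ₐ[L] U) (z : U), z ∈ ringO62 O x → σ z ∈ ringO62 O x := fun σ z hz =>
    IntO.map hz (σ.restrictScalars K) (hgx σ)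
  let act : MulSemiringAction (U ≃ₐ[L] U) (ringO62 O x) :=
    { smul := fun σ z => ⟨σ z, hst σ z z.2⟩
      one_smul := fun z => Subtype.ext rfl
      mul_smul := fun σ τ z => Subtype.ext rfl
      smul_zero := fun σ => Subtype.ext (map_zero σ)
      smul_add := fun σ a b => Subtype.ext (map_add σ (a : U) b)
      smul_one := fun σ => Subtype.ext (map_one σ)
      smul_mul := fun σ a b => Subtype.ext (map_mul σ (a : U) b) }
  have hcoe : ∀ (σ : U ≃ₐ[L] U) (z : ringO62 O x), ((σ • z : ringO62 O x) : U) = σ z :=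
    fun σ z => rfl
  let top : TopologicalSpace (ringO62 O x) := ⊥
  have hdisc : DiscreteTopology (ringO62 O x) := ⟨rfl⟩
  have hcont : ContinuousSMul (U ≃ₐ[L] U) (ringO62 O x) := by
    rw [continuousSMul_iff_stabilizer_isOpen]
    intro b
    have h1 := stabilizer_isOpen_of_isIntegral (K := L) (L := U) (b : U)
    convert h1 using 1
    ext σ
    simp only [SetLike.mem_coe, MulAction.mem_stabilizer_iff]
    constructor
    · intro h
      exact congrArg Subtype.val h
    · intro h
      exact Subtype.ext h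
  -- a place above the point
  have hinj : Function.Injective (aeval x : K[X] →ₐ[K] U).toRingHom :=
    transcendental_iff_injective.1 hu.tr
  obtain ⟨P₀, hP₀1, hP₀2⟩ := SC.exists_val_ker (aeval x : K[X] →ₐ[K] U).toRingHom hinj
    (evalRingHom b)
  have hP₀ : ∀ c : K, algebraMap K U c ∈ P₀ := by
    intro c
    have := hP₀1 (C c)
    simpa using this
  have hxP₀ : x - algebraMap K U b ∈ P₀.nonunits := by
    have h1 := (hP₀2 (X - C b)).2 (by simp)
    rw [ValuationSubring.mem_nonunits_iff]
    simpa using h1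
  obtain ⟨v, hv⟩ := exists_vmap62 (O := O) hP₀ hbO hxP₀
  -- the prime ideals
  let 𝔭 : Ideal (ringO62 O x) := (IsLocalRing.maximalIdeal O).comap v
  have h𝔭 : 𝔭.IsPrime := Ideal.comap_isPrime v _
  have hmem𝔭 : ∀ z : ringO62 O x, z ∈ 𝔭 ↔ (v z : K) ∈ O.nonunits := by
    intro z
    rw [ValuationSubring.coe_mem_nonunits_iff]
    exact Iff.rfl
  let ιV : ringO62 O x →+* V := Subring.inclusion (T := V.toSubring) (fun z hz => IntO.mem hV hz)
  have hιV : ∀ z : ringO62 O x, ((ιV z : V) : U) = z := fun z => rfl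
  let fQ : ringO62 O x →+* Q := (π.comp ιV).codRestrict Q.toSubring
    (fun z => pi_mem62 hbase hV hR hQE hxQ z.2 _)
  let 𝔮 : Ideal (ringO62 O x) := (IsLocalRing.maximalIdeal Q).comap fQ
  have h𝔮 : 𝔮.IsPrime := Ideal.comap_isPrime fQ _
  have hmem𝔮 : ∀ z : ringO62 O x, z ∈ 𝔮 ↔ π (ιV z) ∈ Q.nonunits := by
    intro z
    have h1 : ((fQ z : Q) : R) ∈ Q.nonunits ↔ fQ z ∈ IsLocalRing.maximalIdeal Q :=
      ValuationSubring.coe_mem_nonunits_iff
    exact h1.symm
  -- they have the same trace
  have htrace : ∀ z : ringO62 O x, (∀ σ : U ≃ₐ[L] U, σ • z = z) → (z ∈ 𝔭 ↔ z ∈ 𝔮) := by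
    intro z hz
    have h1 : ∀ σ : U ≃ₐ[L] U, σ (z : U) = z := fun σ => congrArg Subtype.val (hz σ)
    obtain ⟨c, hc⟩ := (InfiniteGalois.mem_range_algebraMap_iff_fixed (k := L) (z : U)).2 h1
    have hzL : (z : U) ∈ IntermediateField.adjoin K {x} := by
      rw [← hc]
      exact c.2
    obtain ⟨p, hp⟩ := exists_poly62 hu hV z.2 hzL
    set b' : O := ⟨b, hbO⟩ with hb'
    set s : O[X] := p /ₘ (X - C b') with hs
    have hps : p = C (p.eval b') + (X - C b') * s := by
      have h2 := modByMonic_add_div p (X - C b')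
      rw [modByMonic_X_sub_C_eq_C_eval] at h2
      exact h2.symm
    have hφX : phi54 O x (X - C b') = x - algebraMap K U b := by
      rw [phi54_apply, Polynomial.map_sub, map_X, map_C, map_sub, aeval_X, aeval_C]
      rfl
    have hφC : phi54 O x (C (p.eval b')) = algebraMap K U ((p.eval b' : O) : K) := by
      rw [phi54_apply, map_C, aeval_C]
      rfl
    have hzs : (z : U) - algebraMap K U ((p.eval b' : O) : K) =
        (x - algebraMap K U b) * phi54 O x s := by
      have h2 := congrArg (phi54 O x) hps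
      rw [map_add, map_mul, hφX, hφC, hp] at h2
      rw [h2]
      ring
    set c' : O := p.eval b' with hc'
    obtain ⟨ε, hε⟩ := hbase.exists_residue c'.2
    have hεu : (c' : K) ∈ O.nonunits ↔ ε = 0 := by
      constructor
      · intro h
        have h2 := nu_sub62 h hε
        rw [sub_sub_cancel] at h2
        exact const_nu62 hbase.const h2
      · rintro rfl
        rwa [map_zero, sub_zero] at hε
    -- the side of `P₀`
    have hsP : phi54 O x s ∈ P₀ := by
      obtain ⟨c₁, hc₁⟩ := exists_value62 hP₀ hxP₀ (intO_poly62 (O := O) (x := x) s)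
      have h2 := add_mem (P₀.nonunits_subset hc₁) (hP₀ c₁)
      rwa [sub_add_cancel] at h2
    have hzP : (z : U) - algebraMap K U (c' : K) ∈ P₀.nonunits := by
      rw [hzs, mul_comm]
      exact nu_mul62 hsP hxP₀
    have hvz : (v z : K) = c' := val_uniq62 hP₀ (hv z) hzP
    -- the side of `Q`
    have hsV : phi54 O x s ∈ V := (intO_poly62 (O := O) (x := x) s).mem hV
    have hcV : algebraMap K U (c' : K) ∈ V := (hV.mem_iff _).2 c'.2
    have hπ : π (ιV z) - algebraMap E R ε = (π ⟨x, hV.x_mem⟩ - algebraMap E R e) *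
        π ⟨phi54 O x s, hsV⟩ := by
      rw [← pi_const62 hV hR c'.2 hε hcV, ← hπb, ← map_sub, ← map_sub, ← map_mul]
      congr 1
      exact Subtype.ext hzs
    have hπQ : π (ιV z) - algebraMap E R ε ∈ Q.nonunits := by
      rw [hπ, mul_comm]
      exact nu_mul62 (pi_poly62 hbase hV hR hQE hxQ s hsV) he
    rw [hmem𝔭, hmem𝔮, hvz, hεu]
    constructor
    · rintro rfl
      rwa [map_zero, sub_zero] at hπQ
    · intro h
      have h2 := nu_sub62 h hπQ
      rw [sub_sub_cancel] at h2
      exact const_nu62 hQE h2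
  obtain ⟨σ, hσ⟩ := Pool.Agent.Helper91.Sect.conj_abstract (A := ℤ) (G := U ≃ₐ[L] U) 𝔭 𝔮 htrace
  -- the place `P`
  let P : ValuationSubring U := P₀.comap ((σ⁻¹ : U ≃ₐ[L] U) : U →+* U)
  have hPm : ∀ z, z ∈ P ↔ σ⁻¹ z ∈ P₀ := fun z => Iff.rfl
  have hPn : ∀ z, z ∈ P.nonunits ↔ σ⁻¹ z ∈ P₀.nonunits := by
    intro z
    rw [ValuationSubring.mem_nonunits_iff_or, ValuationSubring.mem_nonunits_iff_or, hPm, map_inv₀,
      map_eq_zero_iff _ (σ⁻¹ : U ≃ₐ[L] U).injective]
  have hσK : ∀ (τ : U ≃ₐ[L] U) (c : K), τ (algebraMap K U c) = algebraMap K U c := fun τ c =>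
    (τ.restrictScalars K).commutes c
  have hP : ∀ c : K, algebraMap K U c ∈ P := by
    intro c
    rw [hPm, hσK]
    exact hP₀ c
  have hxP : x - algebraMap K U b ∈ P.nonunits := by
    rw [hPn, map_sub, hσK]
    have h1 : σ⁻¹ x = x := hgx σ⁻¹
    rw [h1]
    exact hxP₀
  have hP1 : P ≠ ⊤ := by
    intro h
    have h1 := hxP
    rw [ValuationSubring.mem_nonunits_iff_or, h] at h1
    rcases h1 with h1 | h1
    · refine hu.tr ?_
      rw [sub_eq_zero] at h1
      rw [h1]
      exact isAlgebraic_algebraMap b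
    · exact h1 (ValuationSubring.mem_top _)
  -- `𝔮` in terms of `P`
  have hqP : ∀ z : ringO62 O x, z ∈ 𝔮 ↔
      ∃ c : K, c ∈ O.nonunits ∧ (z : U) - algebraMap K U c ∈ P.nonunits := by
    intro z
    rw [hσ, Ideal.mem_pointwise_smul_iff_inv_smul_mem, hmem𝔭]
    have h1 := hv (σ⁻¹ • z)
    rw [hcoe] at h1
    constructor
    · intro h
      refine ⟨_, h, ?_⟩
      rw [hPn, map_sub, hσK]
      exact h1
    · rintro ⟨c, hc, hc2⟩
      rw [hPn, map_sub, hσK] at hc2
      rw [val_uniq62 hP₀ h1 hc2]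
      exact hc
  -- `g` fixes `𝔮`
  have hgO : ∀ z : ringO62 O x, g z ∈ ringO62 O x := fun z => IntO.map z.2 g hgx'
  have hgq : ∀ z : ringO62 O x, (⟨g z, hgO z⟩ : ringO62 O x) ∈ 𝔮 ↔ z ∈ 𝔮 := by
    intro z
    rw [hmem𝔮, hmem𝔮]
    have h1 : ρ (π (ιV z)) = π (ιV ⟨g z, hgO z⟩) := hρ _ _ rfl
    rw [← h1, ValuationSubring.mem_nonunits_iff_or, ValuationSubring.mem_nonunits_iff_or,
      ← map_inv₀, hρQ, map_eq_zero_iff _ ρ.injective]
  -- the second place
  let P'' : ValuationSubring U := P.comap (g : U →+* U)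
  have hPm'' : ∀ z, z ∈ P'' ↔ g z ∈ P := fun z => Iff.rfl
  have hPn'' : ∀ z, z ∈ P''.nonunits ↔ g z ∈ P.nonunits := by
    intro z
    rw [ValuationSubring.mem_nonunits_iff_or, ValuationSubring.mem_nonunits_iff_or, hPm'', map_inv₀,
      map_eq_zero_iff _ g.injective]
  have hP'' : ∀ c : K, algebraMap K U c ∈ P'' := by
    intro c
    rw [hPm'', g.commutes]
    exact hP c
  have hxP'' : x - algebraMap K U b ∈ P''.nonunits := by
    rw [hPn'', map_sub, g.commutes, hgx']
    exact hxP
  have hqP'' : ∀ z : ringO62 O x, z ∈ 𝔮 ↔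
      ∃ c : K, c ∈ O.nonunits ∧ (z : U) - algebraMap K U c ∈ P''.nonunits := by
    intro z
    rw [← hgq, hqP]
    refine exists_congr fun c => and_congr_right fun _ => ?_
    rw [hPn'', map_sub, g.commutes]
  have hPP : P = P'' := by
    by_contra hne
    obtain ⟨z, hz, c, c', hc, hc', hzc, hzc', hcc⟩ :=
      hu'.exists_separating hbB hP hP'' hxP hxP'' hne
    apply hcc
    obtain ⟨ε, hε⟩ := hbase.exists_residue hc
    have hz1 : IntO O x (z - algebraMap K U (algebraMap E K ε)) :=
      hz.sub_const hbase (hbase.const ε)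
    have hq1 : (⟨_, hz1⟩ : ringO62 O x) ∈ 𝔮 := by
      rw [hqP]
      refine ⟨_, hε, ?_⟩
      have h1 : z - algebraMap K U (algebraMap E K ε) - algebraMap K U (c - algebraMap E K ε) =
          z - algebraMap K U c := by
        rw [map_sub]
        ring
      change z - algebraMap K U (algebraMap E K ε) - algebraMap K U (c - algebraMap E K ε) ∈ _
      rw [h1]
      exact hzc
    obtain ⟨c₁, hc₁, hc₂⟩ := (hqP'' _).1 hq1
    have h1 : c₁ = c' - algebraMap E K ε := by
      refine val_uniq62 hP'' hc₂ ?_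
      change z - algebraMap K U (algebraMap E K ε) - algebraMap K U (c' - algebraMap E K ε) ∈ _
      have h2 : z - algebraMap K U (algebraMap E K ε) - algebraMap K U (c' - algebraMap E K ε) =
          z - algebraMap K U c' := by
        rw [map_sub]
        ring
      rw [h2]
      exact hzc'
    rw [h1] at hc₁
    have h3 := nu_sub62 hε hc₁
    have h4 : c - algebraMap E K ε - (c' - algebraMap E K ε) = c - c' := by ring
    rwa [h4] at h3
  refine ⟨P, hP, hP1, fun z => ?_⟩
  rw [← hPm'', ← hPP]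

/-- An automorphism over `K(x)` whose reduction fixes a place of the residue field fixes a place. -/
theorem XSetup.exists_fixed (hu : XSetup E O t B x) (hV : Gauss E O x V) (hR : Res E V π)
    (g : U ≃ₐ[K] U) (hgx : g x = x) (ρ : R ≃ₐ[E] R) (hρ : Induces π g ρ)
    (Q : ValuationSubring R) (hQE : ∀ e : E, algebraMap E R e ∈ Q) (hQ1 : Q ≠ ⊤)
    (hρQ : ∀ r, ρ r ∈ Q ↔ r ∈ Q) :
    ∃ P : ValuationSubring U, (∀ c : K, algebraMap K U c ∈ P) ∧ P ≠ ⊤ ∧ ∀ z, g z ∈ P ↔ z ∈ P := by
  classical
  by_cases hxQ : π ⟨x, hV.x_mem⟩ ∈ Q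
  · exact hu.exists_fixed_fin hV hR g hgx ρ hρ Q hQE hQ1 hxQ hρQ
  obtain ⟨n, hn⟩ := exists_avoid hu.base B
  have hu1 := hu.sub (n : E)
  have hV1 : Gauss E O (x - algebraMap E U (n : E)) V := (Gauss.sub_iff hu.base (n : E)).2 hV
  have hB1 : ∀ b ∈ B.image (fun b => b - algebraMap E K (n : E)), b ∉ O.nonunits := by
    intro b hb
    obtain ⟨b', hb', rfl⟩ := Finset.mem_image.1 hb
    exact hn b' hb'
  have hu2 := hu1.inv hB1
  have hV2 := hV1.inv hu.base
  refine hu2.exists_fixed_fin hV2 hR g ?_ ρ hρ Q hQE hQ1 ?_ hρQ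
  · rw [map_inv₀, map_sub, hgx, IsScalarTower.algebraMap_apply E K U, g.commutes]
  set y : V := ⟨x - algebraMap E U (n : E), hV1.x_mem⟩ with hy
  have hyn : π y ∉ Q := by
    intro h
    apply hxQ
    have hcV : algebraMap E U (n : E) ∈ V := by
      have h1 := sub_mem hV.x_mem hV1.x_mem
      rwa [sub_sub_cancel] at h1
    have h2 : (⟨x, hV.x_mem⟩ : V) = y + ⟨algebraMap E U (n : E), hcV⟩ := by
      apply Subtype.ext
      change x = x - algebraMap E U (n : E) + algebraMap E U (n : E)
      ring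
    rw [h2, map_add, hR.const (n : E) ⟨algebraMap E U (n : E), hcV⟩ rfl]
    exact add_mem h (hQE _)
  have h3 : (π y)⁻¹ ∈ Q := (Q.mem_or_inv_mem (π y)).resolve_left hyn
  have h4 : π ⟨(x - algebraMap E U (n : E))⁻¹, hV2.x_mem⟩ = (π y)⁻¹ := by
    have hy0 : x - algebraMap E U (n : E) ≠ 0 := by
      intro h
      exact hyn (by
        have : y = 0 := Subtype.ext h
        rw [this, map_zero]
        exact Q.zero_mem)
    have h5 : y * ⟨(x - algebraMap E U (n : E))⁻¹, hV2.x_mem⟩ = 1 :=
      Subtype.ext (mul_inv_cancel₀ hy0)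
    have h6 := congrArg π h5
    rw [map_mul, map_one] at h6
    exact eq_inv_of_mul_eq_one_right h6
  rw [h4]
  exact h3

end Pool.Agent.GC
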