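import Pool.Agent.Helper13.GC.X2
import Pool.Agent.SC.CoverLevels
import Pool.Agent.SC.C1

/-!
# The valuation ring of `U`
-/

universe u

namespace Pool.Agent.GC

open VC Polynomial Pool.Agent.LT Pool.Agent

variable {E K X U : Type u} [Field E] [IsAlgClosed E] [CharZero E] [Field K] [IsAlgClosed K]
  [Algebra E K] [Field X] [Algebra K X] [Algebra E X] [IsScalarTower E K X] [Field U]
  [Algebra K U] [Algebra E U] [IsScalarTower E K U] [Algebra U X] [IsScalarTower K U X]
  {O : ValuationSubring K} {t : K} {x : U} {B : Finset K} {L M : IntermediateField K U}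
  {V : ValuationSubring U}

theorem comap_nonunits (V : ValuationSubring X) (z : U) :
    z ∈ (V.comap (algebraMap U X)).nonunits ↔ algebraMap U X z ∈ V.nonunits := by
  rw [ValuationSubring.mem_nonunits_iff_or, ValuationSubring.mem_nonunits_iff_or,
    ValuationSubring.mem_comap, map_inv₀, map_eq_zero]

omit [IsAlgClosed E] [CharZero E] [IsAlgClosed K] in
theorem map_aeval_EU [IsScalarTower E U X] (p : E[X]) (y : U) :
    algebraMap U X (aeval y p) = aeval (algebraMap U X y) p :=
  (aeval_algebraMap_apply X y p).symm

omit [IsAlgClosed E] [CharZero E] [IsAlgClosed K] [Algebra E K] [Algebra E X] [IsScalarTower E K X]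
  [Algebra E U] [IsScalarTower E K U] [Field E] in
theorem CSetup.tr {E : Type u} [Field E] [Algebra E K] (h : CSetup E X O t B x L M) :
    Transcendental K x := fun hx => h.set.tr (hx.algebraMap (A := X))

/-- A Gauss extension on `X` induces one on `U`. -/
theorem gauss_comap [IsScalarTower E U X] {V' : ValuationSubring X}
    (hV : Gauss E O (algebraMap U X x) V') : Gauss E O x (V'.comap (algebraMap U X)) := by
  refine ⟨fun c => ?_, ?_, fun p hp => ?_⟩
  · rw [ValuationSubring.mem_comap, ← IsScalarTower.algebraMap_apply K U X]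
    exact hV.mem_iff c
  · exact hV.x_mem
  · rw [comap_nonunits, map_aeval_EU]
    exact hV.x_tr p hp

/-- Every Gauss extension on `U` is induced by one on `X`. -/
theorem exists_gauss_ext [IsScalarTower E U X] (hV : Gauss E O x V) :
    ∃ V' : ValuationSubring X, Gauss E O (algebraMap U X x) V' ∧
      V'.comap (algebraMap U X) = V := by
  obtain ⟨V', hV'⟩ := SC.exists_comap_eq (algebraMap U X) V
  have hcomap : V'.comap (algebraMap U X) = V := by
    ext z
    exact hV' z
  refine ⟨V', ⟨fun c => ?_, ?_, fun p hp => ?_⟩, hcomap⟩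
  · rw [IsScalarTower.algebraMap_apply K U X, hV', hV.mem_iff]
  · exact (hV' x).2 hV.x_mem
  · rw [← map_aeval_EU, ← comap_nonunits, hcomap]
    exact hV.x_tr p hp

theorem CSetup.gauss_unique [IsScalarTower E U X] (h : CSetup E X O t B x L M)
    {V V' : ValuationSubring U} (hV : Gauss E O x V) (hV' : Gauss E O x V') : V = V' := by
  obtain ⟨W, hW, rfl⟩ := exists_gauss_ext (X := X) hV
  obtain ⟨W', hW', rfl⟩ := exists_gauss_ext (X := X) hV'
  rw [h.set.gauss_unique hW hW']

private lemma comap_nonunits_aux {F L : Type*} [Field F] [Field L] (V : ValuationSubring L)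
    (f : F →+* L) (z : F) : z ∈ (V.comap f).nonunits ↔ f z ∈ V.nonunits := by
  rw [ValuationSubring.mem_nonunits_iff_or, ValuationSubring.mem_nonunits_iff_or,
    ValuationSubring.mem_comap, map_inv₀, map_eq_zero]

/-- Semilinear automorphisms preserve the valuation ring. -/
theorem CSetup.stable [IsScalarTower E U X] (hu : CSetup E X O t B x L M) {V : ValuationSubring U}
    (hV : Gauss E O x V) (σ : U ≃+* U) (φ : K ≃+* K)
    (hσ : ∀ c, σ (algebraMap K U c) = algebraMap K U (φ c)) (hφ : ∀ c, φ c ∈ O ↔ c ∈ O)
    (hx : σ x = x) (z : U) : σ z ∈ V ↔ z ∈ V := by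
  have hG : Gauss E O x (V.comap (σ : U →+* U)) := by
    refine ⟨fun c => ?_, ?_, fun p hp => ?_⟩
    · rw [ValuationSubring.mem_comap]
      change σ (algebraMap K U c) ∈ V ↔ _
      rw [hσ, hV.mem_iff, hφ]
    · rw [ValuationSubring.mem_comap]
      change σ x ∈ V
      rw [hx]
      exact hV.x_mem
    · rw [comap_nonunits_aux]
      have h1 : (σ : U →+* U) (aeval x p) =
          aeval x ((p.map (algebraMap E K)).map (φ : K →+* K)) := by
        have e1 : (σ : U →+* U).comp (algebraMap K U) =
            (algebraMap K U).comp (φ : K →+* K) := RingHom.ext fun c => hσ c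
        have e2 : (σ : U →+* U) x = x := hx
        rw [← aeval_map_algebraMap K x p]
        generalize p.map (algebraMap E K) = P
        rw [aeval_def, aeval_def, hom_eval₂, eval₂_map, e1, e2]
      rw [h1, ValuationSubring.mem_nonunits_iff]
      obtain ⟨i, hi⟩ : ∃ i, p.coeff i ≠ 0 := by
        by_contra hcon
        push Not at hcon
        exact hp (Polynomial.ext fun i => by rw [hcon i, coeff_zero])
      intro hlt
      have h2 : V.valuation (aeval x ((p.map (algebraMap E K)).map (φ : K →+* K))) <
          V.valuation (algebraMap K U 1) := by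
        rw [map_one, map_one]
        exact hlt
      rw [hV.val_poly_lt hu.set.base _ 1 one_ne_zero] at h2
      have h3 := h2 i
      rw [coeff_map, coeff_map, map_one, ← ValuationSubring.mem_nonunits_iff,
        ValuationSubring.mem_nonunits_iff_or] at h3
      have he0 : algebraMap E K (p.coeff i) ≠ 0 := (_root_.map_ne_zero _).2 hi
      rcases h3 with h3 | h3
      · exact he0 ((map_eq_zero _).1 h3)
      · apply h3
        rw [← map_inv₀, ← map_inv₀]
        exact (hφ _).2 (hu.set.base.const _)
  have h := hu.gauss_unique hG hV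
  have h2 : z ∈ V.comap (σ : U →+* U) ↔ z ∈ V := by rw [h]
  rwa [ValuationSubring.mem_comap] at h2

/-- `U` is algebraic over `K(x)`. -/
theorem CSetup.alg (h : CSetup E X O t B x L M) :
    Algebra.IsAlgebraic (IntermediateField.adjoin K {x}) U := by
  have hgal := h.set.gal
  refine ⟨fun z => ?_⟩
  have h1 : IsAlgebraic (IntermediateField.adjoin K {algebraMap U X x}) (algebraMap U X z) :=
    Algebra.IsAlgebraic.isAlgebraic _
  let f : U →ₐ[K] X := IsScalarTower.toAlgHom K U X
  have h2 : (IntermediateField.adjoin K {x}).map f =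
      IntermediateField.adjoin K {algebraMap U X x} := by
    rw [IntermediateField.adjoin_map, Set.image_singleton]
    rfl
  have h3 : IsAlgebraic (IntermediateField.adjoin K {x}) (algebraMap U X z) := by
    refine SC.isAlgebraic_of_range_le (A := IntermediateField.adjoin K {algebraMap U X x})
      (fun v => ?_) h1
    have hv : (v : X) ∈ (IntermediateField.adjoin K {x}).map f := by rw [h2]; exact v.2
    obtain ⟨w, hw, hwv⟩ := hv
    exact ⟨⟨w, hw⟩, hwv⟩
  exact (isAlgebraic_algebraMap_iff (algebraMap U X).injective).1 h3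

end Pool.Agent.GC
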