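import Pool.Agent.Helper13.GC.Y4
import Pool.Agent.Helper13.GC.Y5

/-!
# The residue field is a cover in the sense of the weights theorem
-/

universe u

namespace Pool.Agent.GC

open VC Polynomial Pool.Agent.LT Pool.Agent

variable {E K X U R : Type u} [Field E] [IsAlgClosed E] [CharZero E] [Field K] [IsAlgClosed K]
  [Algebra E K] [Field X] [Algebra K X] [Algebra E X] [IsScalarTower E K X] [Field U]
  [Algebra K U] [Algebra E U] [IsScalarTower E K U] [Algebra U X] [IsScalarTower K U X]
  [IsScalarTower E U X] [Field R] [Algebra E R]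
  {O : ValuationSubring K} {t : K} {x : U} {B : Finset K} {L M : IntermediateField K U}
  {V : ValuationSubring U} {π : V →+* R}

theorem CSetup.rcover (hu : CSetup E X O t B x L M) (hV : Gauss E O x V) (hR : Res E V π) :
    RCover (resField hV hR M) := by
  refine ⟨hu.isFunctionField_residue hV hR, hu.isGalois_residue hV hR, ?_, ?_⟩
  · intro ρ Q hQE hQ1 hρQ
    have h1 := hu.free hV hR (ρ.restrictScalars E) (fun r hr => ρ.commutes ⟨r, hr⟩) Q hQE hQ1 hρQ
    ext r
    exact AlgEquiv.congr_fun h1 r
  · intro N hMN hN w a b ha hb hw0 hw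
    exact hu.div_residue hV hR hMN hN ha hb hw0 hw

end Pool.Agent.GC
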